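import Pool.Agent.W_MP_0394fb_al.SetModel

set_option autoImplicit false

open CategoryTheory Opposite

namespace Pool.Agent.W_MP_0394fb_al

/-- Cocycles on a set with values in the integers, i.e. functors from the codiscrete groupoid
on the set to the one-object groupoid of the integers. -/
def Coc (A : Type) : Type := {c : A → A → ℤ // ∀ x y z, c x y + c y z = c x z}

lemma Coc.self {A : Type} (c : Coc A) (x : A) : c.1 x x = 0 := by
  have := c.2 x x x; omega

lemma Coc.symm {A : Type} (c : Coc A) (x y : A) : c.1 x y = - c.1 y x := by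
  have h1 := c.2 x y x
  rw [c.self] at h1; omega

/-- Restriction of cocycles. -/
def Coc.comap {A B : Type} (f : A → B) (c : Coc B) : Coc A :=
  ⟨fun x y => c.1 (f x) (f y), fun _ _ _ => c.2 _ _ _⟩

@[simp] lemma Coc.comap_val {A B : Type} (f : A → B) (c : Coc B) (x y : A) :
    (c.comap f).1 x y = c.1 (f x) (f y) := rfl

lemma Coc.ext {A : Type} {c d : Coc A} (h : ∀ x y, c.1 x y = d.1 x y) : c = d :=
  Subtype.ext (funext fun x => funext fun y => h x y)

/-- The presheaf on sets of cocycles. -/
def cocF : Typeᵒᵖ ⥤ Type where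
  obj A := Coc A.unop
  map f := ↾(Coc.comap f.unop)
  map_id _ := rfl
  map_comp _ _ := rfl

/-- gluing of potentials -/
lemma exists_potential (S : Coglob Type) (hne : ∀ i, Nonempty (S.D i)) (T : Table)
    (c : ∀ k : Fin (T.len + 1), Coc (S.D (T.top k)))
    (hc : ∀ k : Fin T.len, (c k.castSucc).comap (S.sIter (T.hl k).le) =
      (c k.succ).comap (S.tIter (T.hr k).le)) :
    ∃ p : ∀ k : Fin (T.len + 1), S.D (T.top k) → ℤ,
      (∀ k x y, (c k).1 x y = p k y - p k x) ∧
      ∀ (k : Fin T.len) (y : S.D (T.mid k)), p k.castSucc (S.sIter (T.hl k).le y) =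
        p k.succ (S.tIter (T.hr k).le y) := by
  -- shifts
  let b : ∀ k : Fin T.len, S.D (T.mid k) := fun k => (hne _).some
  -- base potentials
  let x0 : ∀ k : Fin (T.len + 1), S.D (T.top k) := fun k => (hne _).some
  let q : ∀ k : Fin (T.len + 1), S.D (T.top k) → ℤ := fun k y => (c k).1 (x0 k) y
  let s : Fin (T.len + 1) → ℤ := fun k =>
    Fin.induction (motive := fun _ => ℤ) 0 (fun k r => r + q k.castSucc (S.sIter (T.hl k).le (b k))
      - q k.succ (S.tIter (T.hr k).le (b k))) k
  refine ⟨fun k y => q k y + s k, fun k x y => ?_, fun k y => ?_⟩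
  · have := (c k).2 (x0 k) x y
    simp only [q]; omega
  · have hs : s k.succ = s k.castSucc + q k.castSucc (S.sIter (T.hl k).le (b k))
      - q k.succ (S.tIter (T.hr k).le (b k)) := by
      simp only [s, Fin.induction_succ]
    have h1 := congrArg (fun d : Coc (S.D (T.mid k)) => d.1 (b k) y) (hc k)
    simp only [Coc.comap_val] at h1
    have h2 := (c k.castSucc).2 (x0 _) (S.sIter (T.hl k).le (b k)) (S.sIter (T.hl k).le y)
    have h3 := (c k.succ).2 (x0 _) (S.tIter (T.hr k).le (b k)) (S.tIter (T.hr k).le y)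
    simp only [hs, q]
    omega

/-- The cocycle presheaf sends globular sums to fibre products. -/
lemma coc_glue (S : Coglob Type) (hne : ∀ i, Nonempty (S.D i)) (T : Table) (X : Type)
    (c : S.Cocone T X) (hsum : c.IsSum)
    (x : ∀ k : Fin (T.len + 1), Coc (S.D (T.top k)))
    (hx : ∀ k : Fin T.len, (x k.castSucc).comap (S.sIter (T.hl k).le) =
      (x k.succ).comap (S.tIter (T.hr k).le)) :
    ∃! y : Coc X, ∀ k, y.comap (c.inj k) = x k := by
  obtain ⟨p, hp1, hp2⟩ := exists_potential S hne T x hx
  obtain ⟨f, hf, -⟩ := hsum ℤ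
    { inj := fun k => ↾(p k)
      glue := fun k => by ext y; exact hp2 k y }
  have hf' : ∀ k y, f (c.inj k y) = p k y := fun k y => ConcreteCategory.congr_hom (hf k) y
  refine ⟨⟨fun x y => f y - f x, fun x y z => by ring⟩, fun k => ?_, fun d hd => ?_⟩
  · apply Coc.ext
    intro u v
    rw [hp1]
    change f (c.inj k v) - f (c.inj k u) = _
    rw [hf', hf']
  · -- uniqueness: f - d(x0, -) is constant
    have h0 : Nonempty X := ⟨c.inj 0 (hne _).some⟩
    obtain ⟨x0⟩ := h0
    let g : X → ℤ := fun y => f y - d.1 x0 y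
    -- g is constant on each piece
    have hg : ∀ k (u v : S.D (T.top k)), g (c.inj k u) = g (c.inj k v) := by
      intro k u v
      have h1 := congrArg (fun e : Coc (S.D (T.top k)) => e.1 u v) (hd k)
      simp only [Coc.comap_val, hp1] at h1
      have h2 := d.2 x0 (c.inj k u) (c.inj k v)
      simp only [g, hf']
      omega
    have hglue : ∀ (k : Fin T.len) (y : S.D (T.mid k)),
        c.inj k.castSucc (S.sIter (T.hl k).le y) = c.inj k.succ (S.tIter (T.hr k).le y) :=
      fun k y => ConcreteCategory.congr_hom (c.glue k) y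
    have hg2 : ∀ (k : Fin (T.len + 1)) (u : S.D (T.top k)),
        g (c.inj k u) = g (c.inj 0 (hne _).some) := by
      intro k
      induction k using Fin.induction with
      | zero => intro u; exact hg 0 u _
      | succ k ih =>
        intro u
        have y : S.D (T.mid k) := (hne _).some
        rw [hg k.succ u (S.tIter (T.hr k).le y), ← hglue, ih]
    obtain ⟨f', -, hu⟩ := hsum ℤ
      { inj := fun k => ↾(fun _ => g (c.inj 0 (hne _).some))
        glue := fun k => by ext y; rfl }
    have e1 := hu (↾g) (fun k => by ext u; exact hg2 k u)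
    have e2 := hu (↾(fun _ => g (c.inj 0 (hne _).some))) (fun k => by ext u; rfl)
    have e3 : ∀ y, g y = g (c.inj 0 (hne _).some) := by
      intro y
      have := e1.trans e2.symm
      exact ConcreteCategory.congr_hom this y
    apply Coc.ext
    intro u v
    have h1 := e3 u
    have h2 := e3 v
    have h3 := d.2 x0 u v
    simp only [g] at h1 h2 ⊢
    omega

section

variable {C : Type} [Category.{0} C] {G : Coglob C}

/-- The vertices functor, applied to globes: nonempty. -/
lemma nonempty_setD (i : ℕ) : Nonempty (setGlob.D i) := by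
  cases i with
  | zero => exact ⟨PUnit.unit⟩
  | succ i => exact ⟨true⟩

/-- The infinity-groupoid given by the integers, seen as a one-object groupoid. -/
def bzPsh (V : Mor G setGlob) : Cᵒᵖ ⥤ Type := V.K.op ⋙ cocF

lemma Coc.comap_bijective_of_iso {A B : Type} (e : A ≅ B) :
    Function.Bijective (Coc.comap e.hom : Coc B → Coc A) := by
  constructor
  · intro c d h
    apply Coc.ext
    intro x y
    have := congrArg (fun c : Coc A => c.1 (e.inv x) (e.inv y)) h
    simpa using this
  · intro c
    refine ⟨c.comap e.inv, ?_⟩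
    apply Coc.ext
    intro x y
    simp

lemma isGpd_bz (V : Mor G setGlob) : IsGpd G (bzPsh V) := by
  intro T X c hc x hx
  have hsum := V.pres T X c hc
  -- transport the family
  let x' : ∀ k : Fin (T.len + 1), Coc (V.K.obj (G.D (T.top k))) := x
  have hx' : ∀ k : Fin T.len, (x' k.castSucc).comap (V.K.map (G.sIter (T.hl k).le)) =
      (x' k.succ).comap (V.K.map (G.tIter (T.hr k).le)) := hx
  have hcomp : ∀ {A B D : Type} (f : A ⟶ B) (g : B ⟶ D) (c : Coc D),
    c.comap (f ≫ g) = (c.comap g).comap f := fun _ _ _ => rfl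
  obtain ⟨y, hy, hu⟩ := coc_glue setGlob nonempty_setD T _ _ hsum
    (fun k => (x' k).comap (V.e _).inv) (fun k => by
      have h1 := V.e_sIter (T.hl k).le
      have h2 := V.e_tIter (T.hr k).le
      rw [← Iso.inv_comp_eq, ← Category.assoc, ← Iso.eq_comp_inv] at h1 h2
      rw [← hcomp, ← hcomp, ← h1, ← h2, hcomp, hcomp, hx'])
  have key : ∀ (d : Coc (V.K.obj X)) (k : Fin (T.len + 1)),
      d.comap ((V.push c).inj k) = (x' k).comap (V.e _).inv ↔
        d.comap (V.K.map (c.inj k)) = x' k := by
    intro d k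
    constructor
    · intro h
      have h' := congrArg (Coc.comap (V.e _).hom) h
      rw [← hcomp, ← hcomp, Iso.hom_inv_id] at h'
      have e1 : (V.e (T.top k)).hom ≫ (V.push c).inj k = V.K.map (c.inj k) := by
        simp [Under.push]
      rw [e1] at h'
      exact h'
    · intro h
      have : (V.push c).inj k = (V.e _).inv ≫ V.K.map (c.inj k) := rfl
      rw [this, hcomp, h]
  exact ⟨y, fun k => (key y k).1 (hy k), fun d hd => hu d fun k => (key d k).2 (hd k)⟩

/-- `BZ` as an infinity-groupoid. -/
def bz (V : Mor G setGlob) : Gpd G := ⟨bzPsh V, isGpd_bz V⟩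

/-- The terminal infinity-groupoid. -/
def pt (G : Coglob C) : Gpd G :=
  ⟨(Functor.const _).obj PUnit, fun _ _ _ _ _ _ => ⟨PUnit.unit, fun _ => rfl, fun _ _ => rfl⟩⟩

/-- The map from `BZ` to the point. -/
def toPt (V : Mor G setGlob) : bz V ⟶ pt G :=
  ObjectProperty.homMk { app := fun _ => ↾(fun _ => PUnit.unit), naturality := fun _ _ _ => rfl }

end

end Pool.Agent.W_MP_0394fb_al
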