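import Pool.Agent.W_MP_0394fb_al.Lim

set_option autoImplicit false

open CategoryTheory Opposite

namespace Pool.Agent.W_MP_0394fb_al

universe v u v' u'

/-- The sequence of theories obtained by adjoining liftings of all parallel pairs. -/
def tw : ℕ → Thy
  | 0 => theta
  | n + 1 => free (tw n) (fun p : ParPair (tw n).G => p)

/-- The inclusions. -/
def twι (n : ℕ) : Mor (tw n).G (tw (n + 1)).G := freeι (tw n) (fun p => p)

/-- The tower. -/
def twTower : Tower where
  C n := (tw n).Obj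
  cat n := inferInstance
  G n := (tw n).G
  ext n := (tw n).isExtension
  zero := isTheta0_theta
  ι n := twι n
  A n := ParPair (tw n).G
  p n := fun p => p
  l n := new (tw n) (fun p => p)
  free n := isFreeAdjunction_free

/-- The sequence of theories. -/
def twSys : Sys where
  t := tw
  ι n {_ _} f := old (tw n) (fun p => p) f
  id n T := old_id _ _ T
  comp n {_ _ _} f g := old_comp _ _ f g
  σ n i := old_σ _ _ i
  τ n i := old_τ _ _ i
  ij n T k := old_inj _ _ T k

lemma Sys.cl_ι {s : Sys} (n : ℕ) {S T : Table} (f : (s.t n).Hom S T) :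
    Sys.cl (n + 1) (s.ι n f) = Sys.cl n f := by
  have h1 := Sys.cl_tr (Nat.le_succ n) f
  rw [Sys.tr_succ (le_refl n), Sys.tr_self] at h1
  exact h1

/-- The limit theory. -/
def tinf : Thy := twSys.lim

/-- the class of a morphism in the limit -/
def tcl (n : ℕ) {S T : Table} (f : (tw n).Hom S T) : tinf.Hom S T := Sys.cl (s := twSys) n f

/-- The canonical functors to the limit. -/
def jU (n : ℕ) : Under (tw n).G tinf.G where
  K :=
    { obj := fun T => (T : Table)
      map := fun f => tcl n f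
      map_id := fun T => Sys.cl_id (s := twSys) n T
      map_comp := fun f g => Sys.cl_comp (s := twSys) n f g }
  e i := Iso.refl _
  eσ i := (Category.comp_id (obj := tinf.Obj) _).trans
    ((Sys.cl_σ (s := twSys) n i).trans (Category.id_comp (obj := tinf.Obj) _).symm)
  eτ i := (Category.comp_id (obj := tinf.Obj) _).trans
    ((Sys.cl_τ (s := twSys) n i).trans (Category.id_comp (obj := tinf.Obj) _).symm)

/-- The canonical morphisms to the limit. -/
def jn (n : ℕ) : Mor (tw n).G tinf.G where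
  toUnder := jU n
  pres := pres_of (tw n) (jU n) fun T =>
    isSum_of_iso (tinf.sum T) _ (Iso.refl _) fun k =>
      (Category.comp_id (obj := tinf.Obj) _).trans
        ((Category.id_comp (obj := tinf.Obj) _).trans (Sys.cl_ij (s := twSys) n T k)).symm

lemma tcl_ι (n : ℕ) {S T : Table} (f : (tw n).Hom S T) :
    tcl (n + 1) (old (tw n) (fun p => p) f) = tcl n f := Sys.cl_ι (s := twSys) n f

/-- The compatibility isomorphisms. -/
def jγ (n : ℕ) : Iso2 ((twι n).comp (jn (n + 1))).toUnder (jn n).toUnder where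
  θ := NatIso.ofComponents (fun T => Iso.refl _) (fun {S T} f =>
    (Category.comp_id (obj := tinf.Obj) _).trans
      ((tcl_ι n f).trans (Category.id_comp (obj := tinf.Obj) _).symm))
  w i := by
    have h1 : (((twι n).comp (jn (n + 1))).e i).hom = 𝟙 _ :=
      (Category.comp_id (obj := tinf.Obj) _).trans ((jn (n + 1)).K.map_id _)
    exact (Category.comp_id (obj := tinf.Obj) _).trans h1.symm

section

variable {E : Type 1} [Category.{0} E] {H : Coglob E} (M : ∀ n, Mor (tw n).G H)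
  (α : ∀ n, Iso2 ((twι n).comp (M (n + 1))).toUnder (M n).toUnder)

/-- components of the comparison isomorphisms -/
def αc (n : ℕ) (T : Table) :
    (M (n + 1)).K.obj (T : (tw (n + 1)).Obj) ≅ (M n).K.obj (T : (tw n).Obj) :=
  (α n).θ.app (T : (tw n).Obj)

lemma αc_nat (n : ℕ) {S T : Table} (f : (tw n).Hom S T) :
    (M (n + 1)).K.map (old (tw n) (fun p => p) f) ≫ (αc M α n T).hom =
      (αc M α n S).hom ≫ (M n).K.map f :=
  (α n).θ.hom.naturality f

lemma αc_w (n : ℕ) (i : ℕ) :
    (αc M α n (T1 i)).hom ≫ ((M n).e i).hom = ((M (n + 1)).e i).hom :=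
  ((α n).w i).trans ((congrArg (fun z => z ≫ ((M (n + 1)).e i).hom)
    ((M (n + 1)).K.map_id _)).trans (Category.id_comp _))

/-- comparison with the first term -/
def δc : ∀ (n : ℕ) (T : Table), (M n).K.obj (T : (tw n).Obj) ≅ (M 0).K.obj (T : (tw 0).Obj)
  | 0, _ => Iso.refl _
  | n + 1, T => αc M α n T ≪≫ δc n T

lemma δc_w (n : ℕ) (i : ℕ) :
    (δc M α n (T1 i)).hom ≫ ((M 0).e i).hom = ((M n).e i).hom := by
  induction n with
  | zero => exact Category.id_comp _
  | succ n ih =>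
    exact (Category.assoc _ _ _).trans ((congrArg (fun z => (αc M α n (T1 i)).hom ≫ z) ih).trans
      (αc_w M α n i))

/-- conjugation -/
def cj (n : ℕ) {S T : Table} (f : (tw n).Hom S T) :
    (M 0).K.obj (S : (tw 0).Obj) ⟶ (M 0).K.obj (T : (tw 0).Obj) :=
  (δc M α n S).inv ≫ (M n).K.map f ≫ (δc M α n T).hom

lemma aux_cj {X Y X' Y' X'' Y'' : E} (a : X ≅ X') (d : X' ≅ X'') (b : Y ≅ Y') (e : Y' ≅ Y'')
    {f : X ⟶ Y} {f' : X' ⟶ Y'} (h : f ≫ b.hom = a.hom ≫ f') :
    (a ≪≫ d).inv ≫ f ≫ (b ≪≫ e).hom = d.inv ≫ f' ≫ e.hom := by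
  simp only [Iso.trans_inv, Iso.trans_hom, Category.assoc]
  rw [← Category.assoc f, h]
  simp

lemma cj_succ (n : ℕ) {S T : Table} (f : (tw n).Hom S T) :
    cj M α (n + 1) (old (tw n) (fun p => p) f) = cj M α n f :=
  aux_cj (αc M α n S) (δc M α n S) (αc M α n T) (δc M α n T) (αc_nat M α n f)

lemma cj_tr {n m : ℕ} (h : n ≤ m) {S T : Table} (f : (tw n).Hom S T) :
    cj M α m (twSys.tr h f) = cj M α n f := by
  induction m, h using Nat.le_induction with
  | base =>
    have : twSys.tr (le_refl n) f = f := Sys.tr_self (s := twSys) f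
    exact congrArg (cj M α n) this
  | succ m h ih =>
    have h1 := Sys.tr_succ (s := twSys) h (h.trans (Nat.le_succ m)) f
    exact (congrArg (cj M α (m + 1)) h1).trans ((cj_succ M α m _).trans ih)

lemma aux_comp {X Y Z X' Y' Z' : E} (a : X ≅ X') (b : Y ≅ Y') (c : Z ≅ Z') (f : X ⟶ Y)
    (g : Y ⟶ Z) :
    a.inv ≫ (f ≫ g) ≫ c.hom = (a.inv ≫ f ≫ b.hom) ≫ (b.inv ≫ g ≫ c.hom) := by
  simp

lemma cj_comp (n : ℕ) {R S T : Table} (f : (tw n).Hom R S) (g : (tw n).Hom S T) :
    cj M α n ((tw n).comp f g) = cj M α n f ≫ cj M α n g :=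
  (congrArg (fun z => (δc M α n R).inv ≫ z ≫ (δc M α n T).hom)
    ((M n).K.map_comp f g)).trans (aux_comp _ _ _ _ _)

/-- the functor on morphisms -/
def nmap {S T : Table} (x : tinf.Hom S T) :
    (M 0).K.obj (S : (tw 0).Obj) ⟶ (M 0).K.obj (T : (tw 0).Obj) :=
  Quotient.lift (s := twSys.setoid S T) (fun a => cj M α a.1 a.2) (by
    rintro a b ⟨m, h, h', e⟩
    exact (cj_tr M α h a.2).symm.trans ((congrArg (cj M α m) e).trans (cj_tr M α h' b.2))) x

lemma nmap_cl (n : ℕ) {S T : Table} (f : (tw n).Hom S T) :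
    nmap M α (tcl n f) = cj M α n f := rfl

lemma cj_zero {S T : Table} (f : (tw 0).Hom S T) : cj M α 0 f = (M 0).K.map f :=
  (Category.id_comp _).trans (Category.comp_id _)

lemma tcl_surj {S T : Table} (x : tinf.Hom S T) : ∃ (n : ℕ) (f : (tw n).Hom S T), tcl n f = x :=
  Sys.exists_rep (s := twSys) x

lemma tcl_surj₂ {S T S' T' : Table} (x : tinf.Hom S T) (y : tinf.Hom S' T') :
    ∃ (n : ℕ) (f : (tw n).Hom S T) (g : (tw n).Hom S' T'), tcl n f = x ∧ tcl n g = y :=
  Sys.exists_rep₂ (s := twSys) x y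

lemma tcl_comp (n : ℕ) {R S T : Table} (f : (tw n).Hom R S) (g : (tw n).Hom S T) :
    tcl n ((tw n).comp f g) = tinf.comp (tcl n f) (tcl n g) := Sys.cl_comp (s := twSys) n f g

/-- The functor out of the limit. -/
def nU : Under tinf.G H where
  K :=
    { obj := fun T => (M 0).K.obj (T : Table)
      map := fun f => nmap M α f
      map_id := fun T => (cj_zero M α ((tw 0).id T)).trans ((M 0).K.map_id _)
      map_comp := fun {R S T} x y => by
        obtain ⟨n, f, g, rfl, rfl⟩ := tcl_surj₂ x y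
        exact (congrArg (nmap M α) (tcl_comp n f g).symm).trans (cj_comp M α n f g) }
  e i := (M 0).e i
  eσ i := (congrArg (fun z => z ≫ ((M 0).e (i + 1)).hom)
    (cj_zero M α ((tw 0).σ i))).trans ((M 0).eσ i)
  eτ i := (congrArg (fun z => z ≫ ((M 0).e (i + 1)).hom)
    (cj_zero M α ((tw 0).τ i))).trans ((M 0).eτ i)

/-- The morphism out of the limit. -/
def nM : Mor tinf.G H where
  toUnder := nU M α
  pres := pres_of tinf (nU M α) fun T =>
    isSum_of_iso ((M 0).pres T T ((tw 0).c T) ((tw 0).sum T)) _ (Iso.refl _) fun k =>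
      (Category.comp_id _).trans (congrArg (fun z => ((M 0).e (T.top k)).inv ≫ z)
        (cj_zero M α (((tw 0).c T).inj k)).symm)

lemma aux_inv {X Y X' Y' : E} (a : X ≅ X') (b : Y ≅ Y') (f : X ⟶ Y) :
    (a.inv ≫ f ≫ b.hom) ≫ b.inv = a.inv ≫ f := by
  simp

/-- Comparison isomorphisms. -/
def nβ (n : ℕ) : Iso2 ((jn n).comp (nM M α)).toUnder (M n).toUnder where
  θ := NatIso.ofComponents (fun T => (δc M α n T).symm) (fun {S T} f =>
    aux_inv (δc M α n S) (δc M α n T) ((M n).K.map f))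
  w i := by
    have h1 : (((jn n).comp (nM M α)).e i).hom = ((M 0).e i).hom :=
      (congrArg (fun z => z ≫ ((M 0).e i).hom) ((nM M α).K.map_id _)).trans (Category.id_comp _)
    exact ((Iso.inv_comp_eq (δc M α n (T1 i))).2 (δc_w M α n i).symm).trans h1.symm

lemma aux_compat {X Y Z : E} (a : X ≅ Y) (d : Y ≅ Z) : 𝟙 Z ≫ d.inv = (a ≪≫ d).inv ≫ a.hom := by
  simp

end

theorem twTower_colimit : IsTowerColimit twTower tinf.G jn jγ := by
  intro E _ H _
  constructor
  · intro M α
    refine ⟨nM M α, nβ M α, fun n X => ?_⟩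
    exact (congrArg (fun z => z ≫ (δc M α n X).inv) ((nM M α).K.map_id _)).trans
      (aux_compat (αc M α n X) (δc M α n X))
  · intro N N' β hβ
    have hstep : ∀ n (X : Table), (β n).app (X : (tw n).Obj) =
        (β (n + 1)).app (X : (tw (n + 1)).Obj) := by
      intro n X
      have h1 := hβ n X
      have h2 : N.K.map ((jγ n).app X) = 𝟙 _ := N.K.map_id _
      have h3 : N'.K.map ((jγ n).app X) = 𝟙 _ := N'.K.map_id _
      exact (Category.id_comp _).symm.trans ((congrArg (fun z => z ≫ (β n).app X) h2.symm).trans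
        (h1.trans ((congrArg (fun z => (β (n + 1)).app X ≫ z) h3).trans (Category.comp_id _))))
    have hall : ∀ n (X : Table), (β 0).app (X : (tw 0).Obj) = (β n).app (X : (tw n).Obj) := by
      intro n X
      induction n with
      | zero => rfl
      | succ n ih => exact ih.trans (hstep n X)
    refine ⟨⟨NatIso.ofComponents (fun T => (β 0).θ.app T) (fun {S T} x => ?_), fun i => ?_⟩,
      fun n X => hall n X, fun δ hδ => ?_⟩
    · obtain ⟨n, f, rfl⟩ := tcl_surj x
      have h1 := (β n).θ.hom.naturality f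
      exact (congrArg (fun z => N.K.map (tcl n f) ≫ z) (hall n T)).trans
        (h1.trans (congrArg (fun z => z ≫ N'.K.map (tcl n f)) (hall n S).symm))
    · have h1 := (β 0).w i
      have h2 : (((jn 0).comp N).e i).hom = (N.e i).hom :=
        (congrArg (fun z => z ≫ (N.e i).hom) (N.K.map_id _)).trans (Category.id_comp _)
      have h3 : (((jn 0).comp N').e i).hom = (N'.e i).hom :=
        (congrArg (fun z => z ≫ (N'.e i).hom) (N'.K.map_id _)).trans (Category.id_comp _)
      exact (congrArg (fun z => (β 0).θ.hom.app _ ≫ z) h3.symm).trans (h1.trans h2)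
    · apply Iso2.ext'
      intro X
      exact hδ 0 X

lemma tcl_tr {n m : ℕ} (h : n ≤ m) {S T : Table} (f : (tw n).Hom S T) :
    tcl m (twSys.tr h f) = tcl n f := Sys.cl_tr (s := twSys) h f

lemma tcl_eq {n : ℕ} {S T : Table} {f g : (tw n).Hom S T} (e : tcl n f = tcl n g) :
    ∃ m, ∃ h : n ≤ m, (twSys.tr h f : (tw m).Hom S T) = twSys.tr h g :=
  Sys.cl_eq (s := twSys) e

lemma tr_comp' {n m : ℕ} (h : n ≤ m) {R S T : Table} (f : (tw n).Hom R S)
    (g : (tw n).Hom S T) : (twSys.tr h ((tw n).comp f g) : (tw m).Hom R T) =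
      (tw m).comp (twSys.tr h f) (twSys.tr h g) := Sys.tr_comp (s := twSys) h f g

lemma tr_σ' {n m : ℕ} (h : n ≤ m) (i : ℕ) :
    (twSys.tr h ((tw n).σ i) : (tw m).Hom _ _) = (tw m).σ i := Sys.tr_σ (s := twSys) h i

lemma tr_τ' {n m : ℕ} (h : n ≤ m) (i : ℕ) :
    (twSys.tr h ((tw n).τ i) : (tw m).Hom _ _) = (tw m).τ i := Sys.tr_τ (s := twSys) h i

lemma tr_tr' {n m k : ℕ} (h : n ≤ m) (h' : m ≤ k) {S T : Table} (f : (tw n).Hom S T) :
    (twSys.tr h' (twSys.tr h f) : (tw k).Hom S T) = twSys.tr (h.trans h') f :=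
  Sys.tr_tr (s := twSys) h h' f

lemma tcl_σ (n i : ℕ) : tcl n ((tw n).σ i) = tinf.σ i := Sys.cl_σ (s := twSys) n i

lemma tcl_τ (n i : ℕ) : tcl n ((tw n).τ i) = tinf.τ i := Sys.cl_τ (s := twSys) n i

lemma exists_par {i : ℕ} {X : Table} {n : ℕ} (f g : (tw n).Hom (T1 i) X)
    (h : tinf.G.Parallel (X := (X : tinf.Obj)) (tcl n f) (tcl n g)) :
    ∃ m, ∃ hm : n ≤ m, (tw m).G.Parallel (X := (X : (tw m).Obj))
      (twSys.tr hm f : (tw m).Hom (T1 i) X) (twSys.tr hm g : (tw m).Hom (T1 i) X) := by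
  cases i with
  | zero => exact ⟨n, le_refl n, trivial⟩
  | succ i =>
    obtain ⟨h1, h2⟩ := h
    have h1' : tcl n ((tw n).comp ((tw n).σ i) f) = tcl n ((tw n).comp ((tw n).σ i) g) := by
      rw [tcl_comp, tcl_comp, tcl_σ]; exact h1
    have h2' : tcl n ((tw n).comp ((tw n).τ i) f) = tcl n ((tw n).comp ((tw n).τ i) g) := by
      rw [tcl_comp, tcl_comp, tcl_τ]; exact h2
    obtain ⟨m, hm, e⟩ := tcl_eq h1'
    obtain ⟨m', hm', e'⟩ := tcl_eq h2'
    have key : ∀ {m : ℕ} (hm : n ≤ m) {k : ℕ} (hk : m ≤ k) (s : (tw n).Hom (T1 i) (T1 (i + 1)))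
        (s' : (tw k).Hom (T1 i) (T1 (i + 1))) (_ : (twSys.tr (hm.trans hk) s : (tw k).Hom _ _) = s')
        (_ : (twSys.tr hm ((tw n).comp s f) : (tw m).Hom _ _) =
          twSys.tr hm ((tw n).comp s g)),
        (tw k).comp s' (twSys.tr (hm.trans hk) f) = (tw k).comp s' (twSys.tr (hm.trans hk) g) := by
      intro m hm k hk s s' hs e
      have h4 : ∀ f : (tw n).Hom (T1 (i + 1)) X,
          (twSys.tr (hm.trans hk) ((tw n).comp s f) : (tw k).Hom _ _) =
            (tw k).comp s' (twSys.tr (hm.trans hk) f) := fun f =>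
        (tr_comp' _ _ _).trans (congrArg (fun z => (tw k).comp z (twSys.tr (hm.trans hk) f)) hs)
      have h5 : (twSys.tr (hm.trans hk) ((tw n).comp s f) : (tw k).Hom _ _) =
          twSys.tr (hm.trans hk) ((tw n).comp s g) :=
        (tr_tr' hm hk _).symm.trans
          ((congrArg (fun z => (twSys.tr hk z : (tw k).Hom _ _)) e).trans (tr_tr' hm hk _))
      exact (h4 f).symm.trans (h5.trans (h4 g))
    exact ⟨max m m', hm.trans (le_max_left _ _), key hm (le_max_left _ _) _ _ (tr_σ' _ i) e,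
      key hm' (le_max_right _ _) _ _ (tr_τ' _ i) e'⟩

theorem tinf_lift (p : ParPair tinf.G) : ∃ h, tinf.G.IsLifting p.f p.g h := by
  obtain ⟨i, X, f, g, hp⟩ := p
  obtain ⟨n, f', g', hf, hg⟩ := tcl_surj₂ (S := T1 i) (T := X) f g
  subst hf hg
  obtain ⟨m, hm, hpar⟩ := exists_par f' g' hp
  let q : ParPair (tw m).G := ⟨i, X, twSys.tr hm f', twSys.tr hm g', hpar⟩
  have hs := new_src (tw m) (fun p => p) q
  have ht := new_tgt (tw m) (fun p => p) q
  refine ⟨tcl (m + 1) (new (tw m) (fun p => p) q), ?_, ?_⟩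
  · have h1 := congrArg (tcl (m + 1)) hs
    have h2 := tcl_comp (m + 1) ((tw (m + 1)).σ i) (new (tw m) (fun p => p) q)
    have h3 := tcl_σ (m + 1) i
    exact (congrArg (fun z => tinf.comp z (tcl (m + 1) (new (tw m) (fun p => p) q))) h3.symm).trans
      (h2.symm.trans (h1.trans ((tcl_ι m (twSys.tr hm f')).trans (tcl_tr hm f'))))
  · have h1 := congrArg (tcl (m + 1)) ht
    have h2 := tcl_comp (m + 1) ((tw (m + 1)).τ i) (new (tw m) (fun p => p) q)
    have h3 := tcl_τ (m + 1) i
    exact (congrArg (fun z => tinf.comp z (tcl (m + 1) (new (tw m) (fun p => p) q))) h3.symm).trans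
      (h2.symm.trans (h1.trans ((tcl_ι m (twSys.tr hm g')).trans (tcl_tr hm g'))))

/-- The canonical coherator. -/
theorem isCoherator_tinf : IsCoherator tinf.G :=
  ⟨tinf.isExtension, tinf_lift, twTower, jn, jγ, twTower_colimit⟩

end Pool.Agent.W_MP_0394fb_al
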