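import Pool.Agent.W_MP_0394fb_al.BZ

set_option autoImplicit false

open CategoryTheory Opposite

namespace Pool.Agent.W_MP_0394fb_al

/-- The set of propositions with the trivial topology. -/
def IndProp : Type := Prop

instance : TopologicalSpace IndProp := ⊤

/-- A universal cocone of spaces is jointly surjective. -/
lemma jointly_surjective {H : Coglob TopCat.{0}} {T : Table} {X : TopCat.{0}} (c : H.Cocone T X)
    (hc : c.IsSum) (x : X) : ∃ (k : Fin (T.len + 1)) (y : H.D (T.top k)), c.inj k y = x := by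
  classical
  let Y : TopCat.{0} := TopCat.of IndProp
  let mk : ∀ (Z : TopCat.{0}) (f : Z → IndProp), (Z ⟶ Y) := fun Z f =>
    TopCat.ofHom ⟨f, continuous_top⟩
  let f1 : X ⟶ Y := mk X (fun _ => True)
  let f2 : X ⟶ Y := mk X
    (fun x => ∃ (k : Fin (T.len + 1)) (y : H.D (T.top k)), c.inj k y = x)
  let d : H.Cocone T Y :=
    { inj := fun k => mk _ (fun _ => True)
      glue := fun k => rfl }
  obtain ⟨f, -, hu⟩ := hc Y d
  have h1 : f1 = f := hu f1 (fun k => rfl)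
  have h2 : f2 = f := hu f2 (fun k => by
    apply TopCat.hom_ext
    apply ContinuousMap.ext
    intro y
    change (∃ (k' : Fin (T.len + 1)) (y' : H.D (T.top k')), c.inj k' y' = c.inj k y) = True
    exact eq_true ⟨k, y, rfl⟩)
  have h3 : f2 x = f1 x := by rw [h1, h2]
  have h4 : (∃ (k : Fin (T.len + 1)) (y : H.D (T.top k)), c.inj k y = x) = True := h3
  exact of_eq_true h4

section

variable {C : Type} [Category.{0} C] {G : Coglob C}

lemma F_jointly_surjective (F : Mor G disks) {T : Table} {Y : C} (c : G.Cocone T Y)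
    (hc : c.IsSum) (x : F.K.obj Y) :
    ∃ (k : Fin (T.len + 1)) (y : F.K.obj (G.D (T.top k))), F.K.map (c.inj k) y = x := by
  obtain ⟨k, y, hy⟩ := jointly_surjective _ (F.pres T Y c hc) x
  exact ⟨k, (F.e (T.top k)).inv y, hy⟩

/-- the table of two arrows glued along a point -/
def T2 : Table where
  len := 1
  top := fun _ => 1
  mid := fun _ => 0
  hl := fun _ => Nat.zero_lt_one
  hr := fun _ => Nat.zero_lt_one

lemma sIter_zero_one {E : Type*} [Category* E] (H : Coglob E) (h : 0 ≤ 1) :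
    H.sIter h = H.σ 0 := by
  rw [Coglob.sIter_succ H (le_refl 0), Coglob.sIter_refl, Category.id_comp]

lemma tIter_zero_one {E : Type*} [Category* E] (H : Coglob E) (h : 0 ≤ 1) :
    H.tIter h = H.τ 0 := by
  rw [Coglob.tIter_succ H (le_refl 0), Coglob.tIter_refl, Category.id_comp]

lemma Coc.comap_comp' {A B D : Type} (f : A ⟶ B) (g : B ⟶ D) (c : Coc D) :
    c.comap (f ≫ g) = (c.comap g).comap f := rfl

lemma Coc.comap_id' {A : Type} (c : Coc A) : c.comap (𝟙 A : A ⟶ A) = c := rfl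

variable (V : Mor G setGlob)

lemma map_map_apply {X Y Z : C} (f : X ⟶ Y) (g : Y ⟶ Z) (x : V.K.obj X) :
    V.K.map g (V.K.map f x) = V.K.map (f ≫ g) x := by
  rw [Functor.map_comp]; rfl

/-- `V (D 0)` is a singleton. -/
lemma V_D0_subsingleton (x y : V.K.obj (G.D 0)) : x = y := by
  have h : (V.e 0).hom x = (V.e 0).hom y := Subsingleton.elim (α := PUnit) _ _
  have := congrArg (V.e 0).inv h
  simpa using this

/-- the vertex of `V (D 0)` -/
def v0 : V.K.obj (G.D 0) := (V.e 0).inv PUnit.unit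

lemma V_D1_cases (x : V.K.obj (G.D 1)) :
    x = V.K.map (G.σ 0) (v0 V) ∨ x = V.K.map (G.τ 0) (v0 V) := by
  have h1 : (V.e 1).hom (V.K.map (G.σ 0) (v0 V)) = (false : Bool) := by
    have := ConcreteCategory.congr_hom (V.eσ 0) (v0 V)
    exact this
  have h2 : (V.e 1).hom (V.K.map (G.τ 0) (v0 V)) = (true : Bool) := by
    have := ConcreteCategory.congr_hom (V.eτ 0) (v0 V)
    exact this
  have inj : ∀ y, (V.e 1).hom x = (V.e 1).hom y → x = y := by
    intro y hy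
    have := congrArg (V.e 1).inv hy
    simpa using this
  have key : ∀ b : Bool, (V.e 1).hom x = b → x = V.K.map (G.σ 0) (v0 V) ∨
      x = V.K.map (G.τ 0) (v0 V) := by
    intro b hb
    cases b with
    | false => left; exact inj _ (hb.trans h1.symm)
    | true => right; exact inj _ (hb.trans h2.symm)
  exact key _ rfl

lemma Coc_D0_eq (c d : Coc (V.K.obj (G.D 0))) : c = d := by
  apply Coc.ext
  intro x y
  rw [V_D0_subsingleton V x y, c.self, d.self]

lemma Coc_D1_ext {c d : Coc (V.K.obj (G.D 1))}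
    (h : c.1 (V.K.map (G.σ 0) (v0 V)) (V.K.map (G.τ 0) (v0 V)) =
      d.1 (V.K.map (G.σ 0) (v0 V)) (V.K.map (G.τ 0) (v0 V))) : c = d := by
  apply Coc.ext
  intro x y
  rcases V_D1_cases V x with rfl | rfl <;> rcases V_D1_cases V y with rfl | rfl
  · rw [c.self, d.self]
  · exact h
  · rw [c.symm, d.symm, h]
  · rw [c.self, d.self]

/-- the zero cocycle -/
def Coc.zero (A : Type) : Coc A := ⟨fun _ _ => 0, fun _ _ _ => rfl⟩

/-- The properties of the globular sum of two arrows which we need. -/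
structure Comp2 (G : Coglob C) where
  X : C
  i0 : G.D 1 ⟶ X
  i1 : G.D 1 ⟶ X
  glue : G.σ 0 ≫ i0 = G.τ 0 ≫ i1
  pair : ∀ P : Cᵒᵖ ⥤ Type, IsGpd G P → ∀ a b : P.obj (op (G.D 1)),
    P.map (G.σ 0).op a = P.map (G.τ 0).op b →
    ∃! e : P.obj (op X), P.map i0.op e = a ∧ P.map i1.op e = b
  surj : ∀ (F : Mor G disks) (x : F.K.obj X),
    (∃ y : F.K.obj (G.D 1), F.K.map i0 y = x) ∨ (∃ y : F.K.obj (G.D 1), F.K.map i1 y = x)

lemma exists_comp2 (hG : G.IsExtension) : Nonempty (Comp2 G) := by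
  obtain ⟨X, c, hc⟩ := hG T2
  have hglue : G.σ 0 ≫ (c.inj 0 : G.D 1 ⟶ X) = G.τ 0 ≫ (c.inj 1 : G.D 1 ⟶ X) := by
    have h1 := c.glue ⟨0, Nat.zero_lt_one⟩
    have h2 : G.sIter (T2.hl ⟨0, Nat.zero_lt_one⟩).le = G.σ 0 := sIter_zero_one G _
    have h3 : G.tIter (T2.hr ⟨0, Nat.zero_lt_one⟩).le = G.τ 0 := tIter_zero_one G _
    rw [h2, h3] at h1
    exact h1
  refine ⟨⟨X, c.inj 0, c.inj 1, hglue, ?_, ?_⟩⟩
  · intro P hP a b hab
    let fam : ∀ k : Fin (T2.len + 1), P.obj (op (G.D (T2.top k))) :=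
      fun k => if k = 0 then a else b
    obtain ⟨e, he, hu⟩ := hP T2 X c hc fam (fun k => by
      have hk : k = ⟨0, Nat.zero_lt_one⟩ := Subsingleton.elim (α := Fin 1) _ _
      subst hk
      have h2 : G.sIter (T2.hl ⟨0, Nat.zero_lt_one⟩).le = G.σ 0 := sIter_zero_one G _
      have h3 : G.tIter (T2.hr ⟨0, Nat.zero_lt_one⟩).le = G.τ 0 := tIter_zero_one G _
      rw [h2, h3]
      exact hab)
    refine ⟨e, ⟨he 0, he 1⟩, fun e' he' => hu e' fun k => ?_⟩
    have hk : (k : Fin 2) = 0 ∨ (k : Fin 2) = 1 := by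
      have : ∀ k : Fin 2, k = 0 ∨ k = 1 := by decide
      exact this k
    rcases hk with h | h
    · subst h; exact he'.1
    · subst h; exact he'.2
  · intro F x
    obtain ⟨k, y, hy⟩ := F_jointly_surjective F c hc x
    have hk : (k : Fin 2) = 0 ∨ (k : Fin 2) = 1 := by
      have : ∀ k : Fin 2, k = 0 ∨ k = 1 := by decide
      exact this k
    rcases hk with h | h
    · subst h; exact Or.inl ⟨y, hy⟩
    · subst h; exact Or.inr ⟨y, hy⟩

/-- Composition of arrows in `BZ`: any two elements glue to an element over the sum of two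
arrows, whose composite is the sum. -/
lemma exists_glue (W : Comp2 G)
    (nab : G.D 1 ⟶ W.X) (hs : G.σ 0 ≫ nab = G.σ 0 ≫ W.i1)
    (ht : G.τ 0 ≫ nab = G.τ 0 ≫ W.i0) (a b : Coc (V.K.obj (G.D 1))) :
    ∃ e : Coc (V.K.obj W.X), e.comap (V.K.map W.i0) = a ∧
      e.comap (V.K.map W.i1) = b ∧
      ∀ d : Coc (V.K.obj (G.D 1)), (d.1 (V.K.map (G.σ 0) (v0 V)) (V.K.map (G.τ 0) (v0 V)) =
        a.1 (V.K.map (G.σ 0) (v0 V)) (V.K.map (G.τ 0) (v0 V)) +
        b.1 (V.K.map (G.σ 0) (v0 V)) (V.K.map (G.τ 0) (v0 V))) →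
        e.comap (V.K.map nab) = d := by
  obtain ⟨e', ⟨he0', he1'⟩, -⟩ := W.pair _ (isGpd_bz V) a b (Coc_D0_eq V _ _)
  let e : Coc (V.K.obj W.X) := e'
  have he0 : e.comap (V.K.map W.i0) = a := he0'
  have he1 : e.comap (V.K.map W.i1) = b := he1'
  refine ⟨e, he0, he1, fun d hd => ?_⟩
  apply Coc_D1_ext
  have hg : V.K.map W.i0 (V.K.map (G.σ 0) (v0 V)) =
      V.K.map W.i1 (V.K.map (G.τ 0) (v0 V)) := by
    rw [map_map_apply, map_map_apply, W.glue]
  have hs' : V.K.map nab (V.K.map (G.σ 0) (v0 V)) =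
      V.K.map W.i1 (V.K.map (G.σ 0) (v0 V)) := by
    rw [map_map_apply, map_map_apply, hs]
  have ht' : V.K.map nab (V.K.map (G.τ 0) (v0 V)) =
      V.K.map W.i0 (V.K.map (G.τ 0) (v0 V)) := by
    rw [map_map_apply, map_map_apply, ht]
  rw [hd]
  change e.1 (V.K.map nab (V.K.map (G.σ 0) (v0 V))) (V.K.map nab (V.K.map (G.τ 0) (v0 V))) = _
  rw [hs', ht', ← he0, ← he1]
  change _ = e.1 (V.K.map W.i0 (V.K.map (G.σ 0) (v0 V)))
      (V.K.map W.i0 (V.K.map (G.τ 0) (v0 V))) +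
    e.1 (V.K.map W.i1 (V.K.map (G.σ 0) (v0 V)))
      (V.K.map W.i1 (V.K.map (G.τ 0) (v0 V)))
  rw [hg]
  have := e.2 (V.K.map W.i1 (V.K.map (G.σ 0) (v0 V)))
    (V.K.map W.i1 (V.K.map (G.τ 0) (v0 V))) (V.K.map W.i0 (V.K.map (G.τ 0) (v0 V)))
  omega

/-- `V (σ (i+1))` is an isomorphism. -/
lemma V_sigma_comp_kappa (i : ℕ) (κ : G.D (i + 2) ⟶ G.D (i + 1))
    (hκ : G.σ (i + 1) ≫ κ = 𝟙 _) : V.K.map κ ≫ V.K.map (G.σ (i + 1)) = 𝟙 _ := by
  have h1 : V.K.map (G.σ (i + 1)) ≫ (V.e (i + 2)).hom = (V.e (i + 1)).hom := V.eσ (i + 1)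
  have h2 : IsIso (V.K.map (G.σ (i + 1))) := by
    have : IsIso (V.K.map (G.σ (i + 1)) ≫ (V.e (i + 2)).hom) := by
      rw [h1]
      exact (V.e (i + 1)).isIso_hom
    exact IsIso.of_isIso_comp_right _ (V.e (i + 2)).hom
  have h3 : V.K.map (G.σ (i + 1)) ≫ V.K.map κ = 𝟙 _ := by
    rw [← V.K.map_comp, hκ, V.K.map_id]
  rw [← cancel_epi (V.K.map (G.σ (i + 1))), ← Category.assoc, h3, Category.id_comp,
    Category.comp_id]

variable (F : Mor G disks)

instance : Subsingleton (Disk 0) :=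
  ⟨fun x y => Subtype.ext (funext fun j => j.elim0)⟩

lemma F_D0_eq (x y : F.K.obj (G.D 0)) : x = y := by
  have h : (F.e 0).hom x = (F.e 0).hom y := Subsingleton.elim (α := Disk 0) _ _
  have := congrArg (F.e 0).inv h
  simpa using this

/-- the point of `F (D 0)` -/
noncomputable def f0 : F.K.obj (G.D 0) := (F.e 0).inv (⟨fun j => j.elim0, by simp⟩ : Disk 0)

/-- Evaluation of a morphism from `BZ` to `Π_∞ X`. -/
def ev {X : TopCat.{0}} (θ : bzPsh V ⟶ (sing F.K).obj X) (Y : C) (d : Coc (V.K.obj Y)) :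
    F.K.obj Y ⟶ X := θ.app (op Y) d

lemma ev_comap {X : TopCat.{0}} (θ : bzPsh V ⟶ (sing F.K).obj X) {Y Z : C} (f : Y ⟶ Z)
    (d : Coc (V.K.obj Z)) (y : F.K.obj Y) :
    ev V F θ Y (d.comap (V.K.map f)) y = ev V F θ Z d (F.K.map f y) := by
  have h : ev V F θ Y (d.comap (V.K.map f)) = F.K.map f ≫ ev V F θ Z d :=
    NatTrans.naturality_apply θ f.op d
  rw [h]; rfl

/-- **Collapse.** Every morphism of presheaves from `BZ` to `Π_∞ X` is constant. -/
theorem collapse (hG : G.IsExtension) (hl : ∀ p : ParPair G, ∃ h, G.IsLifting p.f p.g h)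
    (hobj : ∀ Y : C, ∃ (T : Table) (c : G.Cocone T Y), c.IsSum)
    {X : TopCat.{0}} (θ : bzPsh V ⟶ (sing F.K).obj X) :
    ∀ (Y : C) (d : Coc (V.K.obj Y)) (y : F.K.obj Y),
      ev V F θ Y d y = ev V F θ (G.D 0) (Coc.zero _) (f0 F) := by
  set p : X := ev V F θ (G.D 0) (Coc.zero _) (f0 F) with hp
  obtain ⟨W⟩ := exists_comp2 hG
  obtain ⟨nab, hns, hnt⟩ := hl ⟨0, W.X, G.σ 0 ≫ W.i1, G.τ 0 ≫ W.i0, trivial⟩
  obtain ⟨κ, hκs, -⟩ := hl ⟨0, G.D 0, 𝟙 _, 𝟙 _, trivial⟩
  -- dimension 0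
  have h0 : ∀ (d : Coc (V.K.obj (G.D 0))) (y : F.K.obj (G.D 0)), ev V F θ (G.D 0) d y = p := by
    intro d y
    rw [Coc_D0_eq V d (Coc.zero _), F_D0_eq F y (f0 F)]
  -- the zero cocycle on `D 1`
  have hz : ∀ y : F.K.obj (G.D 1), ev V F θ (G.D 1) (Coc.zero _) y = p := by
    intro y
    have := ev_comap V F θ (κ : G.D 1 ⟶ G.D 0) (Coc.zero _) y
    rw [h0] at this
    exact this
  -- dimension 1
  have h1 : ∀ (d : Coc (V.K.obj (G.D 1))) (y : F.K.obj (G.D 1)),
      ev V F θ (G.D 1) d y = p := by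
    intro d y
    rcases W.surj F (F.K.map nab y) with ⟨q, hq⟩ | ⟨q, hq⟩
    · obtain ⟨e, he0, he1, he⟩ := exists_glue V W nab hns hnt (Coc.zero _) d
      have h2 := he d (by simp [Coc.zero])
      rw [← h2]
      erw [ev_comap V F θ nab e y]
      rw [← hq]
      erw [← ev_comap V F θ W.i0 e q]
      rw [he0, hz]
    · obtain ⟨e, he0, he1, he⟩ := exists_glue V W nab hns hnt d (Coc.zero _)
      have h2 := he d (by simp [Coc.zero])
      rw [← h2]
      erw [ev_comap V F θ nab e y]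
      rw [← hq]
      erw [← ev_comap V F θ W.i1 e q]
      rw [he1, hz]
  -- higher dimension
  have h2 : ∀ (i : ℕ) (d : Coc (V.K.obj (G.D i))) (y : F.K.obj (G.D i)),
      ev V F θ (G.D i) d y = p := by
    intro i
    induction i with
    | zero => exact h0
    | succ i ih =>
      cases i with
      | zero => exact h1
      | succ i =>
        intro d y
        obtain ⟨k, hks, -⟩ := hl ⟨i + 1, G.D (i + 1), 𝟙 _, 𝟙 _, rfl, rfl⟩
        have h3 := V_sigma_comp_kappa V i k hks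
        have h4 : d = (d.comap (V.K.map (G.σ (i + 1)))).comap (V.K.map k) := by
          rw [← Coc.comap_comp', h3, Coc.comap_id']
        rw [h4]
        erw [ev_comap V F θ k _ y]
        exact ih _ _
  intro Y d y
  obtain ⟨T, c, hc⟩ := hobj Y
  obtain ⟨k, q, hq⟩ := F_jointly_surjective F c hc y
  rw [← hq, ← ev_comap, h2]

end

end Pool.Agent.W_MP_0394fb_al
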