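import Pool.Agent.W_MP_0394fb_al.TopDefs

set_option autoImplicit false

open CategoryTheory Opposite

namespace Pool.Agent.W_MP_0394fb_al

universe v u

/-- A category with colimits is a globular extension for every coglobular object. -/
lemma isExtension_of_hasColimits {E : Type u} [Category.{v} E] [Limits.HasColimitsOfSize.{0, 0} E]
    (H : Coglob E) : H.IsExtension := by
  intro T
  let J : Limits.MultispanShape.{0, 0} :=
    { L := Fin T.len, R := Fin (T.len + 1), fst := Fin.castSucc, snd := Fin.succ }
  let I : Limits.MultispanIndex J E :=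
    { left := fun k => H.D (T.mid k)
      right := fun k => H.D (T.top k)
      fst := fun k => H.sIter (T.hl k).le
      snd := fun k => H.tIter (T.hr k).le }
  refine ⟨Limits.multicoequalizer I,
    ⟨fun k => Limits.Multicoequalizer.π I k, fun k => Limits.Multicoequalizer.condition I k⟩, ?_⟩
  intro Y d
  refine ⟨Limits.Multicoequalizer.desc I Y d.inj d.glue, fun k => ?_, fun f hf => ?_⟩
  · exact Limits.Multicoequalizer.π_desc I Y d.inj d.glue k
  · apply Limits.Multicoequalizer.hom_ext I
    intro k
    rw [Limits.Multicoequalizer.π_desc]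
    exact hf k

/-- The globes of `setGlob`: a point in dimension 0, two points in higher dimension. -/
def setD : ℕ → Type
  | 0 => PUnit
  | _ + 1 => Bool

/-- the source maps -/
def setS : ∀ i, setD i → setD (i + 1)
  | 0 => fun _ => false
  | _ + 1 => id

/-- the target maps -/
def setT : ∀ i, setD i → setD (i + 1)
  | 0 => fun _ => true
  | _ + 1 => id

/-- The category of sets under the globe category, by the sets of vertices of the globes. -/
def setGlob : Coglob Type where
  D := setD
  σ i := ↾(setS i)
  τ i := ↾(setT i)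
  σσ _ := rfl
  ττ _ := rfl

lemma setGlob_lift {X : Type} {i : ℕ} (f g : setGlob.D i ⟶ X) (h : setGlob.Parallel f g) :
    ∃ l, setGlob.IsLifting f g l := by
  cases i with
  | zero =>
    refine ⟨↾(fun b : Bool => bif b then g PUnit.unit else f PUnit.unit), ?_, ?_⟩
    · ext x; rfl
    · ext x; rfl
  | succ i =>
    obtain ⟨h1, h2⟩ := h
    have hfg : f = g := by
      cases i with
      | zero =>
        ext b
        cases b
        · exact ConcreteCategory.congr_hom h1 PUnit.unit
        · exact ConcreteCategory.congr_hom h2 PUnit.unit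
      | succ i => exact h1
    subst hfg
    exact ⟨f, rfl, rfl⟩

/-- Images of parallel pairs are parallel. -/
lemma Parallel.img {C : Type*} [Category* C] {E : Type*} [Category* E] {G : Coglob C}
    {H : Coglob E} (M : Under G H) {i : ℕ} {X : C} {f g : G.D i ⟶ X} (h : G.Parallel f g) :
    H.Parallel (M.img f) (M.img g) := by
  cases i with
  | zero => trivial
  | succ i =>
    obtain ⟨h1, h2⟩ := h
    have hs := M.eσ i
    have ht := M.eτ i
    rw [← Iso.inv_comp_eq, ← Category.assoc, ← Iso.eq_comp_inv] at hs ht
    unfold Under.img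
    constructor
    · rw [← Category.assoc, ← hs, ← Category.assoc, ← hs, Category.assoc, Category.assoc,
        ← M.K.map_comp, ← M.K.map_comp, h1]
    · rw [← Category.assoc, ← ht, ← Category.assoc, ← ht, Category.assoc, Category.assoc,
        ← M.K.map_comp, ← M.K.map_comp, h2]

/-- Every coherator has a morphism to a globular extension with liftings of all parallel
pairs. -/
lemma IsCoherator.exists_mor {C : Type} [Category.{0} C] {G : Coglob C} (hG : IsCoherator G)
    (E : Type 1) [Category.{0} E] (H : Coglob E) (hH : H.IsExtension)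
    (hl : ∀ (i : ℕ) (X : E) (f g : H.D i ⟶ X), H.Parallel f g → ∃ l, H.IsLifting f g l) :
    Nonempty (Mor G H) := by
  obtain ⟨𝒯, j, γ, hcol⟩ := hG.tower
  have step : ∀ (n : ℕ) (M : Mor (𝒯.G n) H), ∃ (N : Mor (𝒯.G (n + 1)) H),
      Nonempty (Iso2 ((𝒯.ι n).comp N).toUnder M.toUnder) := by
    intro n M
    choose m hm using fun a : 𝒯.A n => hl _ _ (M.img (𝒯.p n a).f) (M.img (𝒯.p n a).g)
      (Parallel.img M.toUnder (𝒯.p n a).par)
    obtain ⟨N, α, -⟩ := ((𝒯.free n).2 E H hH).1 M m hm
    exact ⟨N, ⟨α⟩⟩
  choose next hnext using step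
  obtain ⟨M0⟩ := (𝒯.zero.2 E H hH).1
  let M : ∀ n, Mor (𝒯.G n) H := fun n => Nat.rec M0 (fun n M => next n M) n
  obtain ⟨N, -⟩ := (hcol E H hH).1 M (fun n => (hnext n (M n)).some)
  exact ⟨N⟩

lemma IsCoherator.exists_setMor {C : Type} [Category.{0} C] {G : Coglob C}
    (hG : IsCoherator G) : Nonempty (Mor G setGlob) :=
  hG.exists_mor Type setGlob (isExtension_of_hasColimits _) (fun _ _ f g h => setGlob_lift f g h)

end Pool.Agent.W_MP_0394fb_al
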