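import Pool.Agent.W_MP_0394fb_al.Objects
import Pool.Agent.W_MP_0394fb_al.SetModel

set_option autoImplicit false

open CategoryTheory Opposite

namespace Pool.Agent.W_MP_0394fb_al

/-! ## Contractibility of globular sums of disks -/

/-- convex combinations -/
def Disk.mix {i : ℕ} (x y : Disk i) (t : unitInterval) : Disk i :=
  ⟨fun j => (1 - (t : ℝ)) * x.1 j + t * y.1 j, by
    have hx := x.2
    have hy := y.2
    have h0 := t.2.1
    have h1 := t.2.2
    have key : ∀ j, ((1 - (t : ℝ)) * x.1 j + t * y.1 j) ^ 2 ≤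
        (1 - (t : ℝ)) * x.1 j ^ 2 + t * y.1 j ^ 2 := by
      intro j
      nlinarith [mul_nonneg (mul_nonneg h0 (sub_nonneg.2 h1)) (sq_nonneg (x.1 j - y.1 j))]
    calc ∑ j, ((1 - (t : ℝ)) * x.1 j + t * y.1 j) ^ 2
        ≤ ∑ j, ((1 - (t : ℝ)) * x.1 j ^ 2 + t * y.1 j ^ 2) := Finset.sum_le_sum fun j _ => key j
      _ = (1 - (t : ℝ)) * ∑ j, x.1 j ^ 2 + t * ∑ j, y.1 j ^ 2 := by
        rw [Finset.sum_add_distrib, Finset.mul_sum, Finset.mul_sum]
      _ ≤ (1 - (t : ℝ)) * 1 + t * 1 :=
        add_le_add (mul_le_mul_of_nonneg_left hx (sub_nonneg.2 h1))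
          (mul_le_mul_of_nonneg_left hy h0)
      _ = 1 := by ring⟩

lemma Disk.mix_self {i : ℕ} (x : Disk i) (t : unitInterval) : x.mix x t = x := by
  apply Subtype.ext; funext j; simp only [Disk.mix]; ring

lemma Disk.mix_zero {i : ℕ} (x y : Disk i) : x.mix y 0 = x := by
  apply Subtype.ext; funext j; simp [Disk.mix]

lemma Disk.mix_one {i : ℕ} (x y : Disk i) : x.mix y 1 = y := by
  apply Subtype.ext; funext j; simp [Disk.mix]

lemma Disk.continuous_mix {i : ℕ} {Z : Type*} [TopologicalSpace Z] {a b : Z → Disk i}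
    {t : Z → unitInterval} (ha : Continuous a) (hb : Continuous b) (ht : Continuous t) :
    Continuous (fun z => (a z).mix (b z) (t z)) := by
  refine Continuous.subtype_mk (continuous_pi fun j => ?_) _
  have h1 : Continuous fun z => ((t z : unitInterval) : ℝ) := continuous_subtype_val.comp ht
  exact ((continuous_const.sub h1).mul ((Disk.continuous_coord j).comp ha)).add
    (h1.mul ((Disk.continuous_coord j).comp hb))

/-- projection -/
def Disk.proj {i : ℕ} (x : Disk (i + 1)) : Disk i :=
  ⟨fun j => x.1 j.castSucc, by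
    have h := x.2
    rw [Fin.sum_univ_castSucc] at h
    nlinarith [sq_nonneg (x.1 (Fin.last i))]⟩

lemma Disk.continuous_proj {i : ℕ} : Continuous (Disk.proj (i := i)) :=
  Continuous.subtype_mk (continuous_pi fun j : Fin i => Disk.continuous_coord (Fin.castSucc j)) _

lemma Disk.proj_south {i : ℕ} (x : Disk i) : x.south.proj = x := by
  apply Subtype.ext; funext j; simp [Disk.proj, Disk.south]

lemma Disk.proj_north {i : ℕ} (x : Disk i) : x.north.proj = x := by
  apply Subtype.ext; funext j; simp [Disk.proj, Disk.north]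

/-- projection as a morphism -/
def projHom (i : ℕ) : disks.D (i + 1) ⟶ disks.D i :=
  TopCat.ofHom ⟨Disk.proj, Disk.continuous_proj⟩

lemma exists_ret {i j : ℕ} (h : i ≤ j) : ∃ ρ : disks.D j ⟶ disks.D i,
    disks.sIter h ≫ ρ = 𝟙 _ ∧ disks.tIter h ≫ ρ = 𝟙 _ := by
  induction j, h using Nat.le_induction with
  | base => exact ⟨𝟙 _, by rw [Coglob.sIter_refl, Category.comp_id],
      by rw [Coglob.tIter_refl, Category.comp_id]⟩
  | succ j h ih =>
    obtain ⟨ρ, h1, h2⟩ := ih
    have h3 : disks.σ j ≫ projHom j = 𝟙 _ :=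
      TopCat.hom_ext (ContinuousMap.ext fun x => Disk.proj_south x)
    have h4 : disks.τ j ≫ projHom j = 𝟙 _ :=
      TopCat.hom_ext (ContinuousMap.ext fun x => Disk.proj_north x)
    refine ⟨projHom j ≫ ρ, ?_, ?_⟩
    · rw [Coglob.sIter_succ _ h, Category.assoc, ← Category.assoc (disks.σ j), h3,
        Category.id_comp, h1]
    · rw [Coglob.tIter_succ _ h, Category.assoc, ← Category.assoc (disks.τ j), h4,
        Category.id_comp, h2]

lemma disks_isExtension : disks.IsExtension := isExtension_of_hasColimits _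

/-- the space of paths -/
abbrev PathSp (Y : TopCat.{0}) : TopCat.{0} := TopCat.of C(unitInterval, Y)

/-- evaluation -/
def evalAt (Y : TopCat.{0}) (t : unitInterval) : PathSp Y ⟶ Y :=
  TopCat.ofHom ⟨fun γ => γ t, continuous_eval_const t⟩

lemma homotopic_of_path {X Y : TopCat.{0}} (h : X ⟶ PathSp Y) :
    ContinuousMap.Homotopic (h ≫ evalAt Y 0).hom (h ≫ evalAt Y 1).hom :=
  ⟨{ toFun := fun p => (h.hom p.2 : C(unitInterval, Y)) p.1
     continuous_toFun := (h.hom.continuous.comp continuous_snd).eval continuous_fst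
     map_zero_left := fun _ => rfl
     map_one_left := fun _ => rfl }⟩

/-- constant paths -/
def constPath {X Y : TopCat.{0}} (f : X ⟶ Y) : X ⟶ PathSp Y :=
  TopCat.ofHom (ContinuousMap.curry ⟨fun p => f.hom p.1, f.hom.continuous.comp continuous_fst⟩)

/-- straight paths -/
noncomputable def mixPath {i : ℕ} {Y : TopCat.{0}} (f : disks.D i ⟶ Y) (g : disks.D i ⟶ disks.D i) :
    disks.D i ⟶ PathSp Y :=
  TopCat.ofHom (ContinuousMap.curry ⟨fun p : Disk i × unitInterval =>
    f.hom (Disk.mix p.1 (g.hom p.1) p.2),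
    f.hom.continuous.comp (Disk.continuous_mix continuous_fst
      (g.hom.continuous.comp continuous_fst) continuous_snd)⟩)

lemma constPath_eval {X Y : TopCat.{0}} (f : X ⟶ Y) (t : unitInterval) :
    constPath f ≫ evalAt Y t = f := rfl

lemma comp_constPath {X X' Y : TopCat.{0}} (g : X' ⟶ X) (f : X ⟶ Y) :
    g ≫ constPath f = constPath (g ≫ f) := rfl

lemma mixPath_zero {i : ℕ} {Y : TopCat.{0}} (f : disks.D i ⟶ Y)
    (g : disks.D i ⟶ disks.D i) : mixPath f g ≫ evalAt Y 0 = f :=
  TopCat.hom_ext (ContinuousMap.ext fun x =>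
    congrArg f.hom (Disk.mix_zero (x : Disk i) (g.hom x : Disk i)))

lemma mixPath_one {i : ℕ} {Y : TopCat.{0}} (f : disks.D i ⟶ Y)
    (g : disks.D i ⟶ disks.D i) : mixPath f g ≫ evalAt Y 1 = g ≫ f :=
  TopCat.hom_ext (ContinuousMap.ext fun x =>
    congrArg f.hom (Disk.mix_one (x : Disk i) (g.hom x : Disk i)))

lemma comp_mixPath {i : ℕ} {X Y : TopCat.{0}} (k : X ⟶ disks.D i) (f : disks.D i ⟶ Y)
    (g : disks.D i ⟶ disks.D i) (h : k ≫ g = k) : k ≫ mixPath f g = constPath (k ≫ f) := by
  apply TopCat.hom_ext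
  apply ContinuousMap.ext
  intro x
  apply ContinuousMap.ext
  intro t
  have h1 : g.hom (k.hom x) = k.hom x := ConcreteCategory.congr_hom h x
  have h2 : (Disk.mix (k.hom x) (g.hom (k.hom x)) t : Disk i) = k.hom x :=
    (congrArg (fun z => Disk.mix (k.hom x) z t) h1).trans (Disk.mix_self _ _)
  exact congrArg f.hom h2

lemma Disk.contractible (i : ℕ) : ContractibleSpace (Disk i) := by
  rw [contractible_iff_id_nullhomotopic]
  let p : Disk i := ⟨fun _ => 0, by simp⟩
  exact ⟨p, ⟨{
    toFun := fun q => Disk.mix q.2 p q.1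
    continuous_toFun := Disk.continuous_mix continuous_snd continuous_const continuous_fst
    map_zero_left := fun x => Disk.mix_zero _ _
    map_one_left := fun x => Disk.mix_one _ _ }⟩⟩

/-- Globular sums of disks are contractible. -/
theorem contractible_of_isSum : ∀ (len : ℕ) (top : Fin (len + 1) → ℕ) (mid : Fin len → ℕ)
    (hl : ∀ k, mid k < top k.castSucc) (hr : ∀ k, mid k < top k.succ) (Y : TopCat.{0})
    (c : disks.Cocone ⟨len, top, mid, hl, hr⟩ Y), c.IsSum → ContractibleSpace Y
  | 0, top, mid, hl, hr, Y, c, hc => by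
    let a : ∀ k : Fin 1, disks.D (top k) ⟶ disks.D (top 0) :=
      Fin.cases (𝟙 _) (fun k => k.elim0)
    have h1 : (⟨a, fun k => k.elim0⟩ :
        disks.Cocone ⟨0, top, mid, hl, hr⟩ (disks.D (top 0))).IsSum := by
      intro Y d
      refine ⟨d.inj 0, fun k => ?_, fun f hf => ?_⟩
      · have hk : k = 0 := Subsingleton.elim (α := Fin 1) _ _
        subst hk
        exact Category.id_comp _
      · have := hf 0
        exact (Category.id_comp f).symm.trans this
    obtain ⟨φ, -⟩ := exists_iso_of_isSum h1 hc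
    have : ContractibleSpace (disks.D (top 0)) := Disk.contractible (top 0)
    exact (TopCat.homeoOfIso φ).symm.contractibleSpace
  | n + 1, top, mid, hl, hr, Y, c, hc => by
    let T' : Table := ⟨n, fun k => top k.succ, fun k => mid k.succ, fun k => hl k.succ,
      fun k => hr k.succ⟩
    obtain ⟨Y', c', hc'⟩ := disks_isExtension T'
    have ih := contractible_of_isSum n _ _ _ _ Y' c' hc'
    -- inclusion
    obtain ⟨inc, hinc, -⟩ := hc' Y ⟨fun k => c.inj k.succ, fun k => c.glue k.succ⟩
    obtain ⟨ρ, hρs, hρt⟩ := exists_ret (hl 0).le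
    let s0 : disks.D (mid 0) ⟶ disks.D (top (Fin.castSucc 0)) := disks.sIter (hl 0).le
    let t0 : disks.D (mid 0) ⟶ disks.D (top (Fin.succ 0)) := disks.tIter (hr 0).le
    let c0 : disks.D (top (Fin.castSucc 0)) ⟶ Y := c.inj (Fin.castSucc 0)
    have hs0 : s0 ≫ (ρ ≫ s0) = s0 := by rw [← Category.assoc, hρs, Category.id_comp]
    -- retraction
    let a : ∀ k : Fin (n + 2), disks.D (top k) ⟶ Y' :=
      Fin.cases (ρ ≫ disks.tIter (hr 0).le ≫ c'.inj 0) (fun k => c'.inj k)
    have ha0 : a 0 = ρ ≫ disks.tIter (hr 0).le ≫ c'.inj 0 := rfl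
    have ha : ∀ k : Fin (n + 1), a k.succ = c'.inj k := fun k => rfl
    obtain ⟨r, hr', -⟩ := hc Y' ⟨a, by
      intro k
      refine Fin.cases ?_ (fun k => ?_) k
      · change disks.sIter (hl 0).le ≫ ρ ≫ disks.tIter (hr 0).le ≫ c'.inj 0 =
          disks.tIter (hr 0).le ≫ c'.inj 0
        rw [← Category.assoc, hρs, Category.id_comp]
      · exact c'.glue k⟩
    -- the homotopy
    let b : ∀ k : Fin (n + 2), disks.D (top k) ⟶ PathSp Y :=
      Fin.cases (mixPath (c.inj 0) (ρ ≫ disks.sIter (hl 0).le))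
        (fun k => constPath (c.inj k.succ))
    obtain ⟨h, hh, -⟩ := hc (PathSp Y) ⟨b, by
      intro k
      refine Fin.cases ?_ (fun k => ?_) k
      · exact (comp_mixPath s0 c0 (ρ ≫ s0) hs0).trans
          ((congrArg constPath (c.glue 0)).trans (comp_constPath t0 _).symm)
      · change disks.sIter (hl k.succ).le ≫ constPath (c.inj (Fin.succ k.castSucc)) =
          disks.tIter (hr k.succ).le ≫ constPath (c.inj k.succ.succ)
        rw [comp_constPath, comp_constPath]
        exact congrArg constPath (c.glue k.succ)⟩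
    have e0 : h ≫ evalAt Y 0 = 𝟙 Y := by
      apply hc.hom_ext
      intro k
      rw [← Category.assoc, hh k, Category.comp_id]
      refine Fin.cases ?_ (fun k => ?_) k
      · exact mixPath_zero _ _
      · rfl
    have e1 : h ≫ evalAt Y 1 = r ≫ inc := by
      apply hc.hom_ext
      intro k
      rw [← Category.assoc, hh k, ← Category.assoc, hr' k]
      refine Fin.cases ?_ (fun k => ?_) k
      · have h1 : s0 ≫ c0 = t0 ≫ c.inj (Fin.succ 0) := c.glue 0
        have h2 := hinc 0
        exact (mixPath_one c0 (ρ ≫ s0)).trans ((Category.assoc ρ s0 c0).trans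
          ((congrArg (fun z => ρ ≫ z) (h1.trans (congrArg (fun z => t0 ≫ z) h2.symm))).trans
            ((Category.assoc ρ (t0 ≫ c'.inj 0) inc).trans
              (congrArg (fun z => ρ ≫ z) (Category.assoc t0 (c'.inj 0) inc))).symm))
      · exact (hinc k).symm
    have h2 := homotopic_of_path h
    rw [e0, e1] at h2
    rw [contractible_iff_id_nullhomotopic] at ih ⊢
    obtain ⟨y0, hy0⟩ := ih
    refine ⟨inc.hom y0, h2.trans ?_⟩
    have h3 : ContinuousMap.Homotopic (inc.hom.comp (ContinuousMap.id Y'))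
        (inc.hom.comp (ContinuousMap.const Y' y0)) :=
      ContinuousMap.Homotopic.comp (ContinuousMap.Homotopic.refl inc.hom) hy0
    have h4 : ContinuousMap.Homotopic ((inc.hom.comp (ContinuousMap.id Y')).comp r.hom)
        ((inc.hom.comp (ContinuousMap.const Y' y0)).comp r.hom) :=
      ContinuousMap.Homotopic.comp h3 (ContinuousMap.Homotopic.refl r.hom)
    exact h4

end Pool.Agent.W_MP_0394fb_al
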