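import Mathlib

set_option autoImplicit false

open CategoryTheory Opposite

namespace Pool.Agent.W_MP_0394fb_al

universe v u v' u' v'' u''

/-! ## Categories under the globe category, globular sums, globular extensions -/

/-- A category under the globe category: since the globe category is given by generators and
relations, a functor from it to `C` is the same thing as objects `D i` and arrows
`σ i, τ i : D i ⟶ D (i+1)` satisfying the coglobular relations. -/
structure Coglob (C : Type u) [Category.{v} C] where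
  D : ℕ → C
  σ : ∀ i, D i ⟶ D (i + 1)
  τ : ∀ i, D i ⟶ D (i + 1)
  σσ : ∀ i, σ i ≫ σ (i + 1) = σ i ≫ τ (i + 1)
  ττ : ∀ i, τ i ≫ σ (i + 1) = τ i ≫ τ (i + 1)

/-- A table of dimensions `i_1, i'_1, i_2, ..., i'_{m-1}, i_m` with `i'_k < i_k, i_{k+1}`;
here `m = len + 1`, the `top k` are the `i_k` and the `mid k` are the `i'_k`. -/
structure Table where
  len : ℕ
  top : Fin (len + 1) → ℕ
  mid : Fin len → ℕ
  hl : ∀ k, mid k < top k.castSucc
  hr : ∀ k, mid k < top k.succ

namespace Coglob

variable {C : Type u} [Category.{v} C]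

/-- The iterated source map `D i ⟶ D j`. -/
def sIter (G : Coglob C) {i j : ℕ} (h : i ≤ j) : G.D i ⟶ G.D j :=
  Nat.leRec (motive := fun j _ => G.D i ⟶ G.D j) (𝟙 (G.D i)) (fun j _ f => f ≫ G.σ j) h

/-- The iterated target map `D i ⟶ D j`. -/
def tIter (G : Coglob C) {i j : ℕ} (h : i ≤ j) : G.D i ⟶ G.D j :=
  Nat.leRec (motive := fun j _ => G.D i ⟶ G.D j) (𝟙 (G.D i)) (fun j _ f => f ≫ G.τ j) h

/-- A cocone with vertex `X` on the gluing diagram given by the table `T` (iterated source maps
into the left factor, iterated target maps into the right factor). -/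
structure Cocone (G : Coglob C) (T : Table) (X : C) where
  inj : ∀ k : Fin (T.len + 1), G.D (T.top k) ⟶ X
  glue : ∀ k : Fin T.len,
    G.sIter (T.hl k).le ≫ inj k.castSucc = G.tIter (T.hr k).le ≫ inj k.succ

/-- The cocone is universal, i.e. it exhibits `X` as the globular sum of the table `T`. -/
def Cocone.IsSum {G : Coglob C} {T : Table} {X : C} (c : G.Cocone T X) : Prop :=
  ∀ (Y : C) (d : G.Cocone T Y), ∃! f : X ⟶ Y, ∀ k, c.inj k ≫ f = d.inj k

/-- Globular extensions: all globular sums exist. -/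
def IsExtension (G : Coglob C) : Prop :=
  ∀ T : Table, ∃ (X : C) (c : G.Cocone T X), c.IsSum

lemma sIter_refl (G : Coglob C) (i : ℕ) : G.sIter (le_refl i) = 𝟙 _ := by
  unfold sIter; rw [Nat.leRec_self]

lemma tIter_refl (G : Coglob C) (i : ℕ) : G.tIter (le_refl i) = 𝟙 _ := by
  unfold tIter; rw [Nat.leRec_self]

lemma sIter_succ (G : Coglob C) {i j : ℕ} (h : i ≤ j) (h' : i ≤ j + 1) :
    G.sIter h' = G.sIter h ≫ G.σ j := by
  unfold sIter; rw [Nat.leRec_succ]

lemma tIter_succ (G : Coglob C) {i j : ℕ} (h : i ≤ j) (h' : i ≤ j + 1) :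
    G.tIter h' = G.tIter h ≫ G.τ j := by
  unfold tIter; rw [Nat.leRec_succ]

end Coglob

section

variable {C : Type u} [Category.{v} C] {E : Type u'} [Category.{v'} E]
  {E' : Type u''} [Category.{v''} E']

/-- Functors under the globe category (up to a given isomorphism). -/
structure Under (G : Coglob C) (H : Coglob E) where
  K : C ⥤ E
  e : ∀ i, K.obj (G.D i) ≅ H.D i
  eσ : ∀ i, K.map (G.σ i) ≫ (e (i + 1)).hom = (e i).hom ≫ H.σ i
  eτ : ∀ i, K.map (G.τ i) ≫ (e (i + 1)).hom = (e i).hom ≫ H.τ i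

lemma Under.e_sIter {G : Coglob C} {H : Coglob E} (M : Under G H) {i j : ℕ} (h : i ≤ j) :
    M.K.map (G.sIter h) ≫ (M.e j).hom = (M.e i).hom ≫ H.sIter h := by
  induction j, h using Nat.le_induction with
  | base => simp [Coglob.sIter_refl]
  | succ j h ih =>
    rw [Coglob.sIter_succ _ h, Coglob.sIter_succ _ h, M.K.map_comp, Category.assoc, M.eσ,
      ← Category.assoc, ih, Category.assoc]

lemma Under.e_tIter {G : Coglob C} {H : Coglob E} (M : Under G H) {i j : ℕ} (h : i ≤ j) :
    M.K.map (G.tIter h) ≫ (M.e j).hom = (M.e i).hom ≫ H.tIter h := by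
  induction j, h using Nat.le_induction with
  | base => simp [Coglob.tIter_refl]
  | succ j h ih =>
    rw [Coglob.tIter_succ _ h, Coglob.tIter_succ _ h, M.K.map_comp, Category.assoc, M.eτ,
      ← Category.assoc, ih, Category.assoc]

/-- The image of a cocone by a functor under the globe category. -/
def Under.push {G : Coglob C} {H : Coglob E} (M : Under G H) {T : Table} {X : C}
    (c : G.Cocone T X) : H.Cocone T (M.K.obj X) where
  inj k := (M.e (T.top k)).inv ≫ M.K.map (c.inj k)
  glue k := by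
    have h1 := M.e_sIter (T.hl k).le
    have h2 := M.e_tIter (T.hr k).le
    rw [← Iso.inv_comp_eq, ← Category.assoc, ← Iso.eq_comp_inv] at h1 h2
    rw [← Category.assoc, ← h1, ← Category.assoc, ← h2, Category.assoc, Category.assoc,
      ← M.K.map_comp, ← M.K.map_comp, c.glue k]

/-- Morphisms of globular extensions: functors under the globe category which preserve
globular sums. -/
structure Mor (G : Coglob C) (H : Coglob E) extends Under G H where
  pres : ∀ (T : Table) (X : C) (c : G.Cocone T X), c.IsSum → (toUnder.push c).IsSum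

/-- Composition of functors under the globe category. -/
def Under.comp {G : Coglob C} {H : Coglob E} {H' : Coglob E'} (M : Under G H) (N : Under H H') :
    Under G H' where
  K := M.K ⋙ N.K
  e i := N.K.mapIso (M.e i) ≪≫ N.e i
  eσ i := by
    have := N.eσ i
    simp only [Functor.comp_map, Iso.trans_hom, Functor.mapIso_hom, ← Category.assoc,
      ← N.K.map_comp, M.eσ]
    rw [N.K.map_comp, Category.assoc, this, Category.assoc]
  eτ i := by
    have := N.eτ i
    simp only [Functor.comp_map, Iso.trans_hom, Functor.mapIso_hom, ← Category.assoc,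
      ← N.K.map_comp, M.eτ]
    rw [N.K.map_comp, Category.assoc, this, Category.assoc]

lemma Under.push_comp {G : Coglob C} {H : Coglob E} {H' : Coglob E'} (M : Under G H)
    (N : Under H H') {T : Table} {X : C} (c : G.Cocone T X) :
    (M.comp N).push c = N.push (M.push c) := by
  unfold Under.push Under.comp
  congr 1
  funext k
  simp

/-- Composition of morphisms of globular extensions. -/
def Mor.comp {G : Coglob C} {H : Coglob E} {H' : Coglob E'} (M : Mor G H) (N : Mor H H') :
    Mor G H' where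
  toUnder := M.toUnder.comp N.toUnder
  pres T X c hc := by
    rw [Under.push_comp]
    exact N.pres _ _ _ (M.pres _ _ _ hc)

/-- Isomorphisms of functors under the globe category. -/
structure Iso2 {G : Coglob C} {H : Coglob E} (M N : Under G H) where
  θ : M.K ≅ N.K
  w : ∀ i, θ.hom.app (G.D i) ≫ (N.e i).hom = (M.e i).hom

/-- The component at `X` of an isomorphism of functors under the globe category. -/
abbrev Iso2.app {G : Coglob C} {H : Coglob E} {M N : Under G H} (α : Iso2 M N) (X : C) :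
    M.K.obj X ⟶ N.K.obj X :=
  α.θ.hom.app X

/-- The image of an arrow out of a globe by a functor under the globe category. -/
def Under.img {G : Coglob C} {H : Coglob E} (M : Under G H) {i : ℕ} {X : C} (a : G.D i ⟶ X) :
    H.D i ⟶ M.K.obj X :=
  (M.e i).inv ≫ M.K.map a

/-- Parallel pairs of arrows out of a globe. -/
def Coglob.Parallel (G : Coglob C) {X : C} : ∀ {i : ℕ}, (G.D i ⟶ X) → (G.D i ⟶ X) → Prop
  | 0, _, _ => True
  | i + 1, f, g => G.σ i ≫ f = G.σ i ≫ g ∧ G.τ i ≫ f = G.τ i ≫ g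

/-- `h` is a lifting of the pair `(f, g)`. -/
def Coglob.IsLifting (G : Coglob C) {X : C} {i : ℕ} (f g : G.D i ⟶ X) (h : G.D (i + 1) ⟶ X) :
    Prop :=
  G.σ i ≫ h = f ∧ G.τ i ≫ h = g

/-- A parallel pair in a category under the globe category. -/
structure ParPair (G : Coglob C) where
  i : ℕ
  X : C
  f : G.D i ⟶ X
  g : G.D i ⟶ X
  par : G.Parallel f g

end

/-! ## The universal globular extension, free adjunction of liftings, coherators -/

/-- `G` is (a model of) the universal globular extension `Θ_0`: it is a globular extension,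
and for every globular extension `H` there is a morphism of globular extensions from `G` to `H`,
unique up to a unique isomorphism. -/
def IsTheta0 {C : Type} [Category.{0} C] (G : Coglob C) : Prop :=
  G.IsExtension ∧
  ∀ (E : Type 1) [Category.{0} E] (H : Coglob E), H.IsExtension →
    Nonempty (Mor G H) ∧ ∀ M N : Mor G H, Nonempty (Unique (Iso2 M.toUnder N.toUnder))

/-- Existence part of the universal property of the adjunction of liftings, for `H`. -/
def FreeExists {C C' : Type} [Category.{0} C] [Category.{0} C'] {G : Coglob C}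
    {G' : Coglob C'} (ι : Mor G G') {A : Type} (p : A → ParPair G)
    (l : ∀ a, G'.D ((p a).i + 1) ⟶ ι.K.obj (p a).X) {E : Type 1} [Category.{0} E]
    (H : Coglob E) : Prop :=
  ∀ (M : Mor G H) (m : ∀ a, H.D ((p a).i + 1) ⟶ M.K.obj (p a).X),
    (∀ a, H.IsLifting (M.img (p a).f) (M.img (p a).g) (m a)) →
    ∃ (N : Mor G' H) (α : Iso2 (ι.comp N).toUnder M.toUnder),
      ∀ a, N.img (l a) ≫ α.app (p a).X = m a

/-- Uniqueness part of the universal property of the adjunction of liftings, for `H`. -/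
def FreeUnique {C C' : Type} [Category.{0} C] [Category.{0} C'] {G : Coglob C}
    {G' : Coglob C'} (ι : Mor G G') {A : Type} (p : A → ParPair G)
    (l : ∀ a, G'.D ((p a).i + 1) ⟶ ι.K.obj (p a).X) {E : Type 1} [Category.{0} E]
    (H : Coglob E) : Prop :=
  ∀ (N N' : Mor G' H) (β : Iso2 (ι.comp N).toUnder (ι.comp N').toUnder),
    (∀ a, N.img (l a) ≫ β.app (p a).X = N'.img (l a)) →
    ∃! γ : Iso2 N.toUnder N'.toUnder,
      ∀ X, γ.app (ι.K.obj X) = β.app X

/-- The morphism `ι` from `G` to `G'` universally adjoins the liftings `l a` of the (images of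
the) parallel pairs `p a`: up to isomorphism, giving a morphism from `G'` to a globular extension
`H` is the same as giving a morphism `M` from `G` to `H` together with liftings of the images
by `M` of the pairs `p a`. -/
def IsFreeAdjunction {C C' : Type} [Category.{0} C] [Category.{0} C'] {G : Coglob C}
    {G' : Coglob C'} (ι : Mor G G') {A : Type} (p : A → ParPair G)
    (l : ∀ a, G'.D ((p a).i + 1) ⟶ ι.K.obj (p a).X) : Prop :=
  (∀ a, G'.IsLifting (ι.img (p a).f) (ι.img (p a).g) (l a)) ∧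
  ∀ (E : Type 1) [Category.{0} E] (H : Coglob E), H.IsExtension →
    FreeExists ι p l H ∧ FreeUnique ι p l H

/-- A tower of small globular extensions starting with `Θ_0`, each one being obtained from the
previous one by universally adjoining liftings of some family of parallel pairs. -/
structure Tower where
  C : ℕ → Type
  cat : ∀ n, Category.{0} (C n)
  G : ∀ n, @Coglob (C n) (cat n)
  ext : ∀ n, (G n).IsExtension
  zero : IsTheta0 (G 0)
  ι : ∀ n, Mor (G n) (G (n + 1))
  A : ℕ → Type
  p : ∀ n, A n → ParPair (G n)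
  l : ∀ n (a : A n), (G (n + 1)).D ((p n a).i + 1) ⟶ (ι n).K.obj (p n a).X
  free : ∀ n, IsFreeAdjunction (ι n) (p n) (l n)

attribute [instance] Tower.cat

section

variable {C₀ C₁ C : Type} [Category.{0} C₀] [Category.{0} C₁] [Category.{0} C]
  {G₀ : Coglob C₀} {G₁ : Coglob C₁} {G : Coglob C} {E : Type 1} [Category.{0} E] {H : Coglob E}

/-- The isomorphisms `β₀` and `β₁` are compatible with `γ` and `α`. -/
def Compat (ι : Mor G₀ G₁) (j₀ : Mor G₀ G) (j₁ : Mor G₁ G)
    (γ : Iso2 (ι.comp j₁).toUnder j₀.toUnder) (N : Mor G H) (M₀ : Mor G₀ H) (M₁ : Mor G₁ H)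
    (α : Iso2 (ι.comp M₁).toUnder M₀.toUnder) (β₀ : Iso2 (j₀.comp N).toUnder M₀.toUnder)
    (β₁ : Iso2 (j₁.comp N).toUnder M₁.toUnder) : Prop :=
  ∀ X, N.K.map (γ.app X) ≫ β₀.app X = β₁.app (ι.K.obj X) ≫ α.app X

/-- The isomorphisms `β₀` and `β₁` are compatible with `γ`. -/
def Compat₂ (ι : Mor G₀ G₁) (j₀ : Mor G₀ G) (j₁ : Mor G₁ G)
    (γ : Iso2 (ι.comp j₁).toUnder j₀.toUnder) (N N' : Mor G H)
    (β₀ : Iso2 (j₀.comp N).toUnder (j₀.comp N').toUnder)
    (β₁ : Iso2 (j₁.comp N).toUnder (j₁.comp N').toUnder) : Prop :=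
  ∀ X, N.K.map (γ.app X) ≫ β₀.app X = β₁.app (ι.K.obj X) ≫ N'.K.map (γ.app X)

end

/-- `G` is the colimit of the tower: up to isomorphism, giving a morphism from `G` to a globular
extension `H` is the same as giving a compatible family of morphisms from the `𝒯.G n` to `H`. -/
def IsTowerColimit (𝒯 : Tower) {C : Type} [Category.{0} C] (G : Coglob C)
    (j : ∀ n, Mor (𝒯.G n) G)
    (γ : ∀ n, Iso2 ((𝒯.ι n).comp (j (n + 1))).toUnder (j n).toUnder) : Prop :=
  ∀ (E : Type 1) [Category.{0} E] (H : Coglob E), H.IsExtension →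
    (∀ (M : ∀ n, Mor (𝒯.G n) H)
      (α : ∀ n, Iso2 ((𝒯.ι n).comp (M (n + 1))).toUnder (M n).toUnder),
      ∃ (N : Mor G H) (β : ∀ n, Iso2 ((j n).comp N).toUnder (M n).toUnder),
        ∀ n, Compat (𝒯.ι n) (j n) (j (n + 1)) (γ n) N (M n) (M (n + 1)) (α n)
          (β n) (β (n + 1))) ∧
    (∀ (N N' : Mor G H) (β : ∀ n, Iso2 ((j n).comp N).toUnder ((j n).comp N').toUnder),
      (∀ n, Compat₂ (𝒯.ι n) (j n) (j (n + 1)) (γ n) N N' (β n) (β (n + 1))) →
      ∃! δ : Iso2 N.toUnder N'.toUnder,
        ∀ n X, δ.app ((j n).K.obj X) = (β n).app X)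

/-- Grothendieck coherators. -/
structure IsCoherator {C : Type} [Category.{0} C] (G : Coglob C) : Prop where
  ext : G.IsExtension
  lift : ∀ p : ParPair G, ∃ h, G.IsLifting p.f p.g h
  tower : ∃ (𝒯 : Tower) (j : ∀ n, Mor (𝒯.G n) G)
    (γ : ∀ n, Iso2 ((𝒯.ι n).comp (j (n + 1))).toUnder (j n).toUnder), IsTowerColimit 𝒯 G j γ

/-! ## Infinity-groupoids and their weak equivalences -/

section

variable {C : Type} [Category.{0} C]

/-- The function induced by an arrow on the values of a presheaf. -/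
abbrev act (P : Cᵒᵖ ⥤ Type) {X Y : C} (f : X ⟶ Y) (y : P.obj (op Y)) : P.obj (op X) :=
  P.map f.op y

lemma act_app {P Q : Cᵒᵖ ⥤ Type} (f : P ⟶ Q) {X Y : C} (g : X ⟶ Y) (y : P.obj (op Y)) :
    act Q g (f.app (op Y) y) = f.app (op X) (act P g y) :=
  (NatTrans.naturality_apply f g.op y).symm

/-- `P` sends globular sums to the corresponding iterated fibre products. -/
def IsGpd (G : Coglob C) : ObjectProperty (Cᵒᵖ ⥤ Type) := fun P =>
  ∀ (T : Table) (X : C) (c : G.Cocone T X), c.IsSum →
    ∀ x : ∀ k, P.obj (op (G.D (T.top k))),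
      (∀ k : Fin T.len, act P (G.sIter (T.hl k).le) (x k.castSucc) =
        act P (G.tIter (T.hr k).le) (x k.succ)) →
      ∃! y : P.obj (op X), ∀ k, act P (c.inj k) y = x k

/-- The category of infinity-groupoids over `G`. -/
abbrev Gpd (G : Coglob C) := (IsGpd G).FullSubcategory

/-- Two `i`-cells are homotopic if some `(i+1)`-cell has source `x` and target `y`. -/
def Homot (G : Coglob C) (P : Cᵒᵖ ⥤ Type) {i : ℕ} (x y : P.obj (op (G.D i))) : Prop :=
  ∃ z : P.obj (op (G.D (i + 1))), act P (G.σ i) z = x ∧ act P (G.τ i) z = y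

/-- `π_0`. -/
def Pi0 (G : Coglob C) (P : Cᵒᵖ ⥤ Type) : Type :=
  Quot (fun x y : P.obj (op (G.D 0)) => Homot G P x y)

/-- A choice of units: liftings of the pairs `(𝟙, 𝟙)`. -/
structure Units (G : Coglob C) where
  κ : ∀ i, G.D (i + 1) ⟶ G.D i
  hκ : ∀ i, G.IsLifting (𝟙 (G.D i)) (𝟙 (G.D i)) (κ i)

/-- The operation of iterated unit of an object. -/
def Units.iter {G : Coglob C} (κ : Units G) : ∀ i, G.D i ⟶ G.D 0
  | 0 => 𝟙 _
  | i + 1 => κ.κ i ≫ κ.iter i

/-- The source and the target of the `(i+1)`-cell `a` are the iterated unit on `x`. -/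
def IsLoop {G : Coglob C} (κ : Units G) (P : Cᵒᵖ ⥤ Type) (i : ℕ) (x : P.obj (op (G.D 0)))
    (a : P.obj (op (G.D (i + 1)))) : Prop :=
  act P (G.σ i) a = act P (κ.iter i) x ∧ act P (G.τ i) a = act P (κ.iter i) x

/-- The `(i+1)`-cells whose source and target are the iterated unit on the object `x`. -/
def Loop {G : Coglob C} (κ : Units G) (P : Cᵒᵖ ⥤ Type) (i : ℕ) (x : P.obj (op (G.D 0))) : Type :=
  {a : P.obj (op (G.D (i + 1))) // IsLoop κ P i x a}

/-- Homotopy of loops. -/
def LoopHomot {G : Coglob C} (κ : Units G) (P : Cᵒᵖ ⥤ Type) (i : ℕ) (x : P.obj (op (G.D 0)))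
    (a b : Loop κ P i x) : Prop :=
  Homot G P a.1 b.1

/-- `π_{i+1}(P; x)` (its underlying set): the automorphisms, in the groupoid with objects the
`i`-cells and arrows the homotopy classes of `(i+1)`-cells, of the iterated unit on `x`. -/
def PiSucc {G : Coglob C} (κ : Units G) (P : Cᵒᵖ ⥤ Type) (i : ℕ) (x : P.obj (op (G.D 0))) :
    Type :=
  Quot (LoopHomot κ P i x)

/-- The map induced on `i`-cells. -/
def cellMap (G : Coglob C) {P Q : Cᵒᵖ ⥤ Type} (f : P ⟶ Q) (i : ℕ) (x : P.obj (op (G.D i))) :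
    Q.obj (op (G.D i)) :=
  f.app (op (G.D i)) x

lemma Homot.map {G : Coglob C} {P Q : Cᵒᵖ ⥤ Type} (f : P ⟶ Q) {i : ℕ}
    {x y : P.obj (op (G.D i))} (h : Homot G P x y) :
    Homot G Q (cellMap G f i x) (cellMap G f i y) := by
  obtain ⟨z, rfl, rfl⟩ := h
  exact ⟨f.app _ z, act_app f (G.σ i) z, act_app f (G.τ i) z⟩

/-- The map induced on `π_0`. -/
def Pi0.map {G : Coglob C} {P Q : Cᵒᵖ ⥤ Type} (f : P ⟶ Q) : Pi0 G P → Pi0 G Q :=
  Quot.map (cellMap G f 0) (fun _ _ h => h.map f)

lemma IsLoop.map {G : Coglob C} {κ : Units G} {P Q : Cᵒᵖ ⥤ Type} (f : P ⟶ Q) {i : ℕ}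
    {x : P.obj (op (G.D 0))} {a : P.obj (op (G.D (i + 1)))} (h : IsLoop κ P i x a) :
    IsLoop κ Q i (cellMap G f 0 x) (cellMap G f (i + 1) a) :=
  ⟨(act_app f (G.σ i) a).trans
      ((congrArg (cellMap G f i) h.1).trans (act_app f (κ.iter i) x).symm),
    (act_app f (G.τ i) a).trans
      ((congrArg (cellMap G f i) h.2).trans (act_app f (κ.iter i) x).symm)⟩

/-- The map induced on loops. -/
def Loop.map {G : Coglob C} {κ : Units G} {P Q : Cᵒᵖ ⥤ Type} (f : P ⟶ Q) {i : ℕ}
    {x : P.obj (op (G.D 0))} (a : Loop κ P i x) : Loop κ Q i (cellMap G f 0 x) :=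
  ⟨cellMap G f (i + 1) a.1, a.2.map f⟩

lemma LoopHomot.map {G : Coglob C} {κ : Units G} {P Q : Cᵒᵖ ⥤ Type} (f : P ⟶ Q) {i : ℕ}
    {x : P.obj (op (G.D 0))} {a b : Loop κ P i x} (h : LoopHomot κ P i x a b) :
    LoopHomot κ Q i (cellMap G f 0 x) (a.map f) (b.map f) :=
  Homot.map f h

/-- The map induced on `π_{i+1}`. -/
def PiSucc.map {G : Coglob C} {κ : Units G} {P Q : Cᵒᵖ ⥤ Type} (f : P ⟶ Q) {i : ℕ}
    {x : P.obj (op (G.D 0))} : PiSucc κ P i x → PiSucc κ Q i (cellMap G f 0 x) :=
  Quot.map (Loop.map f) (fun _ _ h => h.map f)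

/-- Weak equivalences of infinity-groupoids: bijective on `π_0` and on every `π_i(-; x)`,
`i ≥ 1` (for every choice of units). -/
def gpdW (G : Coglob C) : MorphismProperty (Gpd G) := fun P Q f =>
  Function.Bijective (Pi0.map (G := G) f.hom) ∧
  ∀ (κ : Units G) (i : ℕ) (x : P.obj.obj (op (G.D 0))),
    Function.Bijective (PiSucc.map (κ := κ) f.hom (i := i) (x := x))

end

end Pool.Agent.W_MP_0394fb_al
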