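import Pool.Agent.W_MP_0394fb_al.Fund3

set_option autoImplicit false

open CategoryTheory Opposite

namespace Pool.Agent.W_MP_0394fb_al

variable {C : Type} [Category.{0} C] {G : Coglob C} (X : Ctx G) (V : Mor G setGlob)

/-- the value of a cocycle on the arrow -/
def val (c : Coc (V.K.obj (G.D 1))) : ℤ :=
  c.1 (V.K.map (G.σ 0) (v0 V)) (V.K.map (G.τ 0) (v0 V))

/-- a function on the booleans -/
def bn (n : ℤ) (b : Bool) : ℤ := bif b then n else 0

/-- the cocycle on the arrow with a given value -/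
def cocN (n : ℤ) : Coc (V.K.obj (G.D 1)) :=
  ⟨fun x y => bn n ((V.e 1).hom y) - bn n ((V.e 1).hom x), fun x y z => by ring⟩

lemma e1_s : ((V.e 1).hom (V.K.map (G.σ 0) (v0 V)) : Bool) = false := by
  have := ConcreteCategory.congr_hom (V.eσ 0) (v0 V)
  exact this

lemma e1_t : ((V.e 1).hom (V.K.map (G.τ 0) (v0 V)) : Bool) = true := by
  have := ConcreteCategory.congr_hom (V.eτ 0) (v0 V)
  exact this

lemma val_cocN (n : ℤ) : val V (cocN V n) = n := by
  have h1 : bn n ((V.e 1).hom (V.K.map (G.τ 0) (v0 V))) = n := congrArg (bn n) (e1_t V)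
  have h2 : bn n ((V.e 1).hom (V.K.map (G.σ 0) (v0 V))) = 0 := congrArg (bn n) (e1_s V)
  change bn n ((V.e 1).hom (V.K.map (G.τ 0) (v0 V))) -
    bn n ((V.e 1).hom (V.K.map (G.σ 0) (v0 V))) = n
  rw [h1, h2]
  simp

lemma V_sigma_eq_tau (i : ℕ) : V.K.map (G.σ (i + 1)) = V.K.map (G.τ (i + 1)) := by
  have h1 : V.K.map (G.σ (i + 1)) ≫ (V.e (i + 2)).hom = (V.e (i + 1)).hom := V.eσ (i + 1)
  have h2 : V.K.map (G.τ (i + 1)) ≫ (V.e (i + 2)).hom = (V.e (i + 1)).hom := V.eτ (i + 1)
  rw [← cancel_mono (V.e (i + 2)).hom]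
  exact h1.trans h2.symm

lemma homot_bz {a b : Coc (V.K.obj (G.D 1))} (h : Homot G (bzPsh V) (i := 1) a b) : a = b := by
  obtain ⟨z, hz1, hz2⟩ := h
  have h1 : Coc.comap (V.K.map (G.σ 1)) z = a := hz1
  have h2 : Coc.comap (V.K.map (G.τ 1)) z = b := hz2
  rw [← h1, ← h2, V_sigma_eq_tau]

/-- the value of a morphism in the fundamental groupoid of `BZ` -/
def hval {x y : FObj X (bz V)} (g : FHom X x y) : ℤ :=
  Quot.lift (fun a : Arr X x y => val V a.1) (fun _ _ h => by rw [homot_bz V h]) g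

lemma hval_comp {x y z : FObj X (bz V)} (f : x ⟶ y) (g : y ⟶ z) :
    hval X V (f ≫ g) = hval X V f + hval X V g := by
  obtain ⟨a, rfl⟩ := Arr.exists_rep f
  obtain ⟨b, rfl⟩ := Arr.exists_rep g
  obtain ⟨e, he0, he1, he⟩ := exists_glue V X.O.W X.O.nab X.O.nab_s X.O.nab_t b.1 a.1
  have h1 : (a.comp b).1 = e.comap (V.K.map X.O.nab) :=
    comp_eq X.O (isGpd_bz V) (a := b.1) (b := a.1) (b.2.1.trans a.2.2.symm) e he0 he1
  have h2 := he (cocN V (val V a.1 + val V b.1)) (by
    have := val_cocN V (val V a.1 + val V b.1)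
    unfold val at this ⊢
    rw [this]; ring)
  change val V (a.comp b).1 = val V a.1 + val V b.1
  rw [h1]
  erw [h2]
  rw [val_cocN]

/-- base point -/
def x0 : FObj X (bz V) := ⟨(Coc.zero _ : Coc (V.K.obj (G.D 0)))⟩

/-- the loop with value `n` -/
def loopN (n : ℤ) : x0 X V ⟶ x0 X V :=
  Arr.cls ⟨cocN V n, Coc_D0_eq V _ _, Coc_D0_eq V _ _⟩

lemma hval_loopN (n : ℤ) : hval X V (loopN X V n) = n := val_cocN V n

lemma not_injective_detect : ¬ Function.Injective ((detect X).map (toPt V)) := by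
  intro hinj
  have h1 : (detect X).map (toPt V) (Quot.mk _ ⟨x0 X V, loopN X V 0⟩) =
      (detect X).map (toPt V) (Quot.mk _ ⟨x0 X V, loopN X V 1⟩) := rfl
  have h2 := hinj h1
  obtain ⟨c, hc⟩ := (Equivalence.quot_mk_eq_iff (conj_equivalence (FObj X (bz V))) _ _).1 h2
  have h3 := congrArg (fun g : x0 X V ⟶ x0 X V => hval X V g) hc
  have h4 : hval X V (loopN X V 0 ≫ c) = hval X V (c ≫ loopN X V 1) := h3
  rw [hval_comp, hval_comp, hval_loopN, hval_loopN] at h4
  omega

include X in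
/-- The map from `BZ` to the point is not inverted by the localisation. -/
lemma not_isIso_Q : ¬ IsIso ((gpdW G).Q.map (toPt V)) := by
  intro h
  have h1 : IsIso (((gpdW G).Q ⋙ Localization.lift (detect X) (detect_inverts X)
      (gpdW G).Q).map (toPt V)) := by
    rw [Functor.comp_map]; infer_instance
  have h2 : IsIso ((detect X).map (toPt V)) :=
    (NatIso.isIso_map_iff (Localization.fac (detect X) (detect_inverts X) (gpdW G).Q) _).1 h1
  rw [isIso_iff_bijective] at h2
  exact not_injective_detect X V h2.1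

/-- Statement (i) fails as soon as `G` has liftings of parallel pairs, all objects are globular
sums, and there is a morphism to `setGlob`. -/
theorem not_statementI_aux (hG : G.IsExtension)
    (hl : ∀ p : ParPair G, ∃ h, G.IsLifting p.f p.g h)
    (hobj : ∀ Y : C, ∃ (T : Table) (c : G.Cocone T Y), c.IsSum) (V : Mor G setGlob)
    (F : Mor G disks) : ¬ StatementI F := by
  rintro ⟨-, -, R, P, ⟨e1⟩, -, ⟨e3⟩, -⟩
  obtain ⟨X⟩ := exists_ctx hG hl
  have h0 := isIso_real_toPt V F hG hl hobj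
  have h1 : IsIso ((real F ⋙ topW.Q).map (toPt V)) := by
    rw [Functor.comp_map]; infer_instance
  have h2 : IsIso (((gpdW G).Q ⋙ R).map (toPt V)) := (NatIso.isIso_map_iff e1 _).2 h1
  have h3 : IsIso ((R ⋙ P).map ((gpdW G).Q.map (toPt V))) := by
    rw [Functor.comp_map]
    rw [Functor.comp_map] at h2
    infer_instance
  have h4 : IsIso ((𝟭 (gpdW G).Localization).map ((gpdW G).Q.map (toPt V))) :=
    (NatIso.isIso_map_iff e3 _).1 h3
  exact not_isIso_Q X V h4

end Pool.Agent.W_MP_0394fb_al
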