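import Pool.Agent.W_MP_0394fb_al.Theta

set_option autoImplicit false

open CategoryTheory Opposite

namespace Pool.Agent.W_MP_0394fb_al

universe v u v' u'

/-- Generators for the free adjunction of liftings. -/
inductive FGen (t : Thy) {A : Type} (p : A → ParPair t.G) : Table → Table → Type
  | old {S T : Table} (f : t.Hom S T) : FGen t p S T
  | new (a : A) : FGen t p (T1 ((p a).i + 1)) (p a).X

/-- Interpretations of the generators which are theory morphisms on the old morphisms and give
liftings on the new ones. -/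
structure FMod (t : Thy) {A : Type} (p : A → ParPair t.G) (M : Interp (FGen t p)) : Prop where
  id : ∀ T, M.I (.old (t.id T)) = M.t.id T
  comp : ∀ {R S T : Table} (f : t.Hom R S) (g : t.Hom S T),
    M.I (.old (t.comp f g)) = M.t.comp (M.I (.old f)) (M.I (.old g))
  σ : ∀ i, M.I (.old (t.σ i)) = M.t.σ i
  τ : ∀ i, M.I (.old (t.τ i)) = M.t.τ i
  inj : ∀ T k, M.I (.old ((t.c T).inj k)) = (M.t.c T).inj k
  src : ∀ a, M.t.comp (M.t.σ (p a).i) (M.I (.new a)) = M.I (.old (p a).f)
  tgt : ∀ a, M.t.comp (M.t.τ (p a).i) (M.I (.new a)) = M.I (.old (p a).g)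

section

variable (t : Thy) {A : Type} (p : A → ParPair t.G)

/-- The theory obtained by adjoining liftings. -/
def free : Thy := termThy (FMod t p)

/-- images of old morphisms -/
def old {S T : Table} (f : t.Hom S T) : TermHom (FMod t p) S T := TermHom.gen _ (.old f)

/-- the new liftings -/
def new (a : A) : TermHom (FMod t p) (T1 ((p a).i + 1)) (p a).X := TermHom.gen _ (.new a)

lemma old_id (T : Table) : old t p (t.id T) = TermHom.id _ T :=
  TermHom.ext fun M hM => (TermHom.ev_gen hM _).trans ((hM.id T).trans (TermHom.ev_id hM T).symm)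

lemma old_comp {R S T : Table} (f : t.Hom R S) (g : t.Hom S T) :
    old t p (t.comp f g) = (old t p f).comp (old t p g) :=
  TermHom.ext fun M hM => (TermHom.ev_gen hM _).trans ((hM.comp f g).trans
    ((TermHom.ev_comp hM _ _).trans
      (congrArg₂ M.t.comp (TermHom.ev_gen hM _) (TermHom.ev_gen hM _))).symm)

lemma old_σ (i : ℕ) : old t p (t.σ i) = TermHom.sig _ i :=
  TermHom.ext fun M hM => (TermHom.ev_gen hM _).trans ((hM.σ i).trans (TermHom.ev_sig hM i).symm)

lemma old_τ (i : ℕ) : old t p (t.τ i) = TermHom.tau _ i :=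
  TermHom.ext fun M hM => (TermHom.ev_gen hM _).trans ((hM.τ i).trans (TermHom.ev_tau hM i).symm)

lemma old_inj (T : Table) (k : Fin (T.len + 1)) :
    old t p ((t.c T).inj k) = TermHom.inj _ T k :=
  TermHom.ext fun M hM => (TermHom.ev_gen hM _).trans
    ((hM.inj T k).trans (TermHom.ev_inj hM T k).symm)

lemma new_src (a : A) : (TermHom.sig _ (p a).i).comp (new t p a) = old t p (p a).f :=
  TermHom.ext fun M hM => ((TermHom.ev_comp hM _ _).trans
    (congrArg₂ M.t.comp (TermHom.ev_sig hM _) (TermHom.ev_gen hM _))).trans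
      ((hM.src a).trans (TermHom.ev_gen hM _).symm)

lemma new_tgt (a : A) : (TermHom.tau _ (p a).i).comp (new t p a) = old t p (p a).g :=
  TermHom.ext fun M hM => ((TermHom.ev_comp hM _ _).trans
    (congrArg₂ M.t.comp (TermHom.ev_tau hM _) (TermHom.ev_gen hM _))).trans
      ((hM.tgt a).trans (TermHom.ev_gen hM _).symm)

/-- The inclusion functor. -/
def freeU : Under t.G (free t p).G where
  K :=
    { obj := fun T => (T : Table)
      map := fun f => old t p f
      map_id := fun T => old_id t p T
      map_comp := fun f g => old_comp t p f g }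
  e i := Iso.refl _
  eσ i := (Category.comp_id (obj := (free t p).Obj) _).trans
    ((old_σ t p i).trans (Category.id_comp (obj := (free t p).Obj) _).symm)
  eτ i := (Category.comp_id (obj := (free t p).Obj) _).trans
    ((old_τ t p i).trans (Category.id_comp (obj := (free t p).Obj) _).symm)

/-- The inclusion. -/
def freeι : Mor t.G (free t p).G where
  toUnder := freeU t p
  pres := pres_of t (freeU t p) fun T =>
    isSum_of_iso ((free t p).sum T) _ (Iso.refl _) fun k =>
      (Category.comp_id (obj := (free t p).Obj) _).trans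
        ((Category.id_comp (obj := (free t p).Obj) _).trans (old_inj t p T k)).symm

end

section

variable {t : Thy} {A : Type} {p : A → ParPair t.G} {E : Type u} [Category.{0} E] {H : Coglob E}

lemma aux_lift {X Y D D' Z : E} (a : X ≅ D) (s : D ⟶ D') (b : Y ≅ D') {m : D' ⟶ Z} {f : X ⟶ Z}
    (h : s ≫ m = a.inv ≫ f) : (a.hom ≫ s ≫ b.inv) ≫ (b.hom ≫ m) = f := by
  simp only [Category.assoc, Iso.inv_hom_id_assoc, h, Iso.hom_inv_id_assoc]

lemma aux_sq {X Y D D' : E} {f : X ⟶ Y} {a : X ≅ D} {s : D ⟶ D'} {b : Y ≅ D'}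
    (h : f ≫ b.hom = a.hom ≫ s) : f = a.hom ≫ s ≫ b.inv := by
  rw [← Category.assoc]; exact (Iso.eq_comp_inv _).2 h

/-- The interpretation given by a morphism and liftings. -/
def freeI (M : Mor t.G H) (m : ∀ a, H.D ((p a).i + 1) ⟶ M.K.obj (p a).X) :
    Interp (FGen t p) where
  t := M.rz.thy
  I := fun g => match g with
    | .old f => M.K.map f
    | .new a => (M.e _).hom ≫ m a

lemma freeI_mod (M : Mor t.G H) (m : ∀ a, H.D ((p a).i + 1) ⟶ M.K.obj (p a).X)
    (hm : ∀ a, H.IsLifting (M.img (p a).f) (M.img (p a).g) (m a)) : FMod t p (freeI M m) where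
  id T := M.K.map_id (T : t.Obj)
  comp f g := M.K.map_comp f g
  σ i := aux_sq (M.eσ i)
  τ i := aux_sq (M.eτ i)
  inj T k := (Iso.hom_inv_id_assoc (M.e (T.top k)) (M.K.map ((t.c T).inj k))).symm
  src a := aux_lift (M.e _) (H.σ _) (M.e _) (hm a).1
  tgt a := aux_lift (M.e _) (H.τ _) (M.e _) (hm a).2

theorem free_exists {E : Type 1} [Category.{0} E] {H : Coglob E} :
    FreeExists (freeι t p) p (new t p) H := by
  intro M m hm
  let I := freeI M m
  have hI : FMod t p I := freeI_mod M m hm
  let N : Mor (free t p).G H := (evMor hI).comp M.rz.incl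
  have hold : ∀ {S T : Table} (f : t.Hom S T), N.K.map (old t p f) = M.K.map f := fun f =>
    TermHom.ev_gen hI (.old f)
  have hnew : ∀ a, N.K.map (new t p a) = (M.e _).hom ≫ m a := fun a =>
    TermHom.ev_gen hI (.new a)
  have he : ∀ i, (N.e i).hom = (M.e i).hom := fun i => Category.id_comp _
  have he' : ∀ i, (N.e i).inv = (M.e i).inv := fun i => Category.comp_id _
  refine ⟨N, ⟨NatIso.ofComponents (fun T => Iso.refl _) (fun {S T} f => ?_), fun i => ?_⟩,
    fun a => ?_⟩
  · exact (Category.comp_id _).trans ((hold f).trans (Category.id_comp _).symm)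
  · have h1 : (((freeι t p).comp N).e i).hom = (N.e i).hom :=
      (congrArg (fun z => z ≫ (N.e i).hom) (N.K.map_id _)).trans (Category.id_comp _)
    exact (Category.id_comp _).trans ((he i).symm.trans h1.symm)
  · have h1 : N.img (new t p a) = m a :=
      ((congrArg (fun z => (N.e _).inv ≫ z) (hnew a)).trans
        (congrArg (fun z => z ≫ (M.e _).hom ≫ m a) (he' _))).trans (Iso.inv_hom_id_assoc _ _)
    exact (Category.comp_id _).trans h1

theorem free_unique {E : Type 1} [Category.{0} E] {H : Coglob E} :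
    FreeUnique (freeι t p) p (new t p) H := by
  intro N N' β hβ
  let b : ∀ T : Table, N.K.obj (T : (free t p).Obj) ⟶ N'.K.obj (T : (free t p).Obj) :=
    fun T => β.app T
  have he : ∀ i, (((freeι t p).comp N).e i).hom = (N.e i).hom := fun i =>
    (congrArg (fun z => z ≫ (N.e i).hom) (N.K.map_id _)).trans (Category.id_comp _)
  have he' : ∀ i, (((freeι t p).comp N').e i).hom = (N'.e i).hom := fun i =>
    (congrArg (fun z => z ≫ (N'.e i).hom) (N'.K.map_id _)).trans (Category.id_comp _)
  have hw : ∀ i, b (T1 i) ≫ (N'.e i).hom = (N.e i).hom := fun i =>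
    (congrArg (fun z => b (T1 i) ≫ z) (he' i).symm).trans ((β.w i).trans (he i))
  have h1 : ∀ i, b (T1 i) = (N.e i).hom ≫ (N'.e i).inv := fun i =>
    (Iso.eq_comp_inv (N'.e i)).2 (hw i)
  have hold : ∀ (S T : Table) (f : t.Hom S T),
      mp N (old t p f) ≫ b T = b S ≫ mp N' (old t p f) := fun S T f => β.θ.hom.naturality f
  have hgen : ∀ (S T : Table) (g : FGen t p S T), mp N (TermHom.gen (FMod t p) g) ≫ b T =
      b S ≫ mp N' (TermHom.gen (FMod t p) g) := by
    intro S T g
    cases g with
    | old f => exact hold S T f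
    | new a =>
      have h2 : ((N.e _).inv ≫ mp N (new t p a)) ≫ b (p a).X =
        (N'.e _).inv ≫ mp N' (new t p a) := hβ a
      have h3 : mp N (new t p a) ≫ b (p a).X =
          (N.e _).hom ≫ (N'.e _).inv ≫ mp N' (new t p a) :=
        (Iso.inv_comp_eq (N.e _)).1 ((Category.assoc _ _ _).symm.trans h2)
      exact h3.trans ((Category.assoc _ _ _).symm.trans
        (congrArg (fun z => z ≫ mp N' (new t p a)) (h1 _).symm))
  have hnat : ∀ {S T : Table} (f : TermHom (FMod t p) S T),
      mp N f ≫ b T = b S ≫ mp N' f := fun {S T} f => by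
    refine nat_of N N' b hgen ?_ ?_ ?_ f
    · intro i
      have := hold _ _ (t.σ i)
      rw [old_σ] at this
      exact this
    · intro i
      have := hold _ _ (t.τ i)
      rw [old_τ] at this
      exact this
    · intro T k
      have := hold _ _ ((t.c T).inj k)
      rw [old_inj] at this
      exact this
  refine ⟨⟨NatIso.ofComponents (fun T => β.θ.app T) (fun {S T} f => hnat f), hw⟩,
    fun X => rfl, fun γ hγ => ?_⟩
  apply Iso2.ext'
  intro X
  exact hγ X

theorem isFreeAdjunction_free : IsFreeAdjunction (freeι t p) p (new t p) := by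
  refine ⟨fun a => ⟨?_, ?_⟩, fun E _ H _ => ⟨free_exists, free_unique⟩⟩
  · exact (new_src t p a).trans (Category.id_comp (obj := (free t p).Obj) _).symm
  · exact (new_tgt t p a).trans (Category.id_comp (obj := (free t p).Obj) _).symm

end

end Pool.Agent.W_MP_0394fb_al
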