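import Pool.Agent.W_MP_0394fb_al.RealIso

set_option autoImplicit false

open CategoryTheory Opposite

namespace Pool.Agent.W_MP_0394fb_al

variable {C : Type} [Category.{0} C] {G : Coglob C}

lemma sIter_zero_two (h : 0 ≤ 2) : G.sIter h = G.σ 0 ≫ G.σ 1 := by
  rw [Coglob.sIter_succ G (Nat.zero_le 1), sIter_zero_one]

lemma tIter_zero_two (h : 0 ≤ 2) : G.tIter h = G.τ 0 ≫ G.τ 1 := by
  rw [Coglob.tIter_succ G (Nat.zero_le 1), tIter_zero_one]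

/-- Representable presheaves are infinity-groupoids. -/
lemma isGpd_yoneda (X : C) : IsGpd G (yoneda.obj X) := by
  intro T Y c hc x hx
  obtain ⟨f, hf, hu⟩ := hc X ⟨x, hx⟩
  exact ⟨f, hf, fun g hg => hu g hg⟩

/-- Globular sums of equidimensional globes. -/
lemma exists_const (hG : G.IsExtension) (n j m : ℕ) (h : m < j) :
    ∃ (X : C) (i : Fin (n + 1) → (G.D j ⟶ X)),
      (∀ k : Fin n, G.sIter h.le ≫ i k.castSucc = G.tIter h.le ≫ i k.succ) ∧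
      (∀ P : Cᵒᵖ ⥤ Type, IsGpd G P → ∀ a : Fin (n + 1) → P.obj (op (G.D j)),
        (∀ k : Fin n, P.map (G.sIter h.le).op (a k.castSucc) =
          P.map (G.tIter h.le).op (a k.succ)) →
        ∃! e : P.obj (op X), ∀ k, P.map (i k).op e = a k) := by
  obtain ⟨X, c, hc⟩ := hG ⟨n, fun _ => j, fun _ => m, fun _ => h, fun _ => h⟩
  exact ⟨X, c.inj, c.glue, fun P hP a ha => hP _ X c hc a ha⟩

/-- A choice of operations. -/
structure Ops (G : Coglob C) where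
  W : Comp2 G
  nab : G.D 1 ⟶ W.X
  nab_s : G.σ 0 ≫ nab = G.σ 0 ≫ W.i1
  nab_t : G.τ 0 ≫ nab = G.τ 0 ≫ W.i0
  κ : G.D 1 ⟶ G.D 0
  κ_s : G.σ 0 ≫ κ = 𝟙 _
  κ_t : G.τ 0 ≫ κ = 𝟙 _
  inv : G.D 1 ⟶ G.D 1
  inv_s : G.σ 0 ≫ inv = G.τ 0
  inv_t : G.τ 0 ≫ inv = G.σ 0

lemma exists_ops (hG : G.IsExtension) (hl : ∀ p : ParPair G, ∃ h, G.IsLifting p.f p.g h) :
    Nonempty (Ops G) := by
  obtain ⟨W⟩ := exists_comp2 hG
  obtain ⟨nab, hns, hnt⟩ := hl ⟨0, W.X, G.σ 0 ≫ W.i1, G.τ 0 ≫ W.i0, trivial⟩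
  obtain ⟨κ, hκs, hκt⟩ := hl ⟨0, G.D 0, 𝟙 _, 𝟙 _, trivial⟩
  obtain ⟨inv, his, hit⟩ := hl ⟨0, G.D 1, G.τ 0, G.σ 0, trivial⟩
  exact ⟨⟨W, nab, hns, hnt, κ, hκs, hκt, inv, his, hit⟩⟩

variable (O : Ops G)

section

variable (P : Cᵒᵖ ⥤ Type)

/-- source of a cell -/
abbrev src {P : Cᵒᵖ ⥤ Type} {i : ℕ} (a : P.obj (op (G.D (i + 1)))) : P.obj (op (G.D i)) :=
  P.map (G.σ i).op a

/-- target of a cell -/
abbrev tgt {P : Cᵒᵖ ⥤ Type} {i : ℕ} (a : P.obj (op (G.D (i + 1)))) : P.obj (op (G.D i)) :=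
  P.map (G.τ i).op a

lemma map_map {P : Cᵒᵖ ⥤ Type} {X Y Z : C} (f : X ⟶ Y) (g : Y ⟶ Z) (x : P.obj (op Z)) :
    P.map f.op (P.map g.op x) = P.map (f ≫ g).op x := by
  rw [op_comp, P.map_comp]; rfl

variable {P}

/-- Composition of 1-cells (defined for all pairs; junk if they are not composable). -/
noncomputable def comp (hP : IsGpd G P) (a b : P.obj (op (G.D 1))) (h : src a = tgt b) :
    P.obj (op (G.D 1)) :=
  P.map O.nab.op (O.W.pair P hP a b h).choose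

lemma comp_eq (hP : IsGpd G P) {a b : P.obj (op (G.D 1))} (h : src a = tgt b)
    (e : P.obj (op O.W.X)) (h0 : P.map O.W.i0.op e = a) (h1 : P.map O.W.i1.op e = b) :
    comp O hP a b h = P.map O.nab.op e := by
  have := (O.W.pair P hP a b h).choose_spec.2 e ⟨h0, h1⟩
  rw [this]; rfl

lemma src_comp (hP : IsGpd G P) {a b : P.obj (op (G.D 1))} (h : src a = tgt b) :
    src (comp O hP a b h) = src b := by
  obtain ⟨h0, h1⟩ := (O.W.pair P hP a b h).choose_spec.1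
  unfold src comp
  rw [map_map, O.nab_s, ← map_map, h1]

lemma tgt_comp (hP : IsGpd G P) {a b : P.obj (op (G.D 1))} (h : src a = tgt b) :
    tgt (comp O hP a b h) = tgt a := by
  obtain ⟨h0, h1⟩ := (O.W.pair P hP a b h).choose_spec.1
  unfold tgt comp
  rw [map_map, O.nab_t, ← map_map, h0]

/-- Composition is natural. -/
lemma map_comp {Q : Cᵒᵖ ⥤ Type} (hP : IsGpd G P) (hQ : IsGpd G Q) (f : P ⟶ Q)
    {a b : P.obj (op (G.D 1))} (h : src a = tgt b)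
    (h' : src (f.app _ a) = tgt (f.app _ b)) :
    f.app _ (comp O hP a b h) = comp O hQ (f.app _ a) (f.app _ b) h' := by
  obtain ⟨h0, h1⟩ := (O.W.pair P hP a b h).choose_spec.1
  rw [comp_eq O hQ h' (f.app _ (O.W.pair P hP a b h).choose)]
  · exact NatTrans.naturality_apply f O.nab.op _
  · rw [← NatTrans.naturality_apply, h0]
  · rw [← NatTrans.naturality_apply, h1]

/-- Composition of arrows in `C`. -/
noncomputable def compC {X : C} (a b : G.D 1 ⟶ X) (h : G.σ 0 ≫ a = G.τ 0 ≫ b) : G.D 1 ⟶ X :=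
  comp O (isGpd_yoneda X) a b h

lemma src_compC {X : C} (a b : G.D 1 ⟶ X) (h : G.σ 0 ≫ a = G.τ 0 ≫ b) :
    G.σ 0 ≫ compC O a b h = G.σ 0 ≫ b :=
  src_comp O (isGpd_yoneda X) (a := a) (b := b) h

lemma tgt_compC {X : C} (a b : G.D 1 ⟶ X) (h : G.σ 0 ≫ a = G.τ 0 ≫ b) :
    G.τ 0 ≫ compC O a b h = G.τ 0 ≫ a :=
  tgt_comp O (isGpd_yoneda X) (a := a) (b := b) h

lemma map_compC (hP : IsGpd G P) {X : C} (a b : G.D 1 ⟶ X) (h : G.σ 0 ≫ a = G.τ 0 ≫ b)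
    (u : P.obj (op X)) (h' : src (P.map a.op u) = tgt (P.map b.op u)) :
    P.map (compC O a b h).op u = comp O hP (P.map a.op u) (P.map b.op u) h' := by
  exact map_comp O (isGpd_yoneda X) hP (yonedaEquiv.symm u) (a := a) (b := b) h h'

/-- Coherence: parallel operations are homotopic. -/
lemma coh (hl : ∀ p : ParPair G, ∃ h, G.IsLifting p.f p.g h) {X : C} (A B : G.D 1 ⟶ X)
    (hs : G.σ 0 ≫ A = G.σ 0 ≫ B) (ht : G.τ 0 ≫ A = G.τ 0 ≫ B) (u : P.obj (op X)) :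
    Homot G P (P.map A.op u) (P.map B.op u) := by
  obtain ⟨h, h1, h2⟩ := hl ⟨1, X, A, B, hs, ht⟩
  refine ⟨P.map h.op u, ?_, ?_⟩
  · unfold act; rw [map_map, h1]
  · unfold act; rw [map_map, h2]

end

end Pool.Agent.W_MP_0394fb_al
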