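import Pool.Agent.W_MP_0394fb_al.Fund

set_option autoImplicit false

open CategoryTheory Opposite

namespace Pool.Agent.W_MP_0394fb_al

variable {C : Type} [Category.{0} C] {G : Coglob C}

/-- A context: operations and liftings. -/
structure Ctx (G : Coglob C) where
  O : Ops G
  hG : G.IsExtension
  hl : ∀ p : ParPair G, ∃ h, G.IsLifting p.f p.g h

lemma exists_ctx (hG : G.IsExtension) (hl : ∀ p : ParPair G, ∃ h, G.IsLifting p.f p.g h) :
    Nonempty (Ctx G) := by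
  obtain ⟨O⟩ := exists_ops hG hl
  exact ⟨⟨O, hG, hl⟩⟩

variable (X : Ctx G) {P : Cᵒᵖ ⥤ Type} (hP : IsGpd G P)

include X in
lemma Homot.refl (a : P.obj (op (G.D 1))) : Homot G P a a := by
  have := coh (P := P) X.hl (𝟙 (G.D 1)) (𝟙 (G.D 1)) rfl rfl a
  simpa using this

lemma src_src {a : P.obj (op (G.D 2))} :
    src (P.map (G.σ 1).op a) = src (P.map (G.τ 1).op a) := by
  unfold src; rw [map_map, map_map, G.σσ]

lemma tgt_tgt {a : P.obj (op (G.D 2))} :
    tgt (P.map (G.σ 1).op a) = tgt (P.map (G.τ 1).op a) := by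
  unfold tgt; rw [map_map, map_map, G.ττ]

lemma Homot.src_eq {a b : P.obj (op (G.D 1))} (h : Homot G P a b) : src a = src b := by
  obtain ⟨z, rfl, rfl⟩ := h
  exact src_src

lemma Homot.tgt_eq {a b : P.obj (op (G.D 1))} (h : Homot G P a b) : tgt a = tgt b := by
  obtain ⟨z, rfl, rfl⟩ := h
  exact tgt_tgt

lemma comp_congr {a a' b b' : P.obj (op (G.D 1))} (ha : Homot G P a a') (hb : Homot G P b b')
    (h : src a = tgt b) (h' : src a' = tgt b') :
    Homot G P (comp X.O hP a b h) (comp X.O hP a' b' h') := by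
  obtain ⟨z, rfl, rfl⟩ := ha
  obtain ⟨w, rfl, rfl⟩ := hb
  obtain ⟨Y, i, hi, hY⟩ := exists_const X.hG 1 2 0 (by norm_num)
  have hi0 := hi 0
  rw [sIter_zero_two, tIter_zero_two] at hi0
  simp only [Fin.castSucc_zero, Fin.succ_zero_eq_one] at hi0
  obtain ⟨u, hu, -⟩ := hY P hP ![z, w] (fun k => by
    have hk : k = 0 := Subsingleton.elim _ _
    subst hk
    rw [sIter_zero_two, tIter_zero_two]
    simp only [Fin.castSucc_zero, Fin.succ_zero_eq_one, Matrix.cons_val_zero,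
      Matrix.cons_val_one]
    rw [← map_map, ← map_map]
    exact h.trans tgt_tgt)
  have hu0 : P.map (i 0).op u = z := hu 0
  have hu1 : P.map (i 1).op u = w := hu 1
  have hA : G.σ 0 ≫ G.σ 1 ≫ i 0 = G.τ 0 ≫ G.σ 1 ≫ i 1 := by
    rw [← Category.assoc, hi0, ← Category.assoc, G.ττ]
  have hB : G.σ 0 ≫ G.τ 1 ≫ i 0 = G.τ 0 ≫ G.τ 1 ≫ i 1 := by
    rw [← Category.assoc, ← G.σσ, hi0, Category.assoc]
  have h1 := coh (P := P) X.hl (compC X.O (G.σ 1 ≫ i 0) (G.σ 1 ≫ i 1) hA)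
    (compC X.O (G.τ 1 ≫ i 0) (G.τ 1 ≫ i 1) hB)
    (by rw [src_compC, src_compC, ← Category.assoc, G.σσ, Category.assoc])
    (by rw [tgt_compC, tgt_compC, ← Category.assoc, G.ττ, Category.assoc]) u
  rw [map_compC X.O hP _ _ _ _ (by rw [← map_map, ← map_map, hu0, hu1]; exact h),
    map_compC X.O hP _ _ _ _ (by rw [← map_map, ← map_map, hu0, hu1]; exact h')] at h1
  simp only [← map_map, hu0, hu1] at h1
  exact h1

lemma comp_assoc {a b c : P.obj (op (G.D 1))} (h1 : src a = tgt b) (h2 : src b = tgt c)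
    (h3 : src (comp X.O hP a b h1) = tgt c) (h4 : src a = tgt (comp X.O hP b c h2)) :
    Homot G P (comp X.O hP (comp X.O hP a b h1) c h3)
      (comp X.O hP a (comp X.O hP b c h2) h4) := by
  obtain ⟨Y, i, hi, hY⟩ := exists_const X.hG 2 1 0 (by norm_num)
  have hi0 := hi 0
  have hi1 := hi 1
  rw [sIter_zero_one, tIter_zero_one] at hi0 hi1
  change G.σ 0 ≫ i 0 = G.τ 0 ≫ i 1 at hi0
  change G.σ 0 ≫ i 1 = G.τ 0 ≫ i 2 at hi1
  obtain ⟨u, hu, -⟩ := hY P hP ![a, b, c] (fun k => by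
    rw [sIter_zero_one, tIter_zero_one]
    have hk : k = 0 ∨ k = 1 := by
      have : ∀ k : Fin 2, k = 0 ∨ k = 1 := by decide
      exact this k
    rcases hk with rfl | rfl
    · exact h1
    · exact h2)
  have hu0 : P.map (i 0).op u = a := hu 0
  have hu1 : P.map (i 1).op u = b := hu 1
  have hu2 : P.map (i 2).op u = c := hu 2
  have e1 : G.σ 0 ≫ compC X.O (i 0) (i 1) hi0 = G.τ 0 ≫ i 2 := by rw [src_compC, hi1]
  have e2 : G.σ 0 ≫ i 0 = G.τ 0 ≫ compC X.O (i 1) (i 2) hi1 := by rw [tgt_compC, hi0]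
  have key := coh (P := P) X.hl (compC X.O (compC X.O (i 0) (i 1) hi0) (i 2) e1)
    (compC X.O (i 0) (compC X.O (i 1) (i 2) hi1) e2)
    (by rw [src_compC, src_compC, src_compC]) (by rw [tgt_compC, tgt_compC, tgt_compC]) u
  have e3 : P.map (compC X.O (i 0) (i 1) hi0).op u = comp X.O hP a b h1 := by
    rw [map_compC X.O hP _ _ _ _ (by rw [hu0, hu1]; exact h1)]
    simp only [hu0, hu1]
  have e4 : P.map (compC X.O (i 1) (i 2) hi1).op u = comp X.O hP b c h2 := by
    rw [map_compC X.O hP _ _ _ _ (by rw [hu1, hu2]; exact h2)]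
    simp only [hu1, hu2]
  rw [map_compC X.O hP (compC X.O (i 0) (i 1) hi0) (i 2) e1 u (by rw [e3, hu2]; exact h3),
    map_compC X.O hP (i 0) (compC X.O (i 1) (i 2) hi1) e2 u (by rw [e4, hu0]; exact h4)] at key
  simp only [e3, e4, hu0, hu2] at key
  exact key

lemma comp_unit_right {a : P.obj (op (G.D 1))} (h : src a = tgt (P.map X.O.κ.op (src a))) :
    Homot G P (comp X.O hP a (P.map X.O.κ.op (src a)) h) a := by
  have e1 : G.σ 0 ≫ 𝟙 (G.D 1) = G.τ 0 ≫ X.O.κ ≫ G.σ 0 := by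
    rw [← Category.assoc, X.O.κ_t, Category.comp_id, Category.id_comp]
  have key := coh (P := P) X.hl (compC X.O (𝟙 (G.D 1)) (X.O.κ ≫ G.σ 0) e1) (𝟙 _)
    (by rw [src_compC, ← Category.assoc, X.O.κ_s, Category.comp_id, Category.id_comp])
    (by rw [tgt_compC]) a
  rw [map_compC X.O hP _ _ _ _ (by rw [← map_map]; simpa using h)] at key
  simpa [← map_map] using key

lemma comp_unit_left {a : P.obj (op (G.D 1))} (h : src (P.map X.O.κ.op (tgt a)) = tgt a) :
    Homot G P (comp X.O hP (P.map X.O.κ.op (tgt a)) a h) a := by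
  have e1 : G.σ 0 ≫ X.O.κ ≫ G.τ 0 = G.τ 0 ≫ 𝟙 (G.D 1) := by
    rw [← Category.assoc, X.O.κ_s, Category.comp_id, Category.id_comp]
  have key := coh (P := P) X.hl (compC X.O (X.O.κ ≫ G.τ 0) (𝟙 (G.D 1)) e1) (𝟙 _)
    (by rw [src_compC])
    (by rw [tgt_compC, ← Category.assoc, X.O.κ_t, Category.comp_id, Category.id_comp]) a
  rw [map_compC X.O hP _ _ _ _ (by rw [← map_map]; simpa using h)] at key
  simpa [← map_map] using key

lemma comp_inv_right {a : P.obj (op (G.D 1))} (h : src a = tgt (P.map X.O.inv.op a)) :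
    Homot G P (comp X.O hP a (P.map X.O.inv.op a) h) (P.map X.O.κ.op (tgt a)) := by
  have e1 : G.σ 0 ≫ 𝟙 (G.D 1) = G.τ 0 ≫ X.O.inv := by
    rw [X.O.inv_t, Category.comp_id]
  have key := coh (P := P) X.hl (compC X.O (𝟙 (G.D 1)) X.O.inv e1) (X.O.κ ≫ G.τ 0)
    (by rw [src_compC, X.O.inv_s, ← Category.assoc, X.O.κ_s, Category.id_comp])
    (by rw [tgt_compC, ← Category.assoc, X.O.κ_t, Category.comp_id, Category.id_comp]) a
  rw [map_compC X.O hP _ _ _ _ (by simpa using h)] at key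
  simpa [← map_map] using key

lemma comp_inv_left {a : P.obj (op (G.D 1))} (h : src (P.map X.O.inv.op a) = tgt a) :
    Homot G P (comp X.O hP (P.map X.O.inv.op a) a h) (P.map X.O.κ.op (src a)) := by
  have e1 : G.σ 0 ≫ X.O.inv = G.τ 0 ≫ 𝟙 (G.D 1) := by
    rw [X.O.inv_s, Category.comp_id]
  have key := coh (P := P) X.hl (compC X.O X.O.inv (𝟙 (G.D 1)) e1) (X.O.κ ≫ G.σ 0)
    (by rw [src_compC, ← Category.assoc, X.O.κ_s, Category.comp_id, Category.id_comp])
    (by rw [tgt_compC, X.O.inv_t, ← Category.assoc, X.O.κ_t, Category.id_comp]) a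
  rw [map_compC X.O hP _ _ _ _ (by simpa using h)] at key
  simpa [← map_map] using key

end Pool.Agent.W_MP_0394fb_al
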