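import Pool.Agent.W_MP_0394fb_al.Fund2

set_option autoImplicit false

open CategoryTheory Opposite

namespace Pool.Agent.W_MP_0394fb_al

/-! ## Conjugacy classes of endomorphisms in a groupoid -/

universe v u v' u'

/-- Conjugacy classes of endomorphisms. -/
def ConjEnd (𝒢 : Type u) [Category.{v} 𝒢] : Type (max u v) :=
  Quot (fun p q : Σ x : 𝒢, (x ⟶ x) => ∃ c : p.1 ⟶ q.1, p.2 ≫ c = c ≫ q.2)

/-- functoriality of conjugacy classes -/
def ConjEnd.map {𝒢 : Type u} [Category.{v} 𝒢] {ℋ : Type u'} [Category.{v'} ℋ] (F : 𝒢 ⥤ ℋ) :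
    ConjEnd 𝒢 → ConjEnd ℋ :=
  Quot.map (fun p => ⟨F.obj p.1, F.map p.2⟩) (fun p q ⟨c, hc⟩ => ⟨F.map c, by
    simp only [← F.map_comp, hc]⟩)

lemma conj_equivalence (𝒢 : Type u) [Groupoid.{v} 𝒢] :
    Equivalence (fun p q : Σ x : 𝒢, (x ⟶ x) => ∃ c : p.1 ⟶ q.1, p.2 ≫ c = c ≫ q.2) where
  refl p := ⟨𝟙 _, by simp⟩
  symm := by
    rintro p q ⟨c, hc⟩
    exact ⟨Groupoid.inv c, by
      rw [← cancel_epi c]
      simp only [← Category.assoc, ← hc]
      simp⟩
  trans := by
    rintro p q r ⟨c, hc⟩ ⟨d, hd⟩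
    exact ⟨c ≫ d, by rw [← Category.assoc, hc, Category.assoc, hd, Category.assoc]⟩

lemma ConjEnd.map_bijective {𝒢 : Type u} [Groupoid.{v} 𝒢] {ℋ : Type u'} [Groupoid.{v'} ℋ]
    (F : 𝒢 ⥤ ℋ) [F.Full] [F.Faithful] [F.EssSurj] : Function.Bijective (ConjEnd.map F) := by
  constructor
  · intro p q h
    induction p using Quot.ind with | _ p => ?_
    induction q using Quot.ind with | _ q => ?_
    have h' := (Equivalence.quot_mk_eq_iff (conj_equivalence ℋ) _ _).1 h
    obtain ⟨c, hc⟩ := h'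
    apply Quot.sound
    refine ⟨F.preimage c, F.map_injective ?_⟩
    rw [F.map_comp, F.map_comp, F.map_preimage]
    exact hc
  · intro q
    induction q using Quot.ind with | _ q => ?_
    obtain ⟨y, b⟩ := q
    let x := F.objPreimage y
    let e : F.obj x ≅ y := F.objObjPreimageIso y
    refine ⟨Quot.mk _ ⟨x, F.preimage (e.hom ≫ b ≫ e.inv)⟩, ?_⟩
    apply Quot.sound
    refine ⟨e.hom, ?_⟩
    change F.map (F.preimage (e.hom ≫ b ≫ e.inv)) ≫ e.hom = e.hom ≫ b
    rw [F.map_preimage]
    simp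

variable {C : Type} [Category.{0} C] {G : Coglob C} (X : Ctx G)

/-- Objects of the fundamental groupoid of an infinity-groupoid. -/
@[ext]
structure FObj (X : Ctx G) (P : Gpd G) : Type where
  pt : P.obj.obj (op (G.D 0))

/-- arrows between given objects -/
def Arr {P : Gpd G} (x y : FObj X P) : Type :=
  {a : P.obj.obj (op (G.D 1)) // src a = x.pt ∧ tgt a = y.pt}

/-- Arrows of the fundamental groupoid. -/
def FHom {P : Gpd G} (x y : FObj X P) : Type :=
  Quot (fun a b : Arr X x y => Homot G P.obj a.1 b.1)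

variable {X}

lemma FHom.sound {P : Gpd G} {x y : FObj X P} {a b : Arr X x y} (h : Homot G P.obj a.1 b.1) :
    (Quot.mk _ a : FHom X x y) = Quot.mk _ b := Quot.sound h

/-- composition of arrows -/
noncomputable def Arr.comp {P : Gpd G} {x y z : FObj X P} (a : Arr X x y) (b : Arr X y z) :
    Arr X x z :=
  ⟨Pool.Agent.W_MP_0394fb_al.comp X.O P.property b.1 a.1 (b.2.1.trans a.2.2.symm),
    (src_comp X.O P.property _).trans a.2.1, (tgt_comp X.O P.property _).trans b.2.2⟩

/-- units -/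
def Arr.id {P : Gpd G} (x : FObj X P) : Arr X x x :=
  ⟨P.obj.map X.O.κ.op x.pt, by
    unfold src; rw [map_map, X.O.κ_s]; simp, by
    unfold tgt; rw [map_map, X.O.κ_t]; simp⟩

/-- inverses -/
def Arr.inv {P : Gpd G} {x y : FObj X P} (a : Arr X x y) : Arr X y x :=
  ⟨P.obj.map X.O.inv.op a.1, by
    unfold src; rw [map_map, X.O.inv_s]; exact a.2.2, by
    unfold tgt; rw [map_map, X.O.inv_t]; exact a.2.1⟩

/-- composition of homotopy classes of arrows -/
noncomputable def FHom.comp {P : Gpd G} {x y z : FObj X P} (f : FHom X x y) (g : FHom X y z) :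
    FHom X x z :=
  Quot.map₂ Arr.comp
    (fun a b b' h => comp_congr X P.property h (Homot.refl X _)
      (b.2.1.trans a.2.2.symm) (b'.2.1.trans a.2.2.symm))
    (fun a a' b h => comp_congr X P.property (Homot.refl X _) h
      (b.2.1.trans a.2.2.symm) (b.2.1.trans a'.2.2.symm)) f g

/-- inverses of homotopy classes of arrows -/
def FHom.inv {P : Gpd G} {x y : FObj X P} (f : FHom X x y) : FHom X y x :=
  Quot.map Arr.inv (fun a b h => by
    obtain ⟨z, hz1, hz2⟩ := h
    have key := coh (P := P.obj) X.hl (X.O.inv ≫ G.σ 1) (X.O.inv ≫ G.τ 1)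
      (by rw [← Category.assoc, ← Category.assoc, X.O.inv_s, G.ττ])
      (by rw [← Category.assoc, ← Category.assoc, X.O.inv_t, G.σσ]) z
    unfold act at hz1 hz2
    rw [← map_map, ← map_map, hz1, hz2] at key
    exact key) f

noncomputable instance (P : Gpd G) : Groupoid (FObj X P) where
  Hom x y := FHom X x y
  id x := Quot.mk _ (Arr.id x)
  comp f g := FHom.comp f g
  id_comp := by
    intro x y f
    induction f using Quot.ind with | _ a => ?_
    apply FHom.sound
    have h := comp_unit_right X P.property (a := a.1)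
      (by unfold tgt; rw [map_map, X.O.κ_t]; simp)
    have e : P.obj.map X.O.κ.op x.pt = P.obj.map X.O.κ.op (src a.1) := by rw [a.2.1]
    unfold Arr.comp Arr.id
    simp only [e]
    exact h
  comp_id := by
    intro x y f
    induction f using Quot.ind with | _ a => ?_
    apply FHom.sound
    have h := comp_unit_left X P.property (a := a.1)
      (by unfold src; rw [map_map, X.O.κ_s]; simp)
    have e : P.obj.map X.O.κ.op y.pt = P.obj.map X.O.κ.op (tgt a.1) := by rw [a.2.2]
    unfold Arr.comp Arr.id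
    simp only [e]
    exact h
  assoc := by
    intro x y z w f g h
    induction f using Quot.ind with | _ a => ?_
    induction g using Quot.ind with | _ b => ?_
    induction h using Quot.ind with | _ c => ?_
    apply Eq.symm
    apply FHom.sound
    exact comp_assoc X P.property (a := c.1) (b := b.1) (c := a.1)
      (c.2.1.trans b.2.2.symm) (b.2.1.trans a.2.2.symm)
      ((src_comp X.O P.property _).trans (b.2.1.trans a.2.2.symm))
      (c.2.1.trans (b.2.2.symm.trans (tgt_comp X.O P.property _).symm))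
  inv f := FHom.inv f
  inv_comp := by
    intro x y f
    induction f using Quot.ind with | _ a => ?_
    apply FHom.sound
    have h := comp_inv_right X P.property (a := a.1)
      (by unfold tgt; rw [map_map, X.O.inv_t])
    have e : P.obj.map X.O.κ.op y.pt = P.obj.map X.O.κ.op (tgt a.1) := by rw [a.2.2]
    unfold Arr.comp Arr.id
    simp only [e]
    exact h
  comp_inv := by
    intro x y f
    induction f using Quot.ind with | _ a => ?_
    apply FHom.sound
    have h := comp_inv_left X P.property (a := a.1)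
      (by unfold src; rw [map_map, X.O.inv_s])
    have e : P.obj.map X.O.κ.op x.pt = P.obj.map X.O.κ.op (src a.1) := by rw [a.2.1]
    unfold Arr.comp Arr.id
    simp only [e]
    exact h

/-- the arrow given by a 1-cell -/
def Arr.cls {P : Gpd G} {x y : FObj X P} (a : Arr X x y) : x ⟶ y :=
  (Quot.mk _ a : FHom X x y)

lemma Arr.cls_eq {P : Gpd G} {x y : FObj X P} {a b : Arr X x y} (h : Homot G P.obj a.1 b.1) :
    a.cls = b.cls := FHom.sound h

lemma Arr.cls_comp {P : Gpd G} {x y z : FObj X P} (a : Arr X x y) (b : Arr X y z) :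
    a.cls ≫ b.cls = (a.comp b).cls := rfl

lemma Arr.exists_rep {P : Gpd G} {x y : FObj X P} (g : x ⟶ y) : ∃ a : Arr X x y, a.cls = g :=
  Quot.exists_rep g

/-- functoriality -/
def Arr.map {P Q : Gpd G} (f : P ⟶ Q) {x y : FObj X P} (a : Arr X x y) :
    Arr X (⟨f.hom.app _ x.pt⟩ : FObj X Q) ⟨f.hom.app _ y.pt⟩ :=
  ⟨f.hom.app _ a.1, by
    unfold src; rw [← NatTrans.naturality_apply]; exact congrArg _ a.2.1, by
    unfold tgt; rw [← NatTrans.naturality_apply]; exact congrArg _ a.2.2⟩

/-- functoriality on homotopy classes -/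
def FHom.map {P Q : Gpd G} (f : P ⟶ Q) {x y : FObj X P} (g : FHom X x y) :
    FHom X (⟨f.hom.app _ x.pt⟩ : FObj X Q) ⟨f.hom.app _ y.pt⟩ :=
  Quot.map (Arr.map f) (fun _ _ h => Homot.map f.hom h) g

/-- functoriality of the fundamental groupoid -/
noncomputable def fmap (X : Ctx G) {P Q : Gpd G} (f : P ⟶ Q) : FObj X P ⥤ FObj X Q where
  obj x := ⟨f.hom.app _ x.pt⟩
  map g := FHom.map f g
  map_id x := by
    apply congrArg (Quot.mk _)
    apply Subtype.ext
    exact NatTrans.naturality_apply f.hom X.O.κ.op x.pt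
  map_comp {x y z} g h := by
    obtain ⟨a, rfl⟩ := Arr.exists_rep g
    obtain ⟨b, rfl⟩ := Arr.exists_rep h
    apply congrArg (Quot.mk _)
    apply Subtype.ext
    exact map_comp X.O P.property Q.property f.hom (b.2.1.trans a.2.2.symm)
      ((Arr.map f b).2.1.trans (Arr.map f a).2.2.symm)

/-- comparison with the set `π_1` -/
def toPiOne (κ : Units G) {R : Gpd G} (y : FObj X R) (g : FHom X y y) :
    PiSucc κ R.obj 0 y.pt :=
  Quot.map (fun a : Arr X y y => (⟨a.1, by
    have e : R.obj.map (𝟙 (G.D 0)).op y.pt = y.pt := by simp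
    exact ⟨a.2.1.trans e.symm, a.2.2.trans e.symm⟩⟩ : Loop κ R.obj 0 y.pt)) (fun _ _ h => h) g

/-- comparison with the set `π_1` -/
def ofPiOne (κ : Units G) {R : Gpd G} (y : FObj X R) (g : PiSucc κ R.obj 0 y.pt) :
    FHom X y y :=
  Quot.map (fun a : Loop κ R.obj 0 y.pt => (⟨a.1, by
    have e : R.obj.map (𝟙 (G.D 0)).op y.pt = y.pt := by simp
    exact ⟨a.2.1.trans e, a.2.2.trans e⟩⟩ : Arr X y y)) (fun _ _ h => h) g

lemma toPiOne_ofPiOne (κ : Units G) {R : Gpd G} (y : FObj X R) (g : PiSucc κ R.obj 0 y.pt) :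
    toPiOne κ y (ofPiOne κ y g) = g := by
  induction g using Quot.ind with | _ a => ?_
  rfl

lemma ofPiOne_toPiOne (κ : Units G) {R : Gpd G} (y : FObj X R) (g : FHom X y y) :
    ofPiOne κ y (toPiOne κ y g) = g := by
  induction g using Quot.ind with | _ a => ?_
  rfl

/-- equality in `Pi0` gives an arrow -/
lemma exists_arrow {R : Gpd G} (x y : R.obj.obj (op (G.D 0)))
    (h : (Quot.mk _ x : Pi0 G R.obj) = Quot.mk _ y) :
    Nonempty ((⟨x⟩ : FObj X R) ⟶ (⟨y⟩ : FObj X R)) := by
  have h' := Quot.eqvGen_exact h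
  clear h
  induction h' with
  | rel x y h =>
    obtain ⟨z, hz1, hz2⟩ := h
    exact ⟨Arr.cls ⟨z, hz1, hz2⟩⟩
  | refl x => exact ⟨𝟙 _⟩
  | symm x y _ ih => exact ih.map (fun g => Groupoid.inv g)
  | trans x y z _ _ ih1 ih2 => exact ⟨ih1.some ≫ ih2.some⟩

lemma fmap_aut_bijective {P Q : Gpd G} (f : P ⟶ Q) (hf : gpdW G f) (x : FObj X P) :
    Function.Bijective (fun g : x ⟶ x => (fmap X f).map g) := by
  obtain ⟨κ⟩ : Nonempty (Units G) := by
    choose κ hκ using fun i => X.hl ⟨i, G.D i, 𝟙 _, 𝟙 _, by cases i <;> simp [Coglob.Parallel]⟩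
    exact ⟨⟨κ, hκ⟩⟩
  have hb := hf.2 κ 0 x.pt
  have hcomm : (fun g : x ⟶ x => (fmap X f).map g) =
      ofPiOne κ ((fmap X f).obj x) ∘ PiSucc.map (κ := κ) f.hom (i := 0) (x := x.pt) ∘
        toPiOne κ x := by
    funext g
    obtain ⟨a, rfl⟩ := Arr.exists_rep g
    rfl
  rw [hcomm]
  refine Function.Bijective.comp ?_ (Function.Bijective.comp hb ?_)
  · exact ⟨Function.LeftInverse.injective (toPiOne_ofPiOne κ _),
      Function.RightInverse.surjective (ofPiOne_toPiOne κ _)⟩
  · exact ⟨Function.LeftInverse.injective (ofPiOne_toPiOne κ _),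
      Function.RightInverse.surjective (toPiOne_ofPiOne κ _)⟩

lemma fmap_full_faithful_essSurj {P Q : Gpd G} (f : P ⟶ Q) (hf : gpdW G f) :
    (fmap X f).Full ∧ (fmap X f).Faithful ∧ (fmap X f).EssSurj := by
  have hloop := fmap_aut_bijective (X := X) f hf
  obtain ⟨h0, h1⟩ := hf
  refine ⟨⟨?_⟩, ⟨?_⟩, ⟨?_⟩⟩
  · -- full
    intro x y c
    -- an arrow x ⟶ y
    have h2 : (Quot.mk _ x.pt : Pi0 G P.obj) = Quot.mk _ y.pt := by
      apply h0.1
      obtain ⟨a, -⟩ := Arr.exists_rep c
      exact Quot.sound ⟨a.1, a.2.1, a.2.2⟩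
    obtain ⟨d⟩ := exists_arrow (X := X) _ _ h2
    obtain ⟨e, he⟩ := (hloop x).2 (c ≫ Groupoid.inv ((fmap X f).map d))
    refine ⟨e ≫ d, ?_⟩
    rw [Functor.map_comp]
    have he' : (fmap X f).map e = c ≫ Groupoid.inv ((fmap X f).map d) := he
    rw [he', Category.assoc]
    simp
  · -- faithful
    intro x y a b hab
    have h2 : (fmap X f).map (a ≫ Groupoid.inv b) = (fmap X f).map (𝟙 x) := by
      rw [Functor.map_comp, hab, ← Functor.map_comp]
      simp
    have h3 := (hloop x).1 h2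
    have h4 := congrArg (fun g => g ≫ b) h3
    simpa using h4
  · -- essentially surjective
    intro y
    obtain ⟨p, hp⟩ := h0.2 (Quot.mk _ y.pt)
    induction p using Quot.ind with | _ x => ?_
    obtain ⟨d⟩ := exists_arrow (X := X) _ _ hp
    exact ⟨⟨x⟩, ⟨(Groupoid.isoEquivHom _ _).symm d⟩⟩

/-- The detecting functor: conjugacy classes of automorphisms in the fundamental groupoid. -/
noncomputable def detect (X : Ctx G) : Gpd G ⥤ Type where
  obj P := ConjEnd (FObj X P)
  map f := ↾(ConjEnd.map (fmap X f))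
  map_id P := by
    ext p
    induction p using Quot.ind with | _ p => ?_
    obtain ⟨x, g⟩ := p
    obtain ⟨a, rfl⟩ := Arr.exists_rep g
    rfl
  map_comp f g := by
    ext p
    induction p using Quot.ind with | _ p => ?_
    obtain ⟨x, h⟩ := p
    obtain ⟨a, rfl⟩ := Arr.exists_rep h
    rfl

lemma detect_inverts (X : Ctx G) : (gpdW G).IsInvertedBy (detect X) := by
  intro P Q f hf
  obtain ⟨h1, h2, h3⟩ := fmap_full_faithful_essSurj (X := X) f hf
  rw [isIso_iff_bijective]
  exact ConjEnd.map_bijective (fmap X f)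

end Pool.Agent.W_MP_0394fb_al
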