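import Pool.Agent.W_MP_0394fb_al.Contract

set_option autoImplicit false

open CategoryTheory Opposite

namespace Pool.Agent.W_MP_0394fb_al

/-! ## Liftings in globular sums of disks -/

lemma Disk.exists_of_boundary {i : ℕ} (w : Disk (i + 1)) (hw : ∑ j, w.1 j ^ 2 = 1) :
    (w.1 (Fin.last i) ≤ 0 ∧ w = w.proj.south) ∨ (0 ≤ w.1 (Fin.last i) ∧ w = w.proj.north) := by
  have h1 : ∑ j, w.proj.1 j ^ 2 + w.1 (Fin.last i) ^ 2 = 1 := by
    rw [Fin.sum_univ_castSucc] at hw; exact hw
  have h2 : w.proj.ht = |w.1 (Fin.last i)| := by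
    unfold Disk.ht
    rw [← Real.sqrt_sq_eq_abs]
    congr 1
    linarith
  rcases le_total (w.1 (Fin.last i)) 0 with h | h
  · left
    refine ⟨h, Subtype.ext (funext fun j => ?_)⟩
    refine Fin.lastCases ?_ (fun j => ?_) j
    · simp only [Disk.south, Fin.snoc_last]
      rw [h2, abs_of_nonpos h, neg_neg]
    · simp only [Disk.south, Fin.snoc_castSucc]; rfl
  · right
    refine ⟨h, Subtype.ext (funext fun j => ?_)⟩
    refine Fin.lastCases ?_ (fun j => ?_) j
    · simp only [Disk.north, Fin.snoc_last]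
      rw [h2, abs_of_nonneg h]
    · simp only [Disk.north, Fin.snoc_castSucc]; rfl

lemma boundary_eq {i : ℕ} {Y : TopCat.{0}} (f g : disks.D i ⟶ Y) (h : disks.Parallel f g)
    (w : Disk i) (hw : ∑ j, w.1 j ^ 2 = 1) : f.hom w = g.hom w := by
  cases i with
  | zero => simp at hw
  | succ i =>
    obtain ⟨h1, h2⟩ := h
    rcases w.exists_of_boundary hw with ⟨-, h3⟩ | ⟨-, h3⟩
    · rw [h3]
      exact ConcreteCategory.congr_hom h1 w.proj
    · rw [h3]
      exact ConcreteCategory.congr_hom h2 w.proj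

/-- the norm -/
noncomputable def Disk.nm {i : ℕ} (z : Disk i) : ℝ := Real.sqrt (∑ j, z.1 j ^ 2)

lemma Disk.continuous_nm {i : ℕ} : Continuous (Disk.nm (i := i)) :=
  Real.continuous_sqrt.comp
    (continuous_finsetSum _ fun j _ => (Disk.continuous_coord j).pow 2)

lemma Disk.nm_sq {i : ℕ} (z : Disk i) : z.nm ^ 2 = ∑ j, z.1 j ^ 2 :=
  Real.sq_sqrt (Finset.sum_nonneg fun j _ => sq_nonneg _)

lemma Disk.nm_nonneg {i : ℕ} (z : Disk i) : 0 ≤ z.nm := Real.sqrt_nonneg _

lemma Disk.den_pos {i : ℕ} (z : Disk i) : 0 < max z.nm (1 / 2) :=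
  lt_of_lt_of_le (by norm_num) (le_max_right _ _)

lemma Disk.proj_sum_le {i : ℕ} (z : Disk (i + 1)) :
    ∑ j, z.proj.1 j ^ 2 + z.1 (Fin.last i) ^ 2 = z.nm ^ 2 := by
  rw [Disk.nm_sq, Fin.sum_univ_castSucc]; rfl

/-- rescaled projection -/
noncomputable def Disk.wp {i : ℕ} (z : Disk (i + 1)) : Disk i :=
  ⟨fun j => z.proj.1 j / max z.nm (1 / 2), by
    have h1 := z.proj_sum_le
    have h2 : z.nm ≤ max z.nm (1 / 2) := le_max_left _ _
    have h3 := z.den_pos
    have h4 := z.nm_nonneg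
    simp only [div_pow]
    rw [← Finset.sum_div, div_le_one (by positivity)]
    nlinarith [sq_nonneg (z.1 (Fin.last i))]⟩

lemma Disk.continuous_wp {i : ℕ} : Continuous (Disk.wp (i := i)) := by
  refine Continuous.subtype_mk (continuous_pi fun j => ?_) _
  exact ((Disk.continuous_coord j).comp Disk.continuous_proj).div
    (Disk.continuous_nm.max continuous_const) (fun z => z.den_pos.ne')

/-- time -/
noncomputable def Disk.tm {i : ℕ} (z : Disk i) : unitInterval :=
  Set.projIcc 0 1 zero_le_one (2 - 2 * z.nm)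

lemma Disk.continuous_tm {i : ℕ} : Continuous (Disk.tm (i := i)) :=
  continuous_projIcc.comp (continuous_const.sub (continuous_const.mul Disk.continuous_nm))

lemma Disk.tm_of_nm_one {i : ℕ} (z : Disk i) (h : z.nm = 1) : z.tm = 0 := by
  unfold Disk.tm
  rw [h]
  exact Set.projIcc_of_le_left _ (by norm_num)

lemma Disk.tm_of_nm_le {i : ℕ} (z : Disk i) (h : z.nm ≤ 1 / 2) : z.tm = 1 := by
  unfold Disk.tm
  exact Set.projIcc_of_right_le _ (by linarith)

lemma Disk.wp_of_nm_one {i : ℕ} (z : Disk (i + 1)) (h : z.nm = 1) : z.wp = z.proj := by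
  apply Subtype.ext
  funext j
  simp only [Disk.wp, h]
  norm_num

lemma Disk.wp_boundary {i : ℕ} (z : Disk (i + 1)) (h : 1 / 2 ≤ z.nm)
    (h0 : z.1 (Fin.last i) = 0) : ∑ j, z.wp.1 j ^ 2 = 1 := by
  have h1 := z.proj_sum_le
  rw [h0] at h1
  simp only [Disk.wp, div_pow]
  rw [← Finset.sum_div, max_eq_left h]
  have h2 : z.nm ^ 2 ≠ 0 := by positivity
  rw [div_eq_one_iff_eq h2]
  linarith

lemma Disk.nm_south {i : ℕ} (x : Disk i) : x.south.nm = 1 := by
  have : ∑ j, x.south.1 j ^ 2 = 1 := by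
    unfold Disk.south; rw [Disk.sum_snoc, neg_sq, Disk.ht_sq]; ring
  unfold Disk.nm; rw [this]; simp

lemma Disk.nm_north {i : ℕ} (x : Disk i) : x.north.nm = 1 := by
  have : ∑ j, x.north.1 j ^ 2 = 1 := by
    unfold Disk.north; rw [Disk.sum_snoc, Disk.ht_sq]; ring
  unfold Disk.nm; rw [this]; simp

lemma Disk.last_south {i : ℕ} (x : Disk i) : x.south.1 (Fin.last i) = -x.ht := by
  simp [Disk.south]

lemma Disk.last_north {i : ℕ} (x : Disk i) : x.north.1 (Fin.last i) = x.ht := by
  simp [Disk.north]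

lemma Disk.ht_nonneg {i : ℕ} (x : Disk i) : 0 ≤ x.ht := Real.sqrt_nonneg _

/-- Parallel pairs with values in a contractible space have liftings. -/
theorem disks_lift {i : ℕ} {Y : TopCat.{0}} (hY : ContractibleSpace Y) (f g : disks.D i ⟶ Y)
    (h : disks.Parallel f g) : ∃ l, disks.IsLifting f g l := by
  rw [contractible_iff_id_nullhomotopic] at hY
  obtain ⟨p, ⟨F⟩⟩ := hY
  let f' : Disk i → Y := fun x => f.hom x
  let g' : Disk i → Y := fun x => g.hom x
  have hf' : Continuous f' := f.hom.continuous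
  have hg' : Continuous g' := g.hom.continuous
  have hfg : ∀ w : Disk i, ∑ j, w.1 j ^ 2 = 1 → f' w = g' w := fun w hw =>
    boundary_eq f g h w hw
  have F0 : ∀ y, F (0, y) = y := fun y => F.map_zero_left y
  have F1 : ∀ y, F (1, y) = p := fun y => F.map_one_left y
  let L : Disk (i + 1) → Y := fun z =>
    if z.1 (Fin.last i) ≤ 0 then F (z.tm, f' z.wp) else F (z.tm, g' z.wp)
  have hL : Continuous L := by
    refine Continuous.if_le ?_ ?_ (Disk.continuous_coord (Fin.last i)) continuous_const ?_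
    · exact F.continuous.comp (Disk.continuous_tm.prodMk (hf'.comp Disk.continuous_wp))
    · exact F.continuous.comp (Disk.continuous_tm.prodMk (hg'.comp Disk.continuous_wp))
    · intro z hz
      rcases le_total (1 / 2) z.nm with h1 | h1
      · rw [hfg _ (z.wp_boundary h1 hz)]
      · rw [z.tm_of_nm_le h1, F1, F1]
  have Ls : ∀ x : Disk i, L x.south = f' x := by
    intro x
    have h1 : x.south.1 (Fin.last i) ≤ 0 := by
      rw [Disk.last_south]; linarith [x.ht_nonneg]
    simp only [L]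
    rw [if_pos h1, Disk.tm_of_nm_one _ x.nm_south, F0, Disk.wp_of_nm_one _ x.nm_south,
      Disk.proj_south]
  have Ln : ∀ x : Disk i, L x.north = g' x := by
    intro x
    simp only [L]
    by_cases h1 : x.north.1 (Fin.last i) ≤ 0
    · have h2 : x.ht = 0 := by
        rw [Disk.last_north] at h1
        exact le_antisymm h1 x.ht_nonneg
      have h3 : ∑ j, x.1 j ^ 2 = 1 := by
        have := x.ht_sq
        rw [h2] at this
        linarith
      rw [if_pos h1, Disk.tm_of_nm_one _ x.nm_north, F0, Disk.wp_of_nm_one _ x.nm_north,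
        Disk.proj_north, hfg x h3]
    · rw [if_neg h1, Disk.tm_of_nm_one _ x.nm_north, F0, Disk.wp_of_nm_one _ x.nm_north,
        Disk.proj_north]
  refine ⟨TopCat.ofHom ⟨L, hL⟩, ?_, ?_⟩
  · exact TopCat.hom_ext (ContinuousMap.ext fun x => Ls x)
  · exact TopCat.hom_ext (ContinuousMap.ext fun x => Ln x)

/-- Parallel pairs with values in a globular sum of disks have liftings. -/
theorem disks_lift_of_isGS {i : ℕ} {Y : TopCat.{0}} (hY : IsGS disks Y) (f g : disks.D i ⟶ Y)
    (h : disks.Parallel f g) : ∃ l, disks.IsLifting f g l := by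
  obtain ⟨⟨len, top, mid, hl, hr⟩, c, hc⟩ := hY
  exact disks_lift (contractible_of_isSum len top mid hl hr Y c hc) f g h

/-- Every coherator has a morphism to a globular extension with liftings of all parallel
pairs with values in globular sums. -/
lemma IsCoherator.exists_mor_of_gs {C : Type} [Category.{0} C] {G : Coglob C}
    (hG : IsCoherator G) (E : Type 1) [Category.{0} E] (H : Coglob E) (hH : H.IsExtension)
    (hl : ∀ (i : ℕ) (X : E), IsGS H X → ∀ (f g : H.D i ⟶ X), H.Parallel f g →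
      ∃ l, H.IsLifting f g l) :
    Nonempty (Mor G H) := by
  obtain ⟨𝒯, j, γ, hcol⟩ := hG.tower
  have hgs : ∀ n X, IsGS (𝒯.G n) X := by
    intro n
    induction n with
    | zero => exact theta0_isGS 𝒯.zero
    | succ n ih => exact free_isGS (𝒯.ext (n + 1)) ih (𝒯.ι n) (𝒯.p n) (𝒯.l n) (𝒯.free n)
  have step : ∀ (n : ℕ) (M : Mor (𝒯.G n) H), ∃ (N : Mor (𝒯.G (n + 1)) H),
      Nonempty (Iso2 ((𝒯.ι n).comp N).toUnder M.toUnder) := by
    intro n M
    have hM : ∀ X, IsGS H (M.K.obj X) := fun X => by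
      obtain ⟨T, c, hc⟩ := hgs n X
      exact ⟨T, _, M.pres T X c hc⟩
    choose m hm using fun a : 𝒯.A n => hl _ _ (hM _) (M.img (𝒯.p n a).f) (M.img (𝒯.p n a).g)
      (Parallel.img M.toUnder (𝒯.p n a).par)
    obtain ⟨N, α, -⟩ := ((𝒯.free n).2 E H hH).1 M m hm
    exact ⟨N, ⟨α⟩⟩
  choose next hnext using step
  obtain ⟨M0⟩ := (𝒯.zero.2 E H hH).1
  let M : ∀ n, Mor (𝒯.G n) H := fun n => Nat.rec M0 (fun n M => next n M) n
  obtain ⟨N, -⟩ := (hcol E H hH).1 M (fun n => (hnext n (M n)).some)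
  exact ⟨N⟩

/-- Every coherator has a globular-sum-preserving extension of the disks. -/
theorem IsCoherator.exists_real {C : Type} [Category.{0} C] {G : Coglob C}
    (hG : IsCoherator G) : Nonempty (Mor G disks) :=
  hG.exists_mor_of_gs TopCat.{0} disks disks_isExtension
    (fun _ _ hX f g h => disks_lift_of_isGS hX f g h)

end Pool.Agent.W_MP_0394fb_al
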