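import Pool.Agent.W_MP_0394fb_al.Free

set_option autoImplicit false

open CategoryTheory Opposite

namespace Pool.Agent.W_MP_0394fb_al

universe v u v' u'

/-! ## Direct limits of theories -/

/-- iterated sources -/
def PreThy.sI (t : PreThy) {i j : ℕ} (h : i ≤ j) : t.Hom (T1 i) (T1 j) := t.G.sIter h

/-- iterated targets -/
def PreThy.tI (t : PreThy) {i j : ℕ} (h : i ≤ j) : t.Hom (T1 i) (T1 j) := t.G.tIter h

lemma PreThy.sI_self (t : PreThy) (i : ℕ) : t.sI (le_refl i) = t.id _ := t.G.sIter_refl i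

lemma PreThy.tI_self (t : PreThy) (i : ℕ) : t.tI (le_refl i) = t.id _ := t.G.tIter_refl i

lemma PreThy.sI_succ (t : PreThy) {i j : ℕ} (h : i ≤ j) (h' : i ≤ j + 1) :
    t.sI h' = t.comp (t.sI h) (t.σ j) := t.G.sIter_succ h h'

lemma PreThy.tI_succ (t : PreThy) {i j : ℕ} (h : i ≤ j) (h' : i ≤ j + 1) :
    t.tI h' = t.comp (t.tI h) (t.τ j) := t.G.tIter_succ h h'

/-- the injections of the chosen sums -/
def Thy.ij (t : Thy) (T : Table) (k : Fin (T.len + 1)) : t.Hom (T1 (T.top k)) T := (t.c T).inj k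

lemma Thy.desc (t : Thy) {T Y : Table} (d : ∀ k, t.Hom (T1 (T.top k)) Y)
    (hd : ∀ k : Fin T.len, t.comp (t.sI (T.hl k).le) (d k.castSucc) =
      t.comp (t.tI (T.hr k).le) (d k.succ)) :
    ∃ u : t.Hom T Y, ∀ k, t.comp (t.ij T k) u = d k := by
  obtain ⟨u, hu, -⟩ := t.sum T Y ⟨d, hd⟩
  exact ⟨u, hu⟩

lemma Thy.hom_ext (t : Thy) {T Y : Table} {f g : t.Hom T Y}
    (h : ∀ k, t.comp (t.ij T k) f = t.comp (t.ij T k) g) : f = g :=
  (t.sum T).hom_ext h

/-- Sequences of theories. -/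
structure Sys where
  t : ℕ → Thy
  ι : ∀ n, ∀ {S T : Table}, (t n).Hom S T → (t (n + 1)).Hom S T
  id : ∀ n T, ι n ((t n).id T) = (t (n + 1)).id T
  comp : ∀ n {R S T : Table} (f : (t n).Hom R S) (g : (t n).Hom S T),
    ι n ((t n).comp f g) = (t (n + 1)).comp (ι n f) (ι n g)
  σ : ∀ n i, ι n ((t n).σ i) = (t (n + 1)).σ i
  τ : ∀ n i, ι n ((t n).τ i) = (t (n + 1)).τ i
  ij : ∀ n T k, ι n ((t n).ij T k) = (t (n + 1)).ij T k

namespace Sys

variable (s : Sys)

/-- transition maps -/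
def tr {n m : ℕ} (h : n ≤ m) {S T : Table} (f : (s.t n).Hom S T) : (s.t m).Hom S T :=
  Nat.leRec (motive := fun m _ => (s.t m).Hom S T) f (fun m _ g => s.ι m g) h

variable {s}

lemma tr_self {n : ℕ} {S T : Table} (f : (s.t n).Hom S T) : s.tr (le_refl n) f = f := by
  unfold tr; rw [Nat.leRec_self]

lemma tr_succ {n m : ℕ} (h : n ≤ m) (h' : n ≤ m + 1) {S T : Table} (f : (s.t n).Hom S T) :
    s.tr h' f = s.ι m (s.tr h f) := by
  unfold tr; rw [Nat.leRec_succ]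

lemma tr_tr {n m k : ℕ} (h : n ≤ m) (h' : m ≤ k) {S T : Table} (f : (s.t n).Hom S T) :
    s.tr h' (s.tr h f) = s.tr (h.trans h') f := by
  induction k, h' using Nat.le_induction with
  | base => rw [tr_self]
  | succ k h' ih => rw [tr_succ h', tr_succ (h.trans h'), ih]

lemma tr_id {n m : ℕ} (h : n ≤ m) (T : Table) : s.tr h ((s.t n).id T) = (s.t m).id T := by
  induction m, h using Nat.le_induction with
  | base => rw [tr_self]
  | succ m h ih => rw [tr_succ h, ih, s.id]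

lemma tr_comp {n m : ℕ} (h : n ≤ m) {R S T : Table} (f : (s.t n).Hom R S)
    (g : (s.t n).Hom S T) :
    s.tr h ((s.t n).comp f g) = (s.t m).comp (s.tr h f) (s.tr h g) := by
  induction m, h using Nat.le_induction with
  | base => rw [tr_self, tr_self, tr_self]
  | succ m h ih => rw [tr_succ h, tr_succ h, tr_succ h, ih, s.comp]

lemma tr_σ {n m : ℕ} (h : n ≤ m) (i : ℕ) : s.tr h ((s.t n).σ i) = (s.t m).σ i := by
  induction m, h using Nat.le_induction with
  | base => rw [tr_self]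
  | succ m h ih => rw [tr_succ h, ih, s.σ]

lemma tr_τ {n m : ℕ} (h : n ≤ m) (i : ℕ) : s.tr h ((s.t n).τ i) = (s.t m).τ i := by
  induction m, h using Nat.le_induction with
  | base => rw [tr_self]
  | succ m h ih => rw [tr_succ h, ih, s.τ]

lemma tr_ij {n m : ℕ} (h : n ≤ m) (T : Table) (k : Fin (T.len + 1)) :
    s.tr h ((s.t n).ij T k) = (s.t m).ij T k := by
  induction m, h using Nat.le_induction with
  | base => rw [tr_self]
  | succ m h ih => rw [tr_succ h, ih, s.ij]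

lemma tr_sI {n m : ℕ} (h : n ≤ m) {i j : ℕ} (hij : i ≤ j) :
    s.tr h ((s.t n).sI hij) = (s.t m).sI hij := by
  induction j, hij using Nat.le_induction with
  | base => rw [PreThy.sI_self, PreThy.sI_self, tr_id]
  | succ j hij ih => rw [PreThy.sI_succ _ hij, PreThy.sI_succ _ hij, tr_comp, ih, tr_σ]

lemma tr_tI {n m : ℕ} (h : n ≤ m) {i j : ℕ} (hij : i ≤ j) :
    s.tr h ((s.t n).tI hij) = (s.t m).tI hij := by
  induction j, hij using Nat.le_induction with
  | base => rw [PreThy.tI_self, PreThy.tI_self, tr_id]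
  | succ j hij ih => rw [PreThy.tI_succ _ hij, PreThy.tI_succ _ hij, tr_comp, ih, tr_τ]

variable (s)

/-- eventual equality -/
def setoid (S T : Table) : Setoid (Σ n, (s.t n).Hom S T) where
  r a b := ∃ m, ∃ (h : a.1 ≤ m) (h' : b.1 ≤ m), s.tr h a.2 = s.tr h' b.2
  iseqv :=
    { refl := fun a => ⟨a.1, le_refl _, le_refl _, rfl⟩
      symm := fun ⟨m, h, h', e⟩ => ⟨m, h', h, e.symm⟩
      trans := by
        rintro a b c ⟨m, h, h', e⟩ ⟨m', k, k', e'⟩
        refine ⟨max m m', h.trans (le_max_left _ _), k'.trans (le_max_right _ _), ?_⟩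
        rw [← tr_tr h (le_max_left m m'), e, tr_tr, ← tr_tr k (le_max_right m m'), e', tr_tr] }

/-- The morphisms of the limit. -/
def Lim (S T : Table) : Type := Quotient (s.setoid S T)

variable {s}

/-- the class of a morphism -/
def cl (n : ℕ) {S T : Table} (f : (s.t n).Hom S T) : s.Lim S T :=
  Quotient.mk (s.setoid S T) ⟨n, f⟩

lemma cl_tr {n m : ℕ} (h : n ≤ m) {S T : Table} (f : (s.t n).Hom S T) :
    cl m (s.tr h f) = cl n f :=
  Quotient.sound (s := s.setoid S T) ⟨m, le_refl m, h, by rw [tr_self]⟩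

lemma cl_eq {n : ℕ} {S T : Table} {f g : (s.t n).Hom S T} (e : cl n f = cl n g) :
    ∃ m, ∃ h : n ≤ m, s.tr h f = s.tr h g := by
  obtain ⟨m, h, _, e⟩ := Quotient.exact (s := s.setoid S T) e
  exact ⟨m, h, e⟩

lemma cl_eq_fin {n l : ℕ} {S T : Fin l → Table} {f g : ∀ k, (s.t n).Hom (S k) (T k)}
    (e : ∀ k, cl n (f k) = cl n (g k)) :
    ∃ m, ∃ h : n ≤ m, ∀ k, s.tr h (f k) = s.tr h (g k) := by
  choose m h hm using fun k => cl_eq (e k)
  refine ⟨max n (Finset.univ.sup m), le_max_left _ _, fun k => ?_⟩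
  have hk : m k ≤ max n (Finset.univ.sup m) :=
    (Finset.le_sup (Finset.mem_univ k)).trans (le_max_right _ _)
  rw [← tr_tr (h k) hk, hm k, tr_tr]

lemma exists_rep {S T : Table} (x : s.Lim S T) : ∃ (n : ℕ) (f : (s.t n).Hom S T), cl n f = x := by
  obtain ⟨⟨n, f⟩, h⟩ := Quotient.exists_rep x
  exact ⟨n, f, h⟩

lemma exists_rep_fin {l : ℕ} {S T : Fin l → Table} (x : ∀ k, s.Lim (S k) (T k)) :
    ∃ (n : ℕ) (f : ∀ k, (s.t n).Hom (S k) (T k)), ∀ k, cl n (f k) = x k := by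
  choose m f hf using fun k => exists_rep (x k)
  exact ⟨Finset.univ.sup m, fun k => s.tr (Finset.le_sup (Finset.mem_univ k)) (f k),
    fun k => by rw [cl_tr, hf]⟩

lemma exists_rep₂ {S T S' T' : Table} (x : s.Lim S T) (y : s.Lim S' T') :
    ∃ (n : ℕ) (f : (s.t n).Hom S T) (g : (s.t n).Hom S' T'), cl n f = x ∧ cl n g = y := by
  obtain ⟨n, f, rfl⟩ := exists_rep x
  obtain ⟨m, g, rfl⟩ := exists_rep y
  exact ⟨max n m, s.tr (le_max_left _ _) f, s.tr (le_max_right _ _) g, cl_tr _ _, cl_tr _ _⟩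

lemma exists_rep₃ {S T S' T' S'' T'' : Table} (x : s.Lim S T) (y : s.Lim S' T')
    (z : s.Lim S'' T'') :
    ∃ (n : ℕ) (f : (s.t n).Hom S T) (g : (s.t n).Hom S' T') (h : (s.t n).Hom S'' T''),
      cl n f = x ∧ cl n g = y ∧ cl n h = z := by
  obtain ⟨n, f, g, rfl, rfl⟩ := exists_rep₂ x y
  obtain ⟨m, h, rfl⟩ := exists_rep z
  exact ⟨max n m, s.tr (le_max_left _ _) f, s.tr (le_max_left _ _) g,
    s.tr (le_max_right _ _) h, cl_tr _ _, cl_tr _ _, cl_tr _ _⟩

/-- composition -/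
def lcomp {R S T : Table} (x : s.Lim R S) (y : s.Lim S T) : s.Lim R T :=
  Quotient.map₂ (sa := s.setoid R S) (sb := s.setoid S T) (sc := s.setoid R T)
    (fun a b => ⟨max a.1 b.1, (s.t _).comp (s.tr (le_max_left _ _) a.2)
      (s.tr (le_max_right _ _) b.2)⟩) (by
    rintro a a' ⟨m, h, h', e⟩ b b' ⟨n, k, k', f⟩
    refine ⟨max m n, max_le (h.trans (le_max_left _ _)) (k.trans (le_max_right _ _)),
      max_le (h'.trans (le_max_left _ _)) (k'.trans (le_max_right _ _)), ?_⟩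
    rw [tr_comp, tr_comp, tr_tr, tr_tr, tr_tr, tr_tr, ← tr_tr h (le_max_left m n), e,
      ← tr_tr k (le_max_right m n), f, tr_tr, tr_tr]) x y

lemma lcomp_cl {n : ℕ} {R S T : Table} (f : (s.t n).Hom R S) (g : (s.t n).Hom S T) :
    lcomp (cl n f) (cl n g) = cl n ((s.t n).comp f g) := by
  refine Eq.trans ?_ (cl_tr (le_max_left n n) _)
  rw [tr_comp]
  rfl

variable (s)

/-- the category part of the limit -/
def pre : PreThy where
  Hom := s.Lim
  id T := cl 0 ((s.t 0).id T)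
  comp := lcomp
  id_comp x := by
    obtain ⟨n, f, rfl⟩ := exists_rep x
    rw [← cl_tr (Nat.zero_le n), tr_id, lcomp_cl, (s.t n).id_comp]
  comp_id x := by
    obtain ⟨n, f, rfl⟩ := exists_rep x
    rw [← cl_tr (Nat.zero_le n) ((s.t 0).id _), tr_id, lcomp_cl, (s.t n).comp_id]
  assoc x y z := by
    obtain ⟨n, f, g, h, rfl, rfl, rfl⟩ := exists_rep₃ x y z
    simp only [lcomp_cl, (s.t n).assoc]
  σ i := cl 0 ((s.t 0).σ i)
  τ i := cl 0 ((s.t 0).τ i)
  σσ i := by rw [lcomp_cl, lcomp_cl, (s.t 0).σσ]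
  ττ i := by rw [lcomp_cl, lcomp_cl, (s.t 0).ττ]

variable {s}

lemma cl_id (n : ℕ) (T : Table) : cl n ((s.t n).id T) = s.pre.id T := by
  rw [← tr_id (Nat.zero_le n), cl_tr]; rfl

lemma cl_comp (n : ℕ) {R S T : Table} (f : (s.t n).Hom R S) (g : (s.t n).Hom S T) :
    cl n ((s.t n).comp f g) = s.pre.comp (cl n f) (cl n g) := (lcomp_cl f g).symm

lemma cl_σ (n : ℕ) (i : ℕ) : cl n ((s.t n).σ i) = s.pre.σ i := by
  rw [← tr_σ (Nat.zero_le n), cl_tr]; rfl

lemma cl_τ (n : ℕ) (i : ℕ) : cl n ((s.t n).τ i) = s.pre.τ i := by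
  rw [← tr_τ (Nat.zero_le n), cl_tr]; rfl

lemma cl_sI (n : ℕ) {i j : ℕ} (hij : i ≤ j) : cl n ((s.t n).sI hij) = s.pre.sI hij := by
  induction j, hij using Nat.le_induction with
  | base => rw [PreThy.sI_self, PreThy.sI_self, cl_id]
  | succ j hij ih => rw [PreThy.sI_succ _ hij, PreThy.sI_succ _ hij, cl_comp, ih, cl_σ]

lemma cl_tI (n : ℕ) {i j : ℕ} (hij : i ≤ j) : cl n ((s.t n).tI hij) = s.pre.tI hij := by
  induction j, hij using Nat.le_induction with
  | base => rw [PreThy.tI_self, PreThy.tI_self, cl_id]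
  | succ j hij ih => rw [PreThy.tI_succ _ hij, PreThy.tI_succ _ hij, cl_comp, ih, cl_τ]

lemma glue₀ (t : Thy) (T : Table) (k : Fin T.len) :
    t.comp (t.sI (T.hl k).le) (t.ij T k.castSucc) = t.comp (t.tI (T.hr k).le) (t.ij T k.succ) :=
  (t.c T).glue k

variable (s)

/-- the cocones of the limit -/
def cocone (T : Table) : s.pre.G.Cocone T (T : s.pre.Obj) where
  inj k := (cl 0 ((s.t 0).ij T k) : s.Lim _ _)
  glue k := by
    have h1 : s.pre.comp (s.pre.sI (T.hl k).le) (cl 0 ((s.t 0).ij T k.castSucc)) =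
        s.pre.comp (s.pre.tI (T.hr k).le) (cl 0 ((s.t 0).ij T k.succ)) := by
      rw [← cl_sI 0, ← cl_tI 0, ← cl_comp, ← cl_comp, glue₀]
    exact h1

variable {s}

lemma cl_ij (n : ℕ) (T : Table) (k : Fin (T.len + 1)) :
    cl n ((s.t n).ij T k) = (cl 0 ((s.t 0).ij T k) : s.Lim _ _) := by
  rw [← tr_ij (Nat.zero_le n), cl_tr]

lemma lim_ext {T Y : Table} {x y : s.Lim T Y}
    (h : ∀ k, lcomp (cl 0 ((s.t 0).ij T k)) x = lcomp (cl 0 ((s.t 0).ij T k)) y) : x = y := by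
  obtain ⟨n, f, g, rfl, rfl⟩ := exists_rep₂ x y
  simp only [← cl_ij n, lcomp_cl] at h
  obtain ⟨m, hm, h⟩ := cl_eq_fin h
  have : s.tr hm f = s.tr hm g := by
    apply (s.t m).hom_ext
    intro k
    have := h k
    rw [tr_comp, tr_comp, tr_ij] at this
    exact this
  rw [← cl_tr hm f, this, cl_tr]

lemma lim_desc {T Y : Table} (d : ∀ k, s.Lim (T1 (T.top k)) Y)
    (hd : ∀ k : Fin T.len, s.pre.comp (s.pre.sI (T.hl k).le) (d k.castSucc) =
      s.pre.comp (s.pre.tI (T.hr k).le) (d k.succ)) :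
    ∃ u : s.Lim T Y, ∀ k, lcomp (cl 0 ((s.t 0).ij T k)) u = d k := by
  obtain ⟨n, f, hf⟩ := exists_rep_fin d
  have h1 : ∀ k : Fin T.len, cl n ((s.t n).comp ((s.t n).sI (T.hl k).le) (f k.castSucc)) =
      cl n ((s.t n).comp ((s.t n).tI (T.hr k).le) (f k.succ)) := by
    intro k
    rw [cl_comp, cl_comp, cl_sI, cl_tI, hf, hf]
    exact hd k
  obtain ⟨m, hm, h⟩ := cl_eq_fin h1
  obtain ⟨u, hu⟩ := (s.t m).desc (fun k => s.tr hm (f k)) (fun k => by
    have := h k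
    rw [tr_comp, tr_comp, tr_sI, tr_tI] at this
    exact this)
  refine ⟨cl m u, fun k => ?_⟩
  rw [← cl_ij m, lcomp_cl, hu, cl_tr, hf]

variable (s)

/-- The direct limit theory. -/
def lim : Thy where
  toPreThy := s.pre
  c := s.cocone
  sum T := by
    intro Y d
    obtain ⟨u, hu⟩ := lim_desc (s := s) (T := T) (Y := Y) d.inj d.glue
    exact ⟨u, hu, fun v hv => lim_ext fun k => (hv k).trans (hu k).symm⟩
  one i := by
    have h1 : (s.t 0).ij (T1 i) 0 = (s.t 0).id (T1 i) := (s.t 0).one i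
    exact congrArg (cl 0) h1

end Sys

end Pool.Agent.W_MP_0394fb_al
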