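import Pool.Agent.W_MP_0394fb_al.Neg
import Pool.Agent.W_MP_0394fb_al.Coh
import Pool.Agent.W_MP_0394fb_al.Lift

set_option autoImplicit false

open CategoryTheory Opposite

namespace Pool.Agent.W_MP_0394fb_al

theorem main : (∃ (C : Type) (_ : Category.{0} C) (G : Coglob C), IsCoherator G) ∧
    ∀ (C : Type) [Category.{0} C] (G : Coglob C), IsCoherator G →
      Nonempty (Mor G disks) ∧ ∀ F : Mor G disks, ¬ StatementI F :=
  ⟨⟨tinf.Obj, inferInstance, tinf.G, isCoherator_tinf⟩,
    fun _ _ G hG => ⟨hG.exists_real, fun F => not_statementI G hG F⟩⟩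

end Pool.Agent.W_MP_0394fb_al
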