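import Pool.Agent.W_MP_0394fb_al.Defs

set_option autoImplicit false

open CategoryTheory Opposite

namespace Pool.Agent.W_MP_0394fb_al

universe v u v' u'

/-! ## All objects of a coherator are globular sums -/

section general

variable {C : Type u} [Category.{v} C]

lemma Coglob.Cocone.IsSum.hom_ext {G : Coglob C} {T : Table} {X Y : C} {c : G.Cocone T X}
    (hc : c.IsSum) {f g : X ⟶ Y} (h : ∀ k, c.inj k ≫ f = c.inj k ≫ g) : f = g := by
  obtain ⟨u, -, hu⟩ := hc Y
    ⟨fun k => c.inj k ≫ g, fun k => by rw [← Category.assoc, c.glue k, Category.assoc]⟩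
  rw [hu f h, hu g fun k => rfl]

lemma isSum_of_iso {G : Coglob C} {T : Table} {X Y : C} {c : G.Cocone T X} (hc : c.IsSum)
    (d : G.Cocone T Y) (φ : X ≅ Y) (h : ∀ k, c.inj k ≫ φ.hom = d.inj k) : d.IsSum := by
  intro Z e
  obtain ⟨f, hf, hu⟩ := hc Z e
  refine ⟨φ.inv ≫ f, fun k => ?_, fun g hg => ?_⟩
  · rw [← h k, Category.assoc, Iso.hom_inv_id_assoc, hf]
  · rw [Iso.eq_inv_comp]
    apply hu
    intro k
    rw [← Category.assoc, h k, hg]

lemma exists_iso_of_isSum {G : Coglob C} {T : Table} {X Y : C} {c : G.Cocone T X} (hc : c.IsSum)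
    {d : G.Cocone T Y} (hd : d.IsSum) : ∃ φ : X ≅ Y, ∀ k, c.inj k ≫ φ.hom = d.inj k := by
  obtain ⟨f, hf, -⟩ := hc Y d
  obtain ⟨g, hg, -⟩ := hd X c
  refine ⟨⟨f, g, ?_, ?_⟩, hf⟩
  · apply hc.hom_ext
    intro k
    rw [← Category.assoc, hf, hg, Category.comp_id]
  · apply hd.hom_ext
    intro k
    rw [← Category.assoc, hg, hf, Category.comp_id]

/-- Being a globular sum. -/
def IsGS (G : Coglob C) (Y : C) : Prop := ∃ (T : Table) (c : G.Cocone T Y), c.IsSum

lemma IsGS.of_iso {G : Coglob C} {X Y : C} (h : IsGS G X) (φ : X ≅ Y) : IsGS G Y := by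
  obtain ⟨T, c, hc⟩ := h
  refine ⟨T, ⟨fun k => c.inj k ≫ φ.hom, fun k => ?_⟩, isSum_of_iso hc _ φ fun k => rfl⟩
  rw [← Category.assoc, c.glue, Category.assoc]

/-- The table of a single globe. -/
def T1 (i : ℕ) : Table where
  len := 0
  top := fun _ => i
  mid := fun k => k.elim0
  hl := fun k => k.elim0
  hr := fun k => k.elim0

lemma isGS_D (G : Coglob C) (i : ℕ) : IsGS G (G.D i) := by
  refine ⟨T1 i, ⟨fun _ => 𝟙 (G.D i), fun k => k.elim0⟩, ?_⟩
  intro Y d
  refine ⟨d.inj 0, fun k => ?_, fun f hf => ?_⟩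
  · have hk : k = 0 := Subsingleton.elim (α := Fin 1) _ _
    subst hk
    exact Category.id_comp _
  · have := hf 0
    exact (Category.id_comp f).symm.trans this

end general

variable {C : Type} [Category.{0} C]

/-- A full subcategory, put in `Type 1`. -/
structure Sub {C : Type} (P : C → Prop) : Type 1 where
  obj : C
  prop : P obj

instance (P : C → Prop) : Category.{0} (Sub P) where
  Hom X Y := X.obj ⟶ Y.obj
  id X := 𝟙 X.obj
  comp f g := f ≫ g
  id_comp f := Category.id_comp (obj := C) f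
  comp_id f := Category.comp_id (obj := C) f
  assoc f g h := Category.assoc (obj := C) f g h

/-- isomorphisms in the full subcategory -/
def Sub.mkIso {P : C → Prop} {X Y : Sub P} (φ : X.obj ≅ Y.obj) : X ≅ Y where
  hom := φ.hom
  inv := φ.inv
  hom_inv_id := φ.hom_inv_id
  inv_hom_id := φ.inv_hom_id

/-- isomorphisms in the full subcategory -/
def Sub.ofIso {P : C → Prop} {X Y : Sub P} (φ : X ≅ Y) : X.obj ≅ Y.obj where
  hom := φ.hom
  inv := φ.inv
  hom_inv_id := φ.hom_inv_id
  inv_hom_id := φ.inv_hom_id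

variable {P : C → Prop}

/-- The coglobular object of the subcategory. -/
def sub (G : Coglob C) (hD : ∀ i, P (G.D i)) : Coglob (Sub P) where
  D i := ⟨G.D i, hD i⟩
  σ i := G.σ i
  τ i := G.τ i
  σσ i := G.σσ i
  ττ i := G.ττ i

lemma sub_sIter (G : Coglob C) (hD : ∀ i, P (G.D i)) {i j : ℕ} (h : i ≤ j) :
    (sub G hD).sIter h = G.sIter h := by
  induction j, h using Nat.le_induction with
  | base => rw [Coglob.sIter_refl, Coglob.sIter_refl]; rfl
  | succ j h ih => rw [Coglob.sIter_succ _ h, Coglob.sIter_succ _ h, ih]; rfl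

lemma sub_tIter (G : Coglob C) (hD : ∀ i, P (G.D i)) {i j : ℕ} (h : i ≤ j) :
    (sub G hD).tIter h = G.tIter h := by
  induction j, h using Nat.le_induction with
  | base => rw [Coglob.tIter_refl, Coglob.tIter_refl]; rfl
  | succ j h ih => rw [Coglob.tIter_succ _ h, Coglob.tIter_succ _ h, ih]; rfl

/-- cocones in the subcategory -/
def toSub {G : Coglob C} (hD : ∀ i, P (G.D i)) {T : Table} {Y : Sub P}
    (c : G.Cocone T Y.obj) : (sub G hD).Cocone T Y where
  inj k := c.inj k
  glue k := by
    rw [sub_sIter, sub_tIter]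
    exact c.glue k

/-- cocones in the subcategory -/
def ofSub {G : Coglob C} {hD : ∀ i, P (G.D i)} {T : Table} {Y : Sub P}
    (c : (sub G hD).Cocone T Y) : G.Cocone T Y.obj where
  inj k := c.inj k
  glue k := by
    have := c.glue k
    rw [sub_sIter, sub_tIter] at this
    exact this

lemma toSub_isSum {G : Coglob C} (hD : ∀ i, P (G.D i)) {T : Table} {Y : Sub P}
    {c : G.Cocone T Y.obj} (hc : c.IsSum) : (toSub hD c : (sub G hD).Cocone T Y).IsSum := by
  intro Z e
  exact hc Z.obj (ofSub e)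

lemma ofSub_isSum {G : Coglob C} (hG : G.IsExtension) {hD : ∀ i, P (G.D i)}
    (hsum : ∀ Y, IsGS G Y → P Y) {T : Table} {Y : Sub P}
    {c : (sub G hD).Cocone T Y} (hc : c.IsSum) : (ofSub c).IsSum := by
  obtain ⟨X, c0, hc0⟩ := hG T
  obtain ⟨φ, hφ⟩ := exists_iso_of_isSum
    (toSub_isSum (Y := ⟨X, hsum X ⟨T, c0, hc0⟩⟩) hD hc0) hc
  exact isSum_of_iso hc0 (ofSub c) (Sub.ofIso φ) hφ

lemma sub_isExtension {G : Coglob C} (hG : G.IsExtension) (hD : ∀ i, P (G.D i))
    (hsum : ∀ Y, IsGS G Y → P Y) : (sub G hD).IsExtension := by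
  intro T
  obtain ⟨X, c0, hc0⟩ := hG T
  exact ⟨⟨X, hsum X ⟨T, c0, hc0⟩⟩, toSub hD c0, toSub_isSum hD hc0⟩

/-- Factor a morphism through a full subcategory. -/
def factor {C0 : Type} [Category.{0} C0] {G0 : Coglob C0} {G : Coglob C} (M : Mor G0 G)
    (hD : ∀ i, P (G.D i)) (hM : ∀ X, P (M.K.obj X)) : Mor G0 (sub G hD) where
  K :=
    { obj := fun X => ⟨M.K.obj X, hM X⟩
      map := fun f => M.K.map f
      map_id := fun X => M.K.map_id X
      map_comp := fun f g => M.K.map_comp f g }
  e i := Sub.mkIso (M.e i)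
  eσ i := M.eσ i
  eτ i := M.eτ i
  pres T X c hc := toSub_isSum (Y := ⟨M.K.obj X, hM X⟩) hD (M.pres T X c hc)

/-- The inclusion of a full subcategory, into a copy of the whole category. -/
def incl {G : Coglob C} (hG : G.IsExtension) (hD : ∀ i, P (G.D i))
    (hsum : ∀ Y, IsGS G Y → P Y) :
    Mor (sub G hD) (sub G (P := fun _ => True) (fun _ => trivial)) where
  K :=
    { obj := fun X => ⟨X.obj, trivial⟩
      map := fun f => f
      map_id := fun X => rfl
      map_comp := fun f g => rfl }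
  e i := Iso.refl _
  eσ i := (Category.comp_id (obj := C) _).trans (Category.id_comp (obj := C) _).symm
  eτ i := (Category.comp_id (obj := C) _).trans (Category.id_comp (obj := C) _).symm
  pres T X c hc := by
    have h := toSub_isSum (P := fun _ => True) (Y := ⟨X.obj, trivial⟩) (fun _ => trivial)
      (ofSub_isSum hG hsum hc)
    refine isSum_of_iso h _ (Iso.refl _) fun k => ?_
    exact (Category.comp_id (obj := C) _).trans (Category.id_comp (obj := C) _).symm

/-- The morphism to a copy of the category in `Type 1`. -/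
def up (G : Coglob C) : Mor G (sub G (P := fun _ => True) (fun _ => trivial)) where
  K :=
    { obj := fun X => ⟨X, trivial⟩
      map := fun f => f
      map_id := fun X => rfl
      map_comp := fun f g => rfl }
  e i := Iso.refl _
  eσ i := (Category.comp_id (obj := C) _).trans (Category.id_comp (obj := C) _).symm
  eτ i := (Category.comp_id (obj := C) _).trans (Category.id_comp (obj := C) _).symm
  pres T X c hc := by
    have h := toSub_isSum (P := fun _ => True) (Y := ⟨X, trivial⟩) (fun _ => trivial) hc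
    refine isSum_of_iso h _ (Iso.refl _) fun k => ?_
    exact (Category.comp_id (obj := C) _).trans (Category.id_comp (obj := C) _).symm

/-- If the inclusion of the globular sums splits, then all objects are globular sums. -/
lemma isGS_of_iso2 {G : Coglob C} (hG : G.IsExtension)
    (N : Mor G (sub G (P := IsGS G) (isGS_D G)))
    (θ : Iso2 (N.comp (incl hG (isGS_D G) (fun _ h => h))).toUnder (up G).toUnder) (Y : C) :
    IsGS G Y := by
  have φ : (N.K.obj Y).obj ≅ Y := Sub.ofIso (P := fun _ => True) (θ.θ.app Y)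
  exact (N.K.obj Y).prop.of_iso φ

lemma theta0_isGS {G : Coglob C} (h : IsTheta0 G) (Y : C) : IsGS G Y := by
  obtain ⟨hG, hu⟩ := h
  obtain ⟨N⟩ := (hu _ (sub G (P := IsGS G) (isGS_D G))
    (sub_isExtension hG _ (fun _ h => h))).1
  obtain ⟨θ⟩ := (hu _ (sub G (P := fun _ => True) (fun _ => trivial))
    (sub_isExtension hG _ (fun _ _ => trivial))).2
      (N.comp (incl hG (isGS_D G) (fun _ h => h))) (up G)
  exact isGS_of_iso2 hG N θ.default Y

lemma Mor.isGS {C0 : Type} [Category.{0} C0] {G0 : Coglob C0} {G : Coglob C} (M : Mor G0 G)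
    {X : C0} (h : IsGS G0 X) : IsGS G (M.K.obj X) := by
  obtain ⟨T, c, hc⟩ := h
  exact ⟨T, _, M.pres T X c hc⟩

/-- An isomorphism between a morphism to the subcategory and a factored morphism. -/
def liftIso2 {C0 : Type} [Category.{0} C0] {G0 : Coglob C0} {G : Coglob C} (hG : G.IsExtension)
    (hD : ∀ i, P (G.D i)) (hsum : ∀ Y, IsGS G Y → P Y) (M : Mor G0 G)
    (hM : ∀ X, P (M.K.obj X)) (N : Mor G (sub G hD))
    (α : Iso2 (M.comp N).toUnder (factor M hD hM).toUnder) :
    Iso2 (M.comp (N.comp (incl hG hD hsum))).toUnder (M.comp (up G)).toUnder where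
  θ := NatIso.ofComponents (fun X =>
    { hom := α.θ.hom.app X
      inv := α.θ.inv.app X
      hom_inv_id := α.θ.hom_inv_id_app X
      inv_hom_id := α.θ.inv_hom_id_app X }) (fun f => α.θ.hom.naturality f)
  w i := by
    have h := α.w i
    have h1 : ((M.comp (up G)).e i).hom = ((factor M hD hM).e i).hom :=
      Category.comp_id (obj := C) _
    have h2 : ((M.comp (N.comp (incl hG hD hsum))).e i).hom = ((M.comp N).e i).hom := by
      have h3 : ((N.comp (incl hG hD hsum)).e i).hom = (N.e i).hom :=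
        Category.comp_id (obj := C) _
      exact congrArg (fun z => CategoryStruct.comp (obj := C) (N.K.map (M.e i).hom) z) h3
    exact (congrArg (fun z => CategoryStruct.comp (obj := C) (α.θ.hom.app (G0.D i)) z) h1).trans
      (h.trans h2.symm)

lemma free_isGS {C0 : Type} [Category.{0} C0] {G0 : Coglob C0} {G : Coglob C}
    (hG : G.IsExtension) (h0 : ∀ X, IsGS G0 X) (ι : Mor G0 G) {A : Type} (p : A → ParPair G0)
    (l : ∀ a, G.D ((p a).i + 1) ⟶ ι.K.obj (p a).X) (h : IsFreeAdjunction ι p l) (Y : C) :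
    IsGS G Y := by
  obtain ⟨hl, hu⟩ := h
  have hι : ∀ X, IsGS G (ι.K.obj X) := fun X => ι.isGS (h0 X)
  obtain ⟨N, α, hα⟩ := (hu _ (sub G (P := IsGS G) (isGS_D G))
    (sub_isExtension hG _ (fun _ h => h))).1 (factor ι (isGS_D G) hι) (fun a => l a)
      (fun a => hl a)
  obtain ⟨γ, -, -⟩ := (hu _ (sub G (P := fun _ => True) (fun _ => trivial))
    (sub_isExtension hG _ (fun _ _ => trivial))).2
      (N.comp (incl hG (isGS_D G) (fun _ h => h))) (up G)
      (liftIso2 hG (isGS_D G) (fun _ h => h) ι hι N α) (fun a => by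
        have h1 := hα a
        have h2 : (up G).img (l a) = l a := Category.id_comp (obj := C) _
        have h3 : (N.comp (incl hG (isGS_D G) (fun _ h => h))).img (l a) = N.img (l a) := by
          have h4 : ((N.comp (incl hG (isGS_D G) (fun _ h => h))).e ((p a).i + 1)).inv =
            (N.e ((p a).i + 1)).inv := Category.id_comp (obj := C) _
          exact congrArg (fun z => CategoryStruct.comp (obj := C) z (N.K.map (l a))) h4
        exact (congrArg (fun z => CategoryStruct.comp (obj := C) z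
          (α.θ.hom.app (p a).X)) h3).trans (h1.trans h2.symm))
  exact isGS_of_iso2 hG N γ Y

lemma colimit_isGS {𝒯 : Tower} {G : Coglob C} (hG : G.IsExtension)
    (h0 : ∀ n X, IsGS (𝒯.G n) X) (j : ∀ n, Mor (𝒯.G n) G)
    (γ : ∀ n, Iso2 ((𝒯.ι n).comp (j (n + 1))).toUnder (j n).toUnder)
    (h : IsTowerColimit 𝒯 G j γ) (Y : C) : IsGS G Y := by
  have hj : ∀ n X, IsGS G ((j n).K.obj X) := fun n X => (j n).isGS (h0 n X)
  obtain ⟨N, β, hβ⟩ := (h _ (sub G (P := IsGS G) (isGS_D G))
    (sub_isExtension hG _ (fun _ h => h))).1 (fun n => factor (j n) (isGS_D G) (hj n))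
    (fun n =>
      { θ := NatIso.ofComponents (fun X =>
          { hom := (γ n).θ.hom.app X
            inv := (γ n).θ.inv.app X
            hom_inv_id := (γ n).θ.hom_inv_id_app X
            inv_hom_id := (γ n).θ.inv_hom_id_app X }) (fun f => (γ n).θ.hom.naturality f)
        w := fun i => (γ n).w i })
  obtain ⟨δ, -, -⟩ := (h _ (sub G (P := fun _ => True) (fun _ => trivial))
    (sub_isExtension hG _ (fun _ _ => trivial))).2
      (N.comp (incl hG (isGS_D G) (fun _ h => h))) (up G)
      (fun n => liftIso2 hG (isGS_D G) (fun _ h => h) (j n) (hj n) N (β n))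
      (fun n X => hβ n X)
  exact isGS_of_iso2 hG N δ Y

/-- All objects of a coherator are globular sums. -/
theorem IsCoherator.isGS {G : Coglob C} (hG : IsCoherator G) (Y : C) : IsGS G Y := by
  obtain ⟨𝒯, j, γ, hcol⟩ := hG.tower
  refine colimit_isGS hG.ext (fun n => ?_) j γ hcol Y
  induction n with
  | zero => exact theta0_isGS 𝒯.zero
  | succ n ih => exact free_isGS (𝒯.ext (n + 1)) ih (𝒯.ι n) (𝒯.p n) (𝒯.l n) (𝒯.free n)

end Pool.Agent.W_MP_0394fb_al
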