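import Pool.Agent.W_MP_0394fb_al.Final
import Pool.Agent.W_MP_0394fb_al.Objects

set_option autoImplicit false

open CategoryTheory Opposite

namespace Pool.Agent.W_MP_0394fb_al

theorem not_statementI {C : Type} [Category.{0} C] (G : Coglob C) (hG : IsCoherator G)
    (F : Mor G disks) : ¬ StatementI F :=
  not_statementI_aux hG.ext hG.lift hG.isGS hG.exists_setMor.some F

end Pool.Agent.W_MP_0394fb_al
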