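import Pool.Agent.W_MP_0394fb_al.Collapse

set_option autoImplicit false

open CategoryTheory Opposite

namespace Pool.Agent.W_MP_0394fb_al

variable {C : Type} [Category.{0} C] {G : Coglob C}

/-- The map `|BZ| ⟶ |pt|` is an isomorphism. -/
theorem isIso_real_toPt (V : Mor G setGlob) (F : Mor G disks) (hG : G.IsExtension)
    (hl : ∀ p : ParPair G, ∃ h, G.IsLifting p.f p.g h)
    (hobj : ∀ Y : C, ∃ (T : Table) (c : G.Cocone T Y), c.IsSum) :
    IsIso ((real F).map (toPt V)) := by
  rw [isIso_iff_coyoneda_map_bijective]
  intro X
  have key : Function.Bijective (fun g : pt G ⟶ (piInf F).obj X => toPt V ≫ g) := by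
    constructor
    · intro g1 g2 h
      have h' : toPt V ≫ g1 = toPt V ≫ g2 := h
      apply ObjectProperty.hom_ext
      apply NatTrans.ext
      funext Y
      ext x
      have h1 := congrArg (fun k : bz V ⟶ (piInf F).obj X => k.hom.app Y (Coc.zero _)) h'
      exact h1
    · intro θ
      let p : X := ev V F θ.hom (G.D 0) (Coc.zero _) (f0 F)
      refine ⟨ObjectProperty.homMk
        { app := fun Y => ↾(fun _ => TopCat.ofHom (ContinuousMap.const _ p))
          naturality := fun _ _ _ => rfl }, ?_⟩
      apply ObjectProperty.hom_ext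
      apply NatTrans.ext
      funext Y
      ext d
      apply TopCat.hom_ext
      apply ContinuousMap.ext
      intro y
      exact (collapse V F hG hl hobj θ.hom Y.unop d y).symm
  have e1 := ((realAdj F).homEquiv (pt G) X).bijective
  have e2 := ((realAdj F).homEquiv (bz V) X).bijective
  have h3 : (fun g : (real F).obj (pt G) ⟶ X => (real F).map (toPt V) ≫ g) =
      ((realAdj F).homEquiv (bz V) X).symm ∘ (fun g : pt G ⟶ (piInf F).obj X => toPt V ≫ g) ∘
        ((realAdj F).homEquiv (pt G) X) := by
    funext g
    simp only [Function.comp_apply]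
    rw [← Adjunction.homEquiv_naturality_left, Equiv.symm_apply_apply]
  have h4 : Function.Bijective (fun g : (real F).obj (pt G) ⟶ X => (real F).map (toPt V) ≫ g) := by
    rw [h3]
    exact ((realAdj F).homEquiv (bz V) X).symm.bijective.comp (key.comp e1)
  exact h4

end Pool.Agent.W_MP_0394fb_al
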