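import Pool.Agent.W_MP_0394fb_al.Thy2

set_option autoImplicit false

open CategoryTheory Opposite

namespace Pool.Agent.W_MP_0394fb_al

universe v u v' u'

section

variable {C : Type u'} [Category.{v'} C] {E : Type u} [Category.{v} E] {G : Coglob C}
  {H : Coglob E}

lemma Iso2.inv_app {M N : Under G H} (α : Iso2 M N) (i : ℕ) :
    (M.e i).inv ≫ α.app (G.D i) = (N.e i).inv := by
  have h2 := α.w i
  rw [Iso.inv_comp_eq, ← h2]
  simp [Iso2.app]

lemma Iso2.push_inj {M N : Under G H} (α : Iso2 M N) {T : Table} {X : C} (c : G.Cocone T X)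
    (k : Fin (T.len + 1)) : (M.push c).inj k ≫ α.app X = (N.push c).inj k := by
  have h1 : M.K.map (c.inj k) ≫ α.app X = α.app (G.D (T.top k)) ≫ N.K.map (c.inj k) :=
    α.θ.hom.naturality (c.inj k)
  have h2 := α.inv_app (T.top k)
  change ((M.e _).inv ≫ M.K.map (c.inj k)) ≫ α.app X = (N.e _).inv ≫ N.K.map (c.inj k)
  rw [Category.assoc, h1, ← Category.assoc, h2]

lemma Iso2.ext' {M N : Under G H} {α α' : Iso2 M N} (h : ∀ X, α.app X = α'.app X) : α = α' := by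
  cases α with | mk θ w => ?_
  cases α' with | mk θ' w' => ?_
  have : θ = θ' := by
    apply Iso.ext
    apply NatTrans.ext
    funext X
    exact h X
  subst this
  rfl

end

section

variable {E : Type u} [Category.{v} E] {H : Coglob E}

lemma iso2_unique {t : Thy} {M N : Mor t.G H} (α α' : Iso2 M.toUnder N.toUnder) : α = α' := by
  apply Iso2.ext'
  intro X
  apply (M.pres X X (t.c X) (t.sum X)).hom_ext
  intro k
  exact (α.push_inj _ k).trans (α'.push_inj _ k).symm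

lemma aux_nat {X Y X' Y' D D' : E} {f : X ⟶ Y} {e : X ≅ D} {e1 : Y ≅ D'} {s : D ⟶ D'}
    {f' : X' ⟶ Y'} {e' : X' ≅ D} {e1' : Y' ≅ D'} (h : f ≫ e1.hom = e.hom ≫ s)
    (h' : f' ≫ e1'.hom = e'.hom ≫ s) :
    f ≫ (e1.hom ≫ e1'.inv) = (e.hom ≫ e'.inv) ≫ f' := by
  have h3 : f' = e'.hom ≫ s ≫ e1'.inv := by
    rw [← Category.assoc]; exact (Iso.eq_comp_inv _).2 h'
  rw [← Category.assoc, h, h3]
  simp only [Category.assoc, Iso.inv_hom_id_assoc]

lemma aux_cancel {X Y Z : E} (a : X ⟶ Y) (b : Z ≅ Y) : (a ≫ b.inv) ≫ b.hom = a := by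
  simp only [Category.assoc, Iso.inv_hom_id, Category.comp_id]

lemma push_one {t : Thy} (M : Mor t.G H) (i : ℕ) :
    (M.push (t.c (T1 i))).inj 0 = (M.e i).inv := M.rz.one i

lemma exists_cmp {t : Thy} (M N : Mor t.G H) (T : Table) :
    ∃ φ : M.K.obj (T : t.Obj) ≅ N.K.obj (T : t.Obj),
      ∀ k, (M.push (t.c T)).inj k ≫ φ.hom = (N.push (t.c T)).inj k :=
  exists_iso_of_isSum (M.pres T T (t.c T) (t.sum T)) (N.pres T T (t.c T) (t.sum T))

lemma cmp_one {t : Thy} {M N : Mor t.G H} {i : ℕ}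
    {φ : M.K.obj (T1 i : t.Obj) ≅ N.K.obj (T1 i : t.Obj)}
    (h : ∀ k, (M.push (t.c (T1 i))).inj k ≫ φ.hom = (N.push (t.c (T1 i))).inj k) :
    φ.hom = (M.e i).hom ≫ (N.e i).inv := by
  have h1 : (M.e i).inv ≫ φ.hom = (N.e i).inv :=
    (congrArg (fun z => z ≫ φ.hom) (push_one M i).symm).trans ((h 0).trans (push_one N i))
  exact (Iso.inv_comp_eq (M.e i)).1 h1

variable {Gen : Table → Table → Type} {𝓜 : Interp Gen → Prop}

/-- Compatibility of an isomorphism on globes with the structural arrows. -/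
lemma nat_sig {N N' : Mor (termThy 𝓜).G H}
    {β : ∀ T : Table, N.K.obj (T : (termThy 𝓜).Obj) ⟶ N'.K.obj (T : (termThy 𝓜).Obj)}
    (h : ∀ i, β (T1 i) = (N.e i).hom ≫ (N'.e i).inv) (i : ℕ) :
    mp N (TermHom.sig 𝓜 i) ≫ β (T1 (i + 1)) = β (T1 i) ≫ mp N' (TermHom.sig 𝓜 i) := by
  have h1 : mp N (TermHom.sig 𝓜 i) ≫ (N.e (i + 1)).hom = (N.e i).hom ≫ H.σ i := N.eσ i
  have h2 : mp N' (TermHom.sig 𝓜 i) ≫ (N'.e (i + 1)).hom = (N'.e i).hom ≫ H.σ i := N'.eσ i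
  exact (congrArg (fun z => mp N (TermHom.sig 𝓜 i) ≫ z) (h (i + 1))).trans
    ((aux_nat h1 h2).trans (congrArg (fun z => z ≫ mp N' (TermHom.sig 𝓜 i)) (h i)).symm)

lemma nat_tau {N N' : Mor (termThy 𝓜).G H}
    {β : ∀ T : Table, N.K.obj (T : (termThy 𝓜).Obj) ⟶ N'.K.obj (T : (termThy 𝓜).Obj)}
    (h : ∀ i, β (T1 i) = (N.e i).hom ≫ (N'.e i).inv) (i : ℕ) :
    mp N (TermHom.tau 𝓜 i) ≫ β (T1 (i + 1)) = β (T1 i) ≫ mp N' (TermHom.tau 𝓜 i) := by
  have h1 : mp N (TermHom.tau 𝓜 i) ≫ (N.e (i + 1)).hom = (N.e i).hom ≫ H.τ i := N.eτ i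
  have h2 : mp N' (TermHom.tau 𝓜 i) ≫ (N'.e (i + 1)).hom = (N'.e i).hom ≫ H.τ i := N'.eτ i
  exact (congrArg (fun z => mp N (TermHom.tau 𝓜 i) ≫ z) (h (i + 1))).trans
    ((aux_nat h1 h2).trans (congrArg (fun z => z ≫ mp N' (TermHom.tau 𝓜 i)) (h i)).symm)

lemma nat_inj {N N' : Mor (termThy 𝓜).G H}
    {β : ∀ T : Table, N.K.obj (T : (termThy 𝓜).Obj) ⟶ N'.K.obj (T : (termThy 𝓜).Obj)}
    (h : ∀ i, β (T1 i) = (N.e i).hom ≫ (N'.e i).inv)
    (T : Table) (k : Fin (T.len + 1))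
    (hk : (N.push ((termThy 𝓜).c T)).inj k ≫ β T = (N'.push ((termThy 𝓜).c T)).inj k) :
    mp N (TermHom.inj 𝓜 T k) ≫ β T = β (T1 (T.top k)) ≫ mp N' (TermHom.inj 𝓜 T k) := by
  have h1 : ((N.e (T.top k)).inv ≫ mp N (TermHom.inj 𝓜 T k)) ≫ β T =
    (N'.e (T.top k)).inv ≫ mp N' (TermHom.inj 𝓜 T k) := hk
  have h2 : (N.e (T.top k)).inv ≫ (mp N (TermHom.inj 𝓜 T k) ≫ β T) =
    (N'.e (T.top k)).inv ≫ mp N' (TermHom.inj 𝓜 T k) := (Category.assoc _ _ _).symm.trans h1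
  have h3 := (Iso.inv_comp_eq (N.e (T.top k))).1 h2
  exact h3.trans ((Category.assoc _ _ _).symm.trans
    (congrArg (fun z => z ≫ mp N' (TermHom.inj 𝓜 T k)) (h (T.top k)).symm))

end

/-- The theory with no generators. -/
def theta : Thy := termThy (Gen := fun _ _ => Empty) (fun _ => True)

lemma theta_exists {E : Type 1} [Category.{0} E] {H : Coglob E} (hH : H.IsExtension) :
    Nonempty (Mor theta.G H) := by
  obtain ⟨R⟩ := exists_rz hH
  let M : Interp (fun _ _ => Empty) := ⟨R.thy, fun g => g.elim⟩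
  exact ⟨(evMor (𝓜 := fun _ => True) (M := M) trivial).comp R.incl⟩

lemma theta_iso2 {E : Type 1} [Category.{0} E] {H : Coglob E} (M N : Mor theta.G H) :
    Nonempty (Iso2 M.toUnder N.toUnder) := by
  choose φ hφ using exists_cmp M N
  have h1 : ∀ i, (φ (T1 i)).hom = (M.e i).hom ≫ (N.e i).inv := fun i => cmp_one (hφ (T1 i))
  refine ⟨⟨NatIso.ofComponents (fun T : theta.Obj => φ T) (fun {S T} f => ?_), fun i => ?_⟩⟩
  · exact nat_of M N (fun T => (φ T).hom) (fun _ _ g => g.elim)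
      (nat_sig (β := fun T => (φ T).hom) h1) (nat_tau (β := fun T => (φ T).hom) h1)
      (fun T k => nat_inj (β := fun T => (φ T).hom) h1 T k (hφ T k)) f
  · exact (congrArg (fun z => z ≫ (N.e i).hom) (h1 i)).trans (aux_cancel _ _)

theorem isTheta0_theta : IsTheta0 theta.G := by
  refine ⟨theta.isExtension, fun E _ H hH => ⟨theta_exists hH, fun M N => ?_⟩⟩
  obtain ⟨α⟩ := theta_iso2 M N
  exact ⟨⟨⟨α⟩, fun β => iso2_unique β α⟩⟩

end Pool.Agent.W_MP_0394fb_al
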