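import Pool.Agent.W_MP_0394fb_al.Objects

set_option autoImplicit false

open CategoryTheory Opposite

namespace Pool.Agent.W_MP_0394fb_al

/-! ## Globular theories: categories with set of objects the set of tables -/

/-- A category with objects the tables, under the globe category. -/
structure PreThy where
  Hom : Table → Table → Type
  id : ∀ X, Hom X X
  comp : ∀ {X Y Z}, Hom X Y → Hom Y Z → Hom X Z
  id_comp : ∀ {X Y} (f : Hom X Y), comp (id X) f = f
  comp_id : ∀ {X Y} (f : Hom X Y), comp f (id Y) = f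
  assoc : ∀ {X Y Z W} (f : Hom X Y) (g : Hom Y Z) (h : Hom Z W),
    comp (comp f g) h = comp f (comp g h)
  σ : ∀ i, Hom (T1 i) (T1 (i + 1))
  τ : ∀ i, Hom (T1 i) (T1 (i + 1))
  σσ : ∀ i, comp (σ i) (σ (i + 1)) = comp (σ i) (τ (i + 1))
  ττ : ∀ i, comp (τ i) (σ (i + 1)) = comp (τ i) (τ (i + 1))

/-- The objects. -/
def PreThy.Obj (_ : PreThy) : Type := Table

instance (t : PreThy) : Category.{0} t.Obj where
  Hom := t.Hom
  id := t.id
  comp := t.comp
  id_comp := t.id_comp
  comp_id := t.comp_id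
  assoc := t.assoc

/-- The coglobular object. -/
def PreThy.G (t : PreThy) : Coglob t.Obj where
  D := T1
  σ := t.σ
  τ := t.τ
  σσ := t.σσ
  ττ := t.ττ

/-- Globular theories. -/
structure Thy extends PreThy where
  c : ∀ T : Table, toPreThy.G.Cocone T T
  sum : ∀ T, (c T).IsSum
  one : ∀ i, (c (T1 i)).inj 0 = id (T1 i)

lemma Thy.isExtension (t : Thy) : t.G.IsExtension := fun T => ⟨T, t.c T, t.sum T⟩

/-- Raw terms. -/
inductive Raw (Gen : Table → Table → Type) : Table → Table → Type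
  | gen {S T : Table} (g : Gen S T) : Raw Gen S T
  | id (T : Table) : Raw Gen T T
  | comp {R S T : Table} (f : Raw Gen R S) (g : Raw Gen S T) : Raw Gen R T
  | sig (i : ℕ) : Raw Gen (T1 i) (T1 (i + 1))
  | tau (i : ℕ) : Raw Gen (T1 i) (T1 (i + 1))
  | inj (T : Table) (k : Fin (T.len + 1)) : Raw Gen (T1 (T.top k)) T
  | desc {S T : Table} (f : ∀ k : Fin (S.len + 1), Raw Gen (T1 (S.top k)) T) : Raw Gen S T

/-- A theory with an interpretation of the generators. -/
structure Interp (Gen : Table → Table → Type) where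
  t : Thy
  I : ∀ {S T : Table}, Gen S T → t.Hom S T

variable {Gen : Table → Table → Type}

open Classical in
/-- Evaluation of raw terms. -/
noncomputable def eval (M : Interp Gen) : ∀ {S T : Table}, Raw Gen S T → Option (M.t.Hom S T)
  | _, _, .gen g => some (M.I g)
  | _, _, .id T => some (M.t.id T)
  | _, _, .comp f g => (eval M f).bind fun a => (eval M g).map fun b => M.t.comp a b
  | _, _, .sig i => some (M.t.σ i)
  | _, _, .tau i => some (M.t.τ i)
  | _, _, .inj T k => some ((M.t.c T).inj k)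
  | _, _, .desc (S := S) (T := T) f =>
    if h : ∃ g : M.t.Hom S T, ∀ k, eval M (f k) = some (M.t.comp ((M.t.c S).inj k) g) then
      some h.choose else none

lemma eval_comp {M : Interp Gen} {R S T : Table} {f : Raw Gen R S} {g : Raw Gen S T}
    {a : M.t.Hom R S} {b : M.t.Hom S T} (hf : eval M f = some a) (hg : eval M g = some b) :
    eval M (.comp f g) = some (M.t.comp a b) := by
  rw [eval, hf, hg]; rfl

lemma eval_comp_isSome {M : Interp Gen} {R S T : Table} {f : Raw Gen R S} {g : Raw Gen S T}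
    (h : (eval M (.comp f g)).isSome) : (eval M f).isSome ∧ (eval M g).isSome := by
  rw [eval] at h
  cases hf : eval M f with
  | none => rw [hf] at h; simp at h
  | some a =>
    cases hg : eval M g with
    | none => rw [hf, hg] at h; simp at h
    | some b => simp

lemma eval_desc {M : Interp Gen} {S T : Table}
    {f : ∀ k : Fin (S.len + 1), Raw Gen (T1 (S.top k)) T} {g : M.t.Hom S T}
    (h : ∀ k, eval M (f k) = some (M.t.comp ((M.t.c S).inj k) g)) :
    eval M (.desc f) = some g := by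
  have hex : ∃ g : M.t.Hom S T, ∀ k, eval M (f k) = some (M.t.comp ((M.t.c S).inj k) g) :=
    ⟨g, h⟩
  rw [eval, dif_pos hex]
  congr 1
  have h2 := hex.choose_spec
  have h3 : ∀ k, M.t.comp ((M.t.c S).inj k) hex.choose = M.t.comp ((M.t.c S).inj k) g :=
    fun k => Option.some.inj ((h2 k).symm.trans (h k))
  exact (M.t.sum S).hom_ext h3

lemma eval_desc_isSome {M : Interp Gen} {S T : Table}
    {f : ∀ k : Fin (S.len + 1), Raw Gen (T1 (S.top k)) T} (h : (eval M (.desc f)).isSome) :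
    ∀ k, (eval M (f k)).isSome ∧ ∀ g, eval M (.desc f) = some g →
      eval M (f k) = some (M.t.comp ((M.t.c S).inj k) g) := by
  classical
  by_cases hex : ∃ g : M.t.Hom S T, ∀ k, eval M (f k) = some (M.t.comp ((M.t.c S).inj k) g)
  · intro k
    have h2 := hex.choose_spec k
    refine ⟨by rw [h2]; rfl, fun g hg => ?_⟩
    have h3 := eval_desc hex.choose_spec
    rw [hg] at h3
    rw [Option.some.inj h3]
    exact h2
  · rw [eval, dif_neg hex] at h
    simp at h

/-- Validity of raw terms with respect to a class of interpretations. -/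
def Valid (𝓜 : Interp Gen → Prop) {S T : Table} (r : Raw Gen S T) : Prop :=
  ∀ M, 𝓜 M → (eval M r).isSome

/-- Semantic equality of valid raw terms. -/
def termSetoid (𝓜 : Interp Gen → Prop) (S T : Table) :
    Setoid {r : Raw Gen S T // Valid 𝓜 r} where
  r a b := ∀ M, 𝓜 M → eval M a.1 = eval M b.1
  iseqv := ⟨fun _ _ _ => rfl, fun h M hM => (h M hM).symm,
    fun h h' M hM => (h M hM).trans (h' M hM)⟩

/-- Morphisms of the term theory. -/
def TermHom (𝓜 : Interp Gen → Prop) (S T : Table) : Type := Quotient (termSetoid 𝓜 S T)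

variable {𝓜 : Interp Gen → Prop}

/-- the class of a valid raw term -/
def TermHom.mk {S T : Table} (r : Raw Gen S T) (hr : Valid 𝓜 r) : TermHom 𝓜 S T :=
  Quotient.mk (termSetoid 𝓜 S T) ⟨r, hr⟩

/-- evaluation of classes of terms -/
noncomputable def TermHom.ev {M : Interp Gen} (hM : 𝓜 M) {S T : Table} (f : TermHom 𝓜 S T) :
    M.t.Hom S T :=
  Quotient.lift (s := termSetoid 𝓜 S T) (fun r => (eval M r.1).get (r.2 M hM))
    (fun a b h => by
      have := h M hM
      simp only [this]) f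

lemma TermHom.ev_mk {M : Interp Gen} (hM : 𝓜 M) {S T : Table} (r : Raw Gen S T)
    (hr : Valid 𝓜 r) : eval M r = some ((TermHom.mk r hr).ev hM) := by
  change eval M r = some ((eval M r).get (hr M hM))
  simp

lemma TermHom.exists_rep {S T : Table} (f : TermHom 𝓜 S T) :
    ∃ (r : Raw Gen S T) (hr : Valid 𝓜 r), TermHom.mk r hr = f := by
  obtain ⟨⟨r, hr⟩, h⟩ := Quotient.exists_rep f
  exact ⟨r, hr, h⟩

lemma TermHom.ext {S T : Table} {f g : TermHom 𝓜 S T}
    (h : ∀ M (hM : 𝓜 M), f.ev hM = g.ev hM) : f = g := by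
  obtain ⟨r, hr, rfl⟩ := f.exists_rep
  obtain ⟨s, hs, rfl⟩ := g.exists_rep
  apply Quotient.sound (s := termSetoid 𝓜 S T)
  intro M hM
  have h1 := TermHom.ev_mk hM r hr
  have h2 := TermHom.ev_mk hM s hs
  change eval M r = eval M s
  rw [h1, h2, h M hM]

/-- construct a morphism from a raw term with known values -/
lemma TermHom.exists_of_eval {S T : Table} (r : Raw Gen S T)
    (v : ∀ M, 𝓜 M → M.t.Hom S T) (h : ∀ M (hM : 𝓜 M), eval M r = some (v M hM)) :
    ∃ f : TermHom 𝓜 S T, (∀ M (hM : 𝓜 M), f.ev hM = v M hM) ∧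
      ∃ hr : Valid 𝓜 r, f = TermHom.mk r hr := by
  have hr : Valid 𝓜 r := fun M hM => by rw [h M hM]; rfl
  refine ⟨TermHom.mk r hr, fun M hM => ?_, hr, rfl⟩
  have h1 := TermHom.ev_mk hM r hr
  rw [h M hM] at h1
  exact (Option.some.inj h1).symm

/-- identity -/
def TermHom.id (𝓜 : Interp Gen → Prop) (T : Table) : TermHom 𝓜 T T :=
  TermHom.mk (.id T) (fun M _ => by rw [eval]; rfl)

lemma TermHom.ev_id {M : Interp Gen} (hM : 𝓜 M) (T : Table) :
    (TermHom.id 𝓜 T).ev hM = M.t.id T := by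
  have h := TermHom.ev_mk hM (.id T) (fun M _ => by rw [eval]; rfl)
  rw [eval] at h
  exact (Option.some.inj h).symm

/-- source -/
def TermHom.sig (𝓜 : Interp Gen → Prop) (i : ℕ) : TermHom 𝓜 (T1 i) (T1 (i + 1)) :=
  TermHom.mk (.sig i) (fun M _ => by rw [eval]; rfl)

lemma TermHom.ev_sig {M : Interp Gen} (hM : 𝓜 M) (i : ℕ) :
    (TermHom.sig 𝓜 i).ev hM = M.t.σ i := by
  have h := TermHom.ev_mk hM (.sig i) (fun M _ => by rw [eval]; rfl)
  rw [eval] at h
  exact (Option.some.inj h).symm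

/-- target -/
def TermHom.tau (𝓜 : Interp Gen → Prop) (i : ℕ) : TermHom 𝓜 (T1 i) (T1 (i + 1)) :=
  TermHom.mk (.tau i) (fun M _ => by rw [eval]; rfl)

lemma TermHom.ev_tau {M : Interp Gen} (hM : 𝓜 M) (i : ℕ) :
    (TermHom.tau 𝓜 i).ev hM = M.t.τ i := by
  have h := TermHom.ev_mk hM (.tau i) (fun M _ => by rw [eval]; rfl)
  rw [eval] at h
  exact (Option.some.inj h).symm

/-- injections -/
def TermHom.inj (𝓜 : Interp Gen → Prop) (T : Table) (k : Fin (T.len + 1)) :
    TermHom 𝓜 (T1 (T.top k)) T :=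
  TermHom.mk (.inj T k) (fun M _ => by rw [eval]; rfl)

lemma TermHom.ev_inj {M : Interp Gen} (hM : 𝓜 M) (T : Table) (k : Fin (T.len + 1)) :
    (TermHom.inj 𝓜 T k).ev hM = (M.t.c T).inj k := by
  have h := TermHom.ev_mk hM (.inj T k) (fun M _ => by rw [eval]; rfl)
  rw [eval] at h
  exact (Option.some.inj h).symm

/-- generators -/
def TermHom.gen (𝓜 : Interp Gen → Prop) {S T : Table} (g : Gen S T) : TermHom 𝓜 S T :=
  TermHom.mk (.gen g) (fun M _ => by rw [eval]; rfl)

lemma TermHom.ev_gen {M : Interp Gen} (hM : 𝓜 M) {S T : Table} (g : Gen S T) :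
    (TermHom.gen 𝓜 g).ev hM = M.I g := by
  have h := TermHom.ev_mk hM (.gen g) (fun M _ => by rw [eval]; rfl)
  rw [eval] at h
  exact (Option.some.inj h).symm

lemma TermHom.valid_comp {R S T : Table} {r : Raw Gen R S} {s : Raw Gen S T}
    (hr : Valid 𝓜 r) (hs : Valid 𝓜 s) : Valid 𝓜 (.comp r s) := fun M hM => by
  rw [eval_comp (TermHom.ev_mk hM r hr) (TermHom.ev_mk hM s hs)]; rfl

/-- composition -/
def TermHom.comp {R S T : Table} (f : TermHom 𝓜 R S) (g : TermHom 𝓜 S T) : TermHom 𝓜 R T :=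
  Quotient.map₂ (sa := termSetoid 𝓜 R S) (sb := termSetoid 𝓜 S T) (sc := termSetoid 𝓜 R T)
    (fun r s => ⟨.comp r.1 s.1, TermHom.valid_comp r.2 s.2⟩)
    (fun a a' h b b' h' M hM => by
      rw [eval, eval, h M hM, h' M hM]) f g

lemma TermHom.mk_comp {R S T : Table} {r : Raw Gen R S} {s : Raw Gen S T}
    (hr : Valid 𝓜 r) (hs : Valid 𝓜 s) :
    (TermHom.mk r hr).comp (TermHom.mk s hs) = TermHom.mk (.comp r s)
      (TermHom.valid_comp hr hs) := rfl

lemma TermHom.ev_comp {M : Interp Gen} (hM : 𝓜 M) {R S T : Table} (f : TermHom 𝓜 R S)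
    (g : TermHom 𝓜 S T) : (f.comp g).ev hM = M.t.comp (f.ev hM) (g.ev hM) := by
  obtain ⟨r, hr, rfl⟩ := f.exists_rep
  obtain ⟨s, hs, rfl⟩ := g.exists_rep
  rw [TermHom.mk_comp]
  have h := TermHom.ev_mk hM (.comp r s) (TermHom.valid_comp hr hs)
  rw [eval_comp (TermHom.ev_mk hM r hr) (TermHom.ev_mk hM s hs)] at h
  exact (Option.some.inj h).symm

/-- The category part of the term theory. -/
def termPre (𝓜 : Interp Gen → Prop) : PreThy where
  Hom := TermHom 𝓜
  id := TermHom.id 𝓜
  comp := TermHom.comp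
  id_comp f := TermHom.ext fun M hM => by rw [TermHom.ev_comp, TermHom.ev_id, M.t.id_comp]
  comp_id f := TermHom.ext fun M hM => by rw [TermHom.ev_comp, TermHom.ev_id, M.t.comp_id]
  assoc f g h := TermHom.ext fun M hM => by simp only [TermHom.ev_comp, M.t.assoc]
  σ := TermHom.sig 𝓜
  τ := TermHom.tau 𝓜
  σσ i := TermHom.ext fun M hM => by
    simp only [TermHom.ev_comp, TermHom.ev_sig, TermHom.ev_tau, M.t.σσ]
  ττ i := TermHom.ext fun M hM => by
    simp only [TermHom.ev_comp, TermHom.ev_sig, TermHom.ev_tau, M.t.ττ]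

/-- The evaluation functor. -/
noncomputable def evF {M : Interp Gen} (hM : 𝓜 M) : (termPre 𝓜).Obj ⥤ M.t.Obj where
  obj X := X
  map f := TermHom.ev hM f
  map_id X := TermHom.ev_id hM X
  map_comp f g := TermHom.ev_comp hM f g

/-- The evaluation functor. -/
noncomputable def evU {M : Interp Gen} (hM : 𝓜 M) : Under (termPre 𝓜).G M.t.G where
  K := evF hM
  e i := Iso.refl _
  eσ i := (Category.comp_id (obj := M.t.Obj) _).trans
    ((TermHom.ev_sig hM i).trans (Category.id_comp (obj := M.t.Obj) _).symm)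
  eτ i := (Category.comp_id (obj := M.t.Obj) _).trans
    ((TermHom.ev_tau hM i).trans (Category.id_comp (obj := M.t.Obj) _).symm)

lemma ev_sIter {M : Interp Gen} (hM : 𝓜 M) {i j : ℕ} (h : i ≤ j) :
    TermHom.ev hM ((termPre 𝓜).G.sIter h) = M.t.G.sIter h := by
  have h1 := (evU hM).e_sIter h
  exact (Category.comp_id (obj := M.t.Obj) _).symm.trans
    (h1.trans (Category.id_comp (obj := M.t.Obj) _))

lemma ev_tIter {M : Interp Gen} (hM : 𝓜 M) {i j : ℕ} (h : i ≤ j) :
    TermHom.ev hM ((termPre 𝓜).G.tIter h) = M.t.G.tIter h := by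
  have h1 := (evU hM).e_tIter h
  exact (Category.comp_id (obj := M.t.Obj) _).symm.trans
    (h1.trans (Category.id_comp (obj := M.t.Obj) _))

/-- The cocones of the term theory. -/
def termCocone (𝓜 : Interp Gen → Prop) (T : Table) :
    (termPre 𝓜).G.Cocone T (T : (termPre 𝓜).Obj) where
  inj k := TermHom.inj 𝓜 T k
  glue k := TermHom.ext fun M hM => by
    have h1 := (TermHom.ev_comp hM ((termPre 𝓜).G.sIter (T.hl k).le)
      (TermHom.inj 𝓜 T k.castSucc)).trans
        (congrArg₂ M.t.comp (ev_sIter hM (T.hl k).le) (TermHom.ev_inj hM T k.castSucc))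
    have h2 := (TermHom.ev_comp hM ((termPre 𝓜).G.tIter (T.hr k).le)
      (TermHom.inj 𝓜 T k.succ)).trans
        (congrArg₂ M.t.comp (ev_tIter hM (T.hr k).le) (TermHom.ev_inj hM T k.succ))
    exact h1.trans (((M.t.c T).glue k).trans h2.symm)

/-- the evaluation of a cocone -/
noncomputable def evCocone {M : Interp Gen} (hM : 𝓜 M) {T Y : Table}
    (d : (termPre 𝓜).G.Cocone T (Y : (termPre 𝓜).Obj)) :
    M.t.G.Cocone T (Y : M.t.Obj) where
  inj k := TermHom.ev hM (d.inj k)
  glue k := by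
    have h1 := TermHom.ev_comp hM ((termPre 𝓜).G.sIter (T.hl k).le) (d.inj k.castSucc)
    have h2 := TermHom.ev_comp hM ((termPre 𝓜).G.tIter (T.hr k).le) (d.inj k.succ)
    rw [ev_sIter] at h1
    rw [ev_tIter] at h2
    exact h1.symm.trans ((congrArg (TermHom.ev hM) (d.glue k)).trans h2)

lemma exists_desc {T Y : Table} (d : (termPre 𝓜).G.Cocone T (Y : (termPre 𝓜).Obj)) :
    ∃ (f : TermHom 𝓜 T Y), (∀ k, (TermHom.inj 𝓜 T k).comp f = d.inj k) ∧
      ∃ (r : ∀ k : Fin (T.len + 1), Raw Gen (T1 (T.top k)) Y) (hr : ∀ k, Valid 𝓜 (r k))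
        (hf : Valid 𝓜 (.desc r)), (∀ k, d.inj k = TermHom.mk (r k) (hr k)) ∧
        f = TermHom.mk (.desc r) hf := by
  let d' : ∀ k : Fin (T.len + 1), TermHom 𝓜 (T1 (T.top k)) Y := fun k => d.inj k
  choose r hr hrd using fun k => TermHom.exists_rep (d' k)
  choose v hv hv' using fun (M : Interp Gen) (hM : 𝓜 M) => M.t.sum T Y (evCocone hM d)
  have hev : ∀ M (hM : 𝓜 M), eval M (.desc r) = some (v M hM) := by
    intro M hM
    apply eval_desc
    intro k
    have h1 := TermHom.ev_mk hM (r k) (hr k)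
    rw [hrd k] at h1
    exact h1.trans (congrArg some (hv M hM k).symm)
  obtain ⟨f, hf, hr', rfl⟩ := TermHom.exists_of_eval (.desc r) v hev
  refine ⟨_, fun k => ?_, r, hr, hr', fun k => (hrd k).symm, rfl⟩
  apply TermHom.ext
  intro M hM
  rw [TermHom.ev_comp, TermHom.ev_inj, hf M hM]
  exact hv M hM k

/-- The term theory. -/
def termThy (𝓜 : Interp Gen → Prop) : Thy where
  toPreThy := termPre 𝓜
  c := termCocone 𝓜
  sum T := by
    intro Y d
    obtain ⟨f, hf, -⟩ := exists_desc d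
    refine ⟨f, hf, fun g hg => ?_⟩
    apply TermHom.ext
    intro M hM
    apply (M.t.sum T).hom_ext
    intro k
    let g' : TermHom 𝓜 T Y := g
    have h1 := (TermHom.ev_comp hM (TermHom.inj 𝓜 T k) f).trans
      (congrArg (fun z => M.t.comp z (f.ev hM)) (TermHom.ev_inj hM T k))
    have h2 := (TermHom.ev_comp hM (TermHom.inj 𝓜 T k) g').trans
      (congrArg (fun z => M.t.comp z (g'.ev hM)) (TermHom.ev_inj hM T k))
    have h3 := congrArg (TermHom.ev hM) (hf k)
    have h4 := congrArg (TermHom.ev hM) (hg k)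
    exact h2.symm.trans (h4.trans (h3.symm.trans h1))
  one i := TermHom.ext fun M hM => by
    have h1 := TermHom.ev_inj hM (T1 i) 0
    have h2 := TermHom.ev_id hM (T1 i)
    exact h1.trans ((M.t.one i).trans h2.symm)

end Pool.Agent.W_MP_0394fb_al
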