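import Pool.Agent.W_MP_0394fb_al.Thy

set_option autoImplicit false

open CategoryTheory Opposite

namespace Pool.Agent.W_MP_0394fb_al

universe v u

section

variable {E : Type u} [Category.{v} E] {H : Coglob E}

/-- For a functor out of a theory, it suffices to preserve the chosen sums. -/
lemma pres_of (t : Thy) (M : Under t.G H) (h : ∀ T, (M.push (t.c T)).IsSum)
    (T : Table) (X : t.Obj) (c : t.G.Cocone T X) (hc : c.IsSum) : (M.push c).IsSum := by
  obtain ⟨φ, hφ⟩ := exists_iso_of_isSum (t.sum T) hc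
  exact isSum_of_iso (h T) (M.push c) (M.K.mapIso φ) fun k =>
    (Category.assoc _ _ _).trans (congrArg (fun z => (M.e (T.top k)).inv ≫ z)
      ((M.K.map_comp _ _).symm.trans (congrArg (fun z => M.K.map z) (hφ k))))

/-- A choice of globular sums. -/
structure Rz (H : Coglob E) where
  K : Table → E
  k : ∀ T, H.Cocone T (K T)
  sum : ∀ T, (k T).IsSum
  e : ∀ i, K (T1 i) ≅ H.D i
  one : ∀ i, (k (T1 i)).inj 0 = (e i).inv

lemma exists_rz (hH : H.IsExtension) : Nonempty (Rz H) := by
  choose K k hk using hH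
  have hiso : ∀ i, ∃ e : K (T1 i) ≅ H.D i, (k (T1 i)).inj 0 = e.inv := by
    intro i
    have h1 : (⟨fun _ => 𝟙 (H.D i), fun k => k.elim0⟩ : H.Cocone (T1 i) (H.D i)).IsSum := by
      intro Y d
      refine ⟨d.inj 0, fun k => ?_, fun f hf => ?_⟩
      · have hk : k = 0 := Subsingleton.elim (α := Fin 1) _ _
        subst hk
        exact Category.id_comp _
      · have := hf 0
        exact (Category.id_comp f).symm.trans this
    obtain ⟨φ, hφ⟩ := exists_iso_of_isSum (hk (T1 i)) h1
    refine ⟨φ, ?_⟩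
    have h2 := hφ 0
    exact (Iso.eq_comp_inv φ).2 h2 |>.trans (Category.id_comp _)
  choose e he using hiso
  exact ⟨⟨K, k, hk, e, he⟩⟩

/-- The choice of sums given by a morphism from a theory. -/
def Mor.rz {t : Thy} (M : Mor t.G H) : Rz H where
  K T := M.K.obj (T : t.Obj)
  k T := M.push (t.c T)
  sum T := M.pres T T (t.c T) (t.sum T)
  e i := M.e i
  one i := by
    have h1 : M.K.map ((t.c (T1 i)).inj 0) = 𝟙 _ :=
      (congrArg (fun z => M.K.map z) (t.one i)).trans (M.K.map_id _)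
    exact (congrArg (fun z => (M.e i).inv ≫ z) h1).trans (Category.comp_id _)

end

section

variable {E : Type u} [Category.{0} E] {H : Coglob E}

lemma aux_glob {X Y Z W V U : E} (a : X ⟶ Y) (s : Y ⟶ Z) (b : W ≅ Z) {t t' : Z ⟶ V}
    (h : s ≫ t = s ≫ t') (c : V ⟶ U) :
    (a ≫ s ≫ b.inv) ≫ (b.hom ≫ t ≫ c) = (a ≫ s ≫ b.inv) ≫ (b.hom ≫ t' ≫ c) := by
  simp only [Category.assoc, Iso.inv_hom_id_assoc]
  rw [← Category.assoc s t, h, Category.assoc]

lemma aux_glob' {X Y Z W : E} (a : X ⟶ Y) (s : Y ⟶ Z) (b : W ≅ Z) :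
    (a ≫ s ≫ b.inv) ≫ b.hom = a ≫ s := by
  simp only [Category.assoc, Iso.inv_hom_id, Category.comp_id]

/-- The category of chosen sums. -/
def Rz.pre (R : Rz H) : PreThy where
  Hom S T := R.K S ⟶ R.K T
  id _ := 𝟙 _
  comp f g := f ≫ g
  id_comp _ := Category.id_comp _
  comp_id _ := Category.comp_id _
  assoc _ _ _ := Category.assoc _ _ _
  σ i := (R.e i).hom ≫ H.σ i ≫ (R.e (i + 1)).inv
  τ i := (R.e i).hom ≫ H.τ i ≫ (R.e (i + 1)).inv
  σσ i := aux_glob _ _ _ (H.σσ i) _
  ττ i := aux_glob _ _ _ (H.ττ i) _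

/-- The inclusion functor. -/
def Rz.under (R : Rz H) : Under R.pre.G H where
  K :=
    { obj := fun T => R.K T
      map := fun f => f
      map_id := fun _ => rfl
      map_comp := fun _ _ => rfl }
  e i := R.e i
  eσ i := aux_glob' (R.e i).hom (H.σ i) (R.e (i + 1))
  eτ i := aux_glob' (R.e i).hom (H.τ i) (R.e (i + 1))

/-- The chosen cocones. -/
def Rz.cocone (R : Rz H) (T : Table) : R.pre.G.Cocone T (T : R.pre.Obj) where
  inj k := ((R.e (T.top k)).hom ≫ (R.k T).inj k : R.K (T1 (T.top k)) ⟶ R.K T)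
  glue k := by
    have h1 := R.under.e_sIter (T.hl k).le
    have h2 := R.under.e_tIter (T.hr k).le
    have h3 := (R.k T).glue k
    have h4 : R.under.K.map (R.pre.G.sIter (T.hl k).le) ≫ (R.e (T.top k.castSucc)).hom ≫
      (R.k T).inj k.castSucc = (R.e (T.mid k)).hom ≫ H.sIter (T.hl k).le ≫
      (R.k T).inj k.castSucc :=
      (Category.assoc (obj := E) _ _ _).symm.trans
        ((congrArg (fun z => z ≫ (R.k T).inj k.castSucc) h1).trans (Category.assoc _ _ _))
    have h5 : R.under.K.map (R.pre.G.tIter (T.hr k).le) ≫ (R.e (T.top k.succ)).hom ≫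
      (R.k T).inj k.succ = (R.e (T.mid k)).hom ≫ H.tIter (T.hr k).le ≫
      (R.k T).inj k.succ :=
      (Category.assoc (obj := E) _ _ _).symm.trans
        ((congrArg (fun z => z ≫ (R.k T).inj k.succ) h2).trans (Category.assoc _ _ _))
    exact h4.trans ((congrArg (fun z => (R.e (T.mid k)).hom ≫ z) h3).trans h5.symm)

/-- The theory of chosen sums. -/
def Rz.thy (R : Rz H) : Thy where
  toPreThy := R.pre
  c := R.cocone
  sum T := by
    intro Y d
    obtain ⟨f, hf, hu⟩ := R.sum T _ (R.under.push d)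
    have key : ∀ (g : R.K T ⟶ R.K Y) (k : Fin (T.len + 1)),
        (R.k T).inj k ≫ g = (R.under.push d).inj k ↔
          ((R.e (T.top k)).hom ≫ (R.k T).inj k) ≫ g = d.inj k := by
      intro g k
      have h1 : (R.under.push d).inj k =
        CategoryStruct.comp (obj := E) (R.e (T.top k)).inv (d.inj k) := rfl
      rw [h1, Category.assoc]
      exact (Iso.eq_inv_comp (R.e (T.top k)))
    exact ⟨f, fun k => (key f k).1 (hf k), fun g hg => hu g fun k => (key g k).2 (hg k)⟩
  one i := by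
    have h1 := R.one i
    exact (congrArg (fun z => (R.e i).hom ≫ z) h1).trans (R.e i).hom_inv_id

/-- The inclusion of the theory of chosen sums. -/
def Rz.incl (R : Rz H) : Mor R.thy.G H where
  toUnder := R.under
  pres := pres_of R.thy R.under fun T => by
    exact isSum_of_iso (R.sum T) _ (Iso.refl _) fun k => (Category.comp_id _).trans
      (Iso.inv_hom_id_assoc (R.e (T.top k)) ((R.k T).inj k)).symm

variable {Gen : Table → Table → Type} {𝓜 : Interp Gen → Prop}

/-- Evaluation as a morphism. -/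
noncomputable def evMor {M : Interp Gen} (hM : 𝓜 M) : Mor (termThy 𝓜).G M.t.G where
  toUnder := evU hM
  pres := pres_of (termThy 𝓜) (evU hM) fun T => by
    exact isSum_of_iso (M.t.sum T) _ (Iso.refl _) fun k =>
      (Category.comp_id (obj := M.t.Obj) _).trans
        ((Category.id_comp (obj := M.t.Obj) _).trans (TermHom.ev_inj hM T k)).symm

end

section

variable {E : Type u} [Category.{v} E] {H : Coglob E}
variable {Gen : Table → Table → Type} {𝓜 : Interp Gen → Prop}

/-- The action of a functor on morphisms of the term theory. -/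
def mp (N : Mor (termThy 𝓜).G H) {S T : Table} (f : TermHom 𝓜 S T) :
    N.K.obj (S : (termThy 𝓜).Obj) ⟶ N.K.obj (T : (termThy 𝓜).Obj) :=
  N.K.map f

lemma mp_comp (N : Mor (termThy 𝓜).G H) {R S T : Table} (f : TermHom 𝓜 R S)
    (g : TermHom 𝓜 S T) : mp N (f.comp g) = mp N f ≫ mp N g :=
  N.K.map_comp f g

lemma mp_id (N : Mor (termThy 𝓜).G H) (T : Table) : mp N (TermHom.id 𝓜 T) = 𝟙 _ :=
  N.K.map_id _

/-- Naturality can be checked on generators. -/
lemma nat_of (N N' : Mor (termThy 𝓜).G H)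
    (β : ∀ T : Table, N.K.obj (T : (termThy 𝓜).Obj) ⟶ N'.K.obj (T : (termThy 𝓜).Obj))
    (hgen : ∀ (S T : Table) (g : Gen S T),
      mp N (TermHom.gen 𝓜 g) ≫ β T = β S ≫ mp N' (TermHom.gen 𝓜 g))
    (hsig : ∀ i, mp N (TermHom.sig 𝓜 i) ≫ β _ = β _ ≫ mp N' (TermHom.sig 𝓜 i))
    (htau : ∀ i, mp N (TermHom.tau 𝓜 i) ≫ β _ = β _ ≫ mp N' (TermHom.tau 𝓜 i))
    (hinj : ∀ T k, mp N (TermHom.inj 𝓜 T k) ≫ β _ = β _ ≫ mp N' (TermHom.inj 𝓜 T k))
    {S T : Table} (f : TermHom 𝓜 S T) : mp N f ≫ β T = β S ≫ mp N' f := by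
  obtain ⟨r, hr, rfl⟩ := f.exists_rep
  induction r with
  | gen g => exact hgen _ _ g
  | id T =>
    have h1 : mp N (TermHom.mk (.id T) hr) = 𝟙 _ := mp_id N T
    have h2 : mp N' (TermHom.mk (.id T) hr) = 𝟙 _ := mp_id N' T
    rw [h1, h2, Category.id_comp, Category.comp_id]
  | comp f g ihf ihg =>
    have hf : Valid 𝓜 f := fun M hM => (eval_comp_isSome (hr M hM)).1
    have hg : Valid 𝓜 g := fun M hM => (eval_comp_isSome (hr M hM)).2
    have h1 : mp N (TermHom.mk (.comp f g) hr) = mp N (TermHom.mk f hf) ≫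
      mp N (TermHom.mk g hg) := mp_comp N (TermHom.mk f hf) (TermHom.mk g hg)
    have h2 : mp N' (TermHom.mk (.comp f g) hr) = mp N' (TermHom.mk f hf) ≫
      mp N' (TermHom.mk g hg) := mp_comp N' (TermHom.mk f hf) (TermHom.mk g hg)
    rw [h1, h2, Category.assoc, ihg hg, ← Category.assoc, ihf hf, Category.assoc]
  | sig i => exact hsig i
  | tau i => exact htau i
  | inj T k => exact hinj T k
  | @desc S T f ih =>
    have hf : ∀ k, Valid 𝓜 (f k) := fun k M hM => (eval_desc_isSome (hr M hM) k).1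
    have hc : ∀ k, (TermHom.inj 𝓜 S k).comp (TermHom.mk (.desc f) hr) =
        TermHom.mk (f k) (hf k) := by
      intro k
      apply TermHom.ext
      intro M hM
      rw [TermHom.ev_comp, TermHom.ev_inj]
      have h1 := (eval_desc_isSome (hr M hM) k).2 _ (TermHom.ev_mk hM (.desc f) hr)
      have h2 := TermHom.ev_mk hM (f k) (hf k)
      exact Option.some.inj (h1.symm.trans h2)
    apply (N.pres S S (termCocone 𝓜 S) ((termThy 𝓜).sum S)).hom_ext
    intro k
    have h1 : (N.push (termCocone 𝓜 S)).inj k = (N.e _).inv ≫ mp N (TermHom.inj 𝓜 S k) := rfl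
    rw [h1, Category.assoc, Category.assoc]
    congr 1
    have h2 := mp_comp N (TermHom.inj 𝓜 S k) (TermHom.mk (.desc f) hr)
    have h3 := mp_comp N' (TermHom.inj 𝓜 S k) (TermHom.mk (.desc f) hr)
    rw [hc] at h2 h3
    exact (Category.assoc _ _ _).symm.trans ((congrArg (fun z => z ≫ β T) h2.symm).trans
      ((ih k (hf k)).trans ((congrArg (fun z => β _ ≫ z) h3).trans
        ((Category.assoc _ _ _).symm.trans ((congrArg
          (fun z => z ≫ mp N' (TermHom.mk (.desc f) hr)) (hinj S k).symm).trans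
            (Category.assoc _ _ _))))))

end

end Pool.Agent.W_MP_0394fb_al
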