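import Pool.Agent.W_MP_0394fb_al.Defs

set_option autoImplicit false

open CategoryTheory Opposite

namespace Pool.Agent.W_MP_0394fb_al

/-! ## Disks -/

/-- The closed unit disk of dimension `i`. -/
abbrev Disk (i : ℕ) : Type := {x : Fin i → ℝ // ∑ j, x j ^ 2 ≤ 1}

/-- The height over a point of the disk. -/
noncomputable def Disk.ht {i : ℕ} (x : Disk i) : ℝ := Real.sqrt (1 - ∑ j, x.1 j ^ 2)

lemma Disk.ht_sq {i : ℕ} (x : Disk i) : x.ht ^ 2 = 1 - ∑ j, x.1 j ^ 2 :=
  Real.sq_sqrt (by have := x.2; linarith)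

lemma Disk.sum_snoc {i : ℕ} (x : Disk i) (r : ℝ) :
    ∑ j, (Fin.snoc x.1 r : Fin (i + 1) → ℝ) j ^ 2 = ∑ j, x.1 j ^ 2 + r ^ 2 := by
  rw [Fin.sum_univ_castSucc]
  simp

/-- The map `x ↦ (x, -√(1-‖x‖²))`. -/
noncomputable def Disk.south {i : ℕ} (x : Disk i) : Disk (i + 1) :=
  ⟨Fin.snoc x.1 (-x.ht), by rw [Disk.sum_snoc, neg_sq, Disk.ht_sq]; linarith⟩

/-- The map `x ↦ (x, √(1-‖x‖²))`. -/
noncomputable def Disk.north {i : ℕ} (x : Disk i) : Disk (i + 1) :=
  ⟨Fin.snoc x.1 x.ht, by rw [Disk.sum_snoc, Disk.ht_sq]; linarith⟩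

lemma Disk.continuous_coord {i : ℕ} (j : Fin i) : Continuous (fun x : Disk i => x.1 j) :=
  (continuous_apply j).comp continuous_subtype_val

lemma Disk.continuous_ht {i : ℕ} : Continuous (Disk.ht (i := i)) :=
  Real.continuous_sqrt.comp
    (continuous_const.sub (continuous_finsetSum _ fun j _ => (Disk.continuous_coord j).pow 2))

lemma Disk.continuous_snoc {i : ℕ} {r : Disk i → ℝ} (hr : Continuous r) :
    Continuous (fun x : Disk i => (Fin.snoc x.1 (r x) : Fin (i + 1) → ℝ)) := by
  refine continuous_pi fun j => ?_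
  refine Fin.lastCases ?_ (fun j => ?_) j
  · simpa using hr
  · simp only [Fin.snoc_castSucc]
    exact Disk.continuous_coord j

lemma Disk.continuous_south {i : ℕ} : Continuous (Disk.south (i := i)) :=
  (Disk.continuous_snoc Disk.continuous_ht.neg).subtype_mk _

lemma Disk.continuous_north {i : ℕ} : Continuous (Disk.north (i := i)) :=
  (Disk.continuous_snoc Disk.continuous_ht).subtype_mk _

lemma Disk.ht_south {i : ℕ} (x : Disk i) : x.south.ht = 0 := by
  have : ∑ j, x.south.1 j ^ 2 = 1 := by
    unfold Disk.south; rw [Disk.sum_snoc, neg_sq, Disk.ht_sq]; ring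
  unfold Disk.ht; rw [this]; simp

lemma Disk.ht_north {i : ℕ} (x : Disk i) : x.north.ht = 0 := by
  have : ∑ j, x.north.1 j ^ 2 = 1 := by
    unfold Disk.north; rw [Disk.sum_snoc, Disk.ht_sq]; ring
  unfold Disk.ht; rw [this]; simp

lemma Disk.south_eq_north {i : ℕ} (x : Disk i) (h : x.ht = 0) : x.south = x.north := by
  unfold Disk.south Disk.north; simp [h]

/-- The disk as an object of the category of topological spaces. -/
abbrev Disk.top (i : ℕ) : TopCat.{0} := TopCat.of (Disk i)

/-- The source map as a morphism. -/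
noncomputable abbrev Disk.southHom (i : ℕ) : Disk.top i ⟶ Disk.top (i + 1) :=
  TopCat.ofHom ⟨Disk.south, Disk.continuous_south⟩

/-- The target map as a morphism. -/
noncomputable abbrev Disk.northHom (i : ℕ) : Disk.top i ⟶ Disk.top (i + 1) :=
  TopCat.ofHom ⟨Disk.north, Disk.continuous_north⟩

lemma Disk.south_comp (i : ℕ) :
    Disk.southHom i ≫ Disk.southHom (i + 1) = Disk.southHom i ≫ Disk.northHom (i + 1) :=
  TopCat.hom_ext (ContinuousMap.ext fun _ => Disk.south_eq_north _ (Disk.ht_south _))

lemma Disk.north_comp (i : ℕ) :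
    Disk.northHom i ≫ Disk.southHom (i + 1) = Disk.northHom i ≫ Disk.northHom (i + 1) :=
  TopCat.hom_ext (ContinuousMap.ext fun _ => Disk.south_eq_north _ (Disk.ht_north _))

/-- The category of topological spaces, under the globe category by the disks. -/
noncomputable def disks : Coglob TopCat.{0} :=
  ⟨Disk.top, Disk.southHom, Disk.northHom, Disk.south_comp, Disk.north_comp⟩

/-! ## The fundamental infinity-groupoid and the classifying space -/

section

variable {C : Type} [Category.{0} C] {G : Coglob C}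

/-- The functor sending a space `X` to the presheaf `Hom(F(-), X)`. -/
def sing (F : C ⥤ TopCat.{0}) : TopCat.{0} ⥤ (Cᵒᵖ ⥤ Type) :=
  yoneda ⋙ (Functor.whiskeringLeft _ _ _).obj F.op

/-- comparison of `sing` with Mathlib's version -/
def singIso (F : C ⥤ TopCat.{0}) : Presheaf.restrictedULiftYoneda.{0} F ≅ sing F :=
  NatIso.ofComponents (fun X => NatIso.ofComponents (fun c => Equiv.toIso Equiv.ulift)
    (fun f => by ext x; rfl)) (fun f => by ext c x; rfl)

instance (F : C ⥤ TopCat.{0}) : (sing F).IsRightAdjoint := by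
  have : (Presheaf.restrictedULiftYoneda.{0} F).IsRightAdjoint :=
    (Presheaf.uliftYonedaAdjunction.{0} ((uliftYoneda.{0}).leftKanExtension F)
      ((uliftYoneda.{0}).leftKanExtensionUnit F)).isRightAdjoint
  exact Functor.isRightAdjoint_of_iso (singIso F)

lemma isGpd_sing (F : Mor G disks) (X : TopCat.{0}) : IsGpd G ((sing F.K).obj X) := by
  intro T Y c hc x hx
  have h := F.pres T Y c hc
  let x' : ∀ k, F.K.obj (G.D (T.top k)) ⟶ X := x
  have hx' : ∀ k : Fin T.len, F.K.map (G.sIter (T.hl k).le) ≫ x' k.castSucc =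
    F.K.map (G.tIter (T.hr k).le) ≫ x' k.succ := hx
  let d : disks.Cocone T X :=
    { inj := fun k => (F.e _).inv ≫ x' k
      glue := fun k => by
        have h1 := F.e_sIter (T.hl k).le
        have h2 := F.e_tIter (T.hr k).le
        rw [← Iso.inv_comp_eq, ← Category.assoc, ← Iso.eq_comp_inv] at h1 h2
        rw [← Category.assoc, ← h1, ← Category.assoc, ← h2, Category.assoc, Category.assoc, hx'] }
  obtain ⟨f, hf, hu⟩ := h X d
  have key : ∀ (g : F.K.obj Y ⟶ X) (k : Fin (T.len + 1)),
      (F.push c).inj k ≫ g = d.inj k ↔ F.K.map (c.inj k) ≫ g = x' k := by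
    intro g k
    simp only [Under.push, d, Category.assoc, Iso.cancel_iso_inv_left]
  exact ⟨f, fun k => (key f k).1 (hf k), fun f' hf' => hu f' fun k => (key f' k).2 (hf' k)⟩

/-- The fundamental infinity-groupoid functor `Π_∞`. -/
def piInf (F : Mor G disks) : TopCat.{0} ⥤ Gpd G :=
  (IsGpd G).lift (sing F.K) (isGpd_sing F)

/-- The colimit-preserving extension of `F` to presheaves: the left adjoint of `sing F`. -/
noncomputable def realPsh (F : C ⥤ TopCat.{0}) : (Cᵒᵖ ⥤ Type) ⥤ TopCat.{0} :=
  (sing F).leftAdjoint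

/-- The classifying space functor `|·|`: the restriction of the colimit-preserving extension of
`F` to infinity-groupoids. -/
noncomputable def real (F : Mor G disks) : Gpd G ⥤ TopCat.{0} :=
  (IsGpd G).ι ⋙ realPsh F.K

/-- Sanity check: the classifying space functor is left adjoint to `Π_∞`. -/
noncomputable def realAdj (F : Mor G disks) : real F ⊣ piInf F :=
  (Adjunction.ofIsRightAdjoint (sing F.K)).restrictFullyFaithful
    (iC := (IsGpd G).ι) (iD := 𝟭 _) (L := real F) (R := piInf F)
    (ObjectProperty.fullyFaithfulι _) (Functor.FullyFaithful.id _) (Iso.refl _) (Iso.refl _)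

end

/-! ## Weak homotopy equivalences -/

/-- The map induced on path components. -/
def zerothMap {X Y : Type} [TopologicalSpace X] [TopologicalSpace Y] (f : C(X, Y)) :
    ZerothHomotopy X → ZerothHomotopy Y :=
  Quotient.map f (fun _ _ h => h.map f.continuous)

/-- The map induced on generalized loops. -/
def genLoopMap {X Y : Type} [TopologicalSpace X] [TopologicalSpace Y] (f : C(X, Y)) {n : ℕ}
    {x : X} (p : GenLoop (Fin n) X x) : GenLoop (Fin n) Y (f x) :=
  ⟨f.comp p.1, fun y hy => by
    have := p.2 y hy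
    simp only [ContinuousMap.comp_apply, this]⟩

/-- The map induced on homotopy groups. -/
def piMap {X Y : Type} [TopologicalSpace X] [TopologicalSpace Y] (f : C(X, Y)) (n : ℕ) (x : X) :
    HomotopyGroup (Fin n) X x → HomotopyGroup (Fin n) Y (f x) :=
  Quotient.map (genLoopMap f) (fun _ _ h =>
    ContinuousMap.HomotopicRel.comp_continuousMap h f)

/-- Weak homotopy equivalences. -/
def topW : MorphismProperty TopCat.{0} := fun X _ f =>
  Function.Bijective (zerothMap f.hom) ∧
  ∀ (n : ℕ) (x : X), 1 ≤ n → Function.Bijective (piMap f.hom n x)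

/-! ## The first part of the conjecture -/

/-- `F` carries the morphisms in `W` to morphisms in `W'`. -/
def Carries {A B : Type 1} [Category.{0} A] [Category.{0} B] (W : MorphismProperty A)
    (W' : MorphismProperty B) (F : A ⥤ B) : Prop :=
  ∀ ⦃X Y : A⦄ (f : X ⟶ Y), W f → W' (F.map f)

/-- `F` and `F'` induce functors between the localisations of `A` at `W` and of `B` at `W'`,
which are mutually quasi-inverse equivalences. -/
def InduceEquivalences {A B : Type 1} [Category.{0} A] [Category.{0} B] (W : MorphismProperty A)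
    (W' : MorphismProperty B) (F : A ⥤ B) (F' : B ⥤ A) : Prop :=
  ∃ (R : W.Localization ⥤ W'.Localization) (R' : W'.Localization ⥤ W.Localization),
    Nonempty (W.Q ⋙ R ≅ F ⋙ W'.Q) ∧ Nonempty (W'.Q ⋙ R' ≅ F' ⋙ W.Q) ∧
    Nonempty (R ⋙ R' ≅ 𝟭 _) ∧ Nonempty (R' ⋙ R ≅ 𝟭 _)

/-- Statement (i): `|·|` and `Π_∞` carry weak equivalences to weak equivalences, and the functors
which they induce between the localisations are mutually quasi-inverse equivalences. -/
def StatementI {C : Type} [Category.{0} C] {G : Coglob C} (F : Mor G disks) : Prop :=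
  Carries (gpdW G) topW (real F) ∧ Carries topW (gpdW G) (piInf F) ∧
    InduceEquivalences (gpdW G) topW (real F) (piInf F)

end Pool.Agent.W_MP_0394fb_al
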